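import Mathlib

/-!
# Two concave functions

PROOF. `psi L = log (exp L - 1)` is concave on `L > 0` with derivative `exp L / (exp L - 1)`
(second derivative `- exp L / (exp L - 1)^2`); tangent line at `L`. Elementary proof: with
`E = exp L`, `E' = exp L'`, `d = L' - L`: `E' - 1 = E exp d - 1`, so
`log ((E' - 1)/(E - 1)) = log (1 + E (exp d - 1)/(E - 1))`; or use
`ConcaveOn` and the mean value theorem. `chi L = 2 psi L - L` has derivative
`2 E/(E-1) - 1 = (E+1)/(E-1)`.
-/

namespace Pool.Agent.H36.SB

theorem psi_tangent {L L' : ℝ} (h : 0 < L) (h' : 0 < L') :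
    Real.exp L / (Real.exp L - 1) * (L - L') ≤
      Real.log (Real.exp L - 1) - Real.log (Real.exp L' - 1) := by
  have hE : 1 < Real.exp L := Real.one_lt_exp_iff.2 h
  have hE' : 1 < Real.exp L' := Real.one_lt_exp_iff.2 h'
  have hE1 : 0 < Real.exp L - 1 := by linarith
  have hE1' : 0 < Real.exp L' - 1 := by linarith
  have ha : 1 ≤ Real.exp L / (Real.exp L - 1) := by
    rw [le_div_iff₀ hE1]; linarith
  have hb := one_add_mul_self_le_rpow_one_add (s := Real.exp (L' - L) - 1)
    (by linarith [Real.exp_pos (L' - L)]) ha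
  have h1 : (1 + (Real.exp (L' - L) - 1)) ^ (Real.exp L / (Real.exp L - 1))
      = Real.exp ((L' - L) * (Real.exp L / (Real.exp L - 1))) := by
    rw [add_sub_cancel, ← Real.exp_mul]
  rw [h1] at hb
  have h0 : Real.exp L' = Real.exp L * Real.exp (L' - L) := by
    rw [← Real.exp_add]; congr 1; ring
  have h2 : Real.exp L' - 1 = (Real.exp L - 1) *
      (1 + Real.exp L / (Real.exp L - 1) * (Real.exp (L' - L) - 1)) := by
    rw [h0]
    have hne : Real.exp L - 1 ≠ 0 := hE1.ne'
    field_simp
    ring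
  have h3 : Real.exp L' - 1 ≤
      (Real.exp L - 1) * Real.exp ((L' - L) * (Real.exp L / (Real.exp L - 1))) := by
    rw [h2]
    exact mul_le_mul_of_nonneg_left hb hE1.le
  have h4 := Real.log_le_log hE1' h3
  rw [Real.log_mul hE1.ne' (Real.exp_pos _).ne', Real.log_exp] at h4
  have h5 : Real.exp L / (Real.exp L - 1) * (L - L')
      = -((L' - L) * (Real.exp L / (Real.exp L - 1))) := by ring
  rw [h5]
  linarith

theorem chi_tangent {L L' : ℝ} (h : 0 < L) (h' : 0 < L') :
    (Real.exp L + 1) / (Real.exp L - 1) * (L - L') ≤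
      (2 * Real.log (Real.exp L - 1) - L) - (2 * Real.log (Real.exp L' - 1) - L') := by
  have h1 := psi_tangent h h'
  have h2 : 0 < Real.exp L - 1 := by
    have := Real.one_lt_exp_iff.2 h
    linarith
  have h3 : (Real.exp L + 1) / (Real.exp L - 1) = 2 * (Real.exp L / (Real.exp L - 1)) - 1 := by
    field_simp
    ring
  rw [h3]
  linarith

end Pool.Agent.H36.SB
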