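import Pool.Agent.H36.SB.Defs
import Pool.Agent.H97.SIM.Four

/-!
# Coefficient inequalities

Write `β_n = |b_n|^2`, `β_0 = 0`, `sum n β_n <= 1` (area theorem), `0 < x < 1`.

PROOF. `four_core3`: this is the private lemma `four_core` in `H97/SIM/Four.lean` (copy it with its
proof; `M4` is `av |.|^4`). `ox = sum_(n>=2) β_n x^(2n+2)` (`mx` without the term `n = 1`):
* `ox_nonneg`: clear. `ox_le`: `mx + ox <= 1`: `mx + ox = β_1 x^4 + 2 sum_(n>=2) β_n x^(2n+2) <=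
  β_1 + sum_(n>=2) n β_n <= 1`.
* `M4_le`: `1 + 4 mx + 1 - M4 >= 1 - x^8 + 4 (β_1 x^4 + β_2 x^6) - 4 β_1 x^4 - 4 β_2 (x^6 - x^8/2)
  >= 0`, since `mx >= β_1 x^4 + β_2 x^6`.
* `ox_le_six`: `ox <= β_2 x^6 + x^8 sum_(n>=3) β_n <= β_2 x^6 + (x^8/3) (1 - β_1 - 2 β_2)`.
* `del_ox`: `1 + 4 x^4 + x^8 - M4 >= 4 x^4 (1 - β_1) - 4 β_2 (x^6 - x^8/2)`, and
  `2 ox <= 2 β_2 x^6 + (2 x^8/3) (1 - β_1 - 2 β_2)`; the difference is at least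
  `(1 - β_1) (4 x^4 - (2/3) x^8) - β_2 (6 x^6 - (10/3) x^8)`, and `1 - β_1 >= 2 β_2`,
  `2 (4 x^4 - (2/3) x^8) >= 6 x^6 - (10/3) x^8` (`8 x^4 >= 6 x^6 + ...`, `x <= 1`).
* `del_pos`: `4 β_2 (x^6 - x^8/2) <= 2 (1 - β_1) x^4 (x^2 - x^4/2) <= (1 - β_1) x^4`
  (`v - v^2/2 <= 1/2`).
-/

open Complex MeasureTheory Set Filter Topology
open scoped ComplexConjugate Real

namespace Pool.Agent.H36.SB

open Pool.Agent.H97.SIM Pool.Agent.H15.Sig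

variable {F : ℂ → ℂ} {b : ℕ → ℂ}

private theorem four3_av_sx (b : ℕ → ℂ) (X : ℝ) : av (fun t => ‖sx b X t‖ ^ 4) =
    (2 * π)⁻¹ * ∫ t in (-π)..π, ‖(1 + (X * ec t) * pw b (X * ec t)) ^ 2‖ ^ 2 := by
  rw [← av_neg, av]
  congr 1
  refine intervalIntegral.integral_congr fun t _ => ?_
  simp only [sx, S, ec_eq, norm_pow]
  ring

theorem four_core3 (h : IsSig F b) {x : ℝ} (hx0 : 0 < x) (hx : x < 1) :
    M4 (sx b x) ≤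
      1 + 4 * ‖b 1‖ ^ 2 * x ^ 4 + 4 * ‖b 2‖ ^ 2 * (x ^ 6 - x ^ 8 / 2) + x ^ 8 := by
  rw [M4, four3_av_sx]
  have hb0 : b 0 = 0 := h.b0
  have h1 := h.moment_le (N := 2) (s := 4) (by norm_num) (by norm_num) hx0 hx
    (c := x ^ 8 / 2) (by positivity) (by norm_num)
  have hpi := Real.pi_pos
  have h2 : (2 * π)⁻¹ * (∫ t in (-π)..π, ‖(1 + (x * ec t) * pw b (x * ec t)) ^ 2‖ ^ 2) ≤
      (2 * π)⁻¹ * (2 * π * ∑ k ∈ Finset.range 4,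
        (x ^ (2 * k) - x ^ 8 / 2 * ((k : ℝ) - (2 : ℕ))) * ‖PowerSeries.coeff k (sps b ^ 2)‖ ^ 2) :=
    mul_le_mul_of_nonneg_left h1 (by positivity)
  refine h2.trans (le_of_eq ?_)
  rw [← mul_assoc, inv_mul_cancel₀ (by positivity), one_mul]
  simp only [Finset.sum_range_succ, Finset.sum_range_zero]
  rw [sps_sq_0, sps_sq_1 hb0, sps_sq_2 hb0, sps_sq_3 hb0]
  simp only [norm_mul, norm_one, norm_zero]
  norm_num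
  ring

/-- the terms of the area theorem -/
private theorem four3_area (h : IsSig F b) : Summable (fun n : ℕ => (n : ℝ) * ‖b n‖ ^ 2) ∧
    ∑' n : ℕ, (n : ℝ) * ‖b n‖ ^ 2 ≤ 1 := by
  have h0 : ∀ n : ℕ, 0 ≤ (n : ℝ) * ‖b n‖ ^ 2 := fun n => by positivity
  have h1 : ∀ n : ℕ, ∑ i ∈ Finset.range n, (i : ℝ) * ‖b i‖ ^ 2 ≤ 1 := fun n => h.area n
  exact ⟨summable_of_sum_range_le h0 h1, Real.tsum_le_of_sum_range_le h0 h1⟩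

private theorem four3_tail (h : IsSig F b) :
    ‖b 1‖ ^ 2 + 2 * ‖b 2‖ ^ 2 + ∑' n : ℕ, ((n + 3 : ℕ) : ℝ) * ‖b (n + 3)‖ ^ 2 ≤ 1 := by
  obtain ⟨h1, h2⟩ := four3_area h
  have h3 := h1.sum_add_tsum_nat_add 3
  simp only [Finset.sum_range_succ, Finset.sum_range_zero] at h3
  norm_num at h3 ⊢
  linarith

private theorem four3_term (h : IsSig F b) {x : ℝ} (hx0 : 0 < x) (hx : x < 1) (n : ℕ) :
    ‖b n‖ ^ 2 * x ^ (2 * n + 2) ≤ (n : ℝ) * ‖b n‖ ^ 2 := by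
  rcases Nat.eq_zero_or_pos n with rfl | hn
  · rw [h.b0]
    simp
  · have h1 : x ^ (2 * n + 2) ≤ 1 := pow_le_one₀ hx0.le hx.le
    have h2 : (1 : ℝ) ≤ n := by exact_mod_cast hn
    have h3 : 0 ≤ ‖b n‖ ^ 2 := by positivity
    nlinarith

private theorem four3_sum (h : IsSig F b) {x : ℝ} (hx0 : 0 < x) (hx : x < 1) :
    Summable (fun n : ℕ => ‖b n‖ ^ 2 * x ^ (2 * n + 2)) :=
  Summable.of_nonneg_of_le (fun n => by positivity) (four3_term h hx0 hx) (four3_area h).1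

private theorem four3_ox (h : IsSig F b) {x : ℝ} (hx0 : 0 < x) (hx : x < 1) :
    ox b x = ‖b 2‖ ^ 2 * x ^ 6 + ∑' n : ℕ, ‖b (n + 3)‖ ^ 2 * x ^ (2 * (n + 3) + 2) := by
  have h3 := (four3_sum h hx0 hx).sum_add_tsum_nat_add 3
  simp only [Finset.sum_range_succ, Finset.sum_range_zero] at h3
  rw [h.b0] at h3
  rw [ox, mx, ← h3]
  norm_num
  ring

private theorem four3_tsum_nonneg {x : ℝ} (hx0 : 0 < x) :
    0 ≤ ∑' n : ℕ, ‖b (n + 3)‖ ^ 2 * x ^ (2 * (n + 3) + 2) :=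
  tsum_nonneg fun n => by positivity

private theorem four3_tsum_le (h : IsSig F b) {x : ℝ} (hx0 : 0 < x) (hx : x < 1) :
    ∑' n : ℕ, ‖b (n + 3)‖ ^ 2 * x ^ (2 * (n + 3) + 2) ≤
      x ^ 8 / 3 * (1 - ‖b 1‖ ^ 2 - 2 * ‖b 2‖ ^ 2) := by
  have h1 := four3_tail h
  have s1 : Summable (fun n : ℕ => ‖b (n + 3)‖ ^ 2 * x ^ (2 * (n + 3) + 2)) :=
    (summable_nat_add_iff 3).2 (four3_sum h hx0 hx)
  have s2 : Summable (fun n : ℕ => ((n + 3 : ℕ) : ℝ) * ‖b (n + 3)‖ ^ 2) :=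
    (summable_nat_add_iff (f := fun n : ℕ => (n : ℝ) * ‖b n‖ ^ 2) 3).2 (four3_area h).1
  have h2 : ∑' n : ℕ, ‖b (n + 3)‖ ^ 2 * x ^ (2 * (n + 3) + 2) ≤
      ∑' n : ℕ, x ^ 8 / 3 * (((n + 3 : ℕ) : ℝ) * ‖b (n + 3)‖ ^ 2) := by
    refine s1.tsum_le_tsum (fun n => ?_) (s2.mul_left _)
    have e1 : x ^ (2 * (n + 3) + 2) ≤ x ^ 8 := pow_le_pow_of_le_one hx0.le hx.le (by omega)
    have e2 : 0 ≤ ‖b (n + 3)‖ ^ 2 := by positivity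
    have e3 : (1 : ℝ) ≤ ((n + 3 : ℕ) : ℝ) / 3 := by
      push_cast
      have : (0 : ℝ) ≤ n := Nat.cast_nonneg n
      linarith
    calc ‖b (n + 3)‖ ^ 2 * x ^ (2 * (n + 3) + 2) ≤ ‖b (n + 3)‖ ^ 2 * x ^ 8 :=
          mul_le_mul_of_nonneg_left e1 e2
      _ = 1 * (‖b (n + 3)‖ ^ 2 * x ^ 8) := by ring
      _ ≤ (((n + 3 : ℕ) : ℝ) / 3) * (‖b (n + 3)‖ ^ 2 * x ^ 8) :=
          mul_le_mul_of_nonneg_right e3 (by positivity)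
      _ = x ^ 8 / 3 * (((n + 3 : ℕ) : ℝ) * ‖b (n + 3)‖ ^ 2) := by ring
  rw [tsum_mul_left] at h2
  refine h2.trans (mul_le_mul_of_nonneg_left (by linarith) (by positivity))

private theorem four3_b12 (h : IsSig F b) : 2 * ‖b 2‖ ^ 2 ≤ 1 - ‖b 1‖ ^ 2 := by
  have h1 := four3_tail h
  have h2 : 0 ≤ ∑' n : ℕ, ((n + 3 : ℕ) : ℝ) * ‖b (n + 3)‖ ^ 2 := tsum_nonneg fun n => by positivity
  linarith

theorem ox_nonneg (h : IsSig F b) {x : ℝ} (hx0 : 0 < x) (hx : x < 1) : 0 ≤ ox b x := by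
  rw [four3_ox h hx0 hx]
  have := four3_tsum_nonneg (b := b) hx0
  positivity

theorem ox_le (h : IsSig F b) {x : ℝ} (hx0 : 0 < x) (hx : x < 1) : ox b x ≤ 1 - mx b x := by
  have h1 := four3_ox h hx0 hx
  have h2 : mx b x = ox b x + ‖b 1‖ ^ 2 * x ^ 4 := by rw [ox]; ring
  have h3 := four3_tsum_le h hx0 hx
  have h4 := four3_b12 h
  have h5 : x ^ 8 ≤ 1 := pow_le_one₀ hx0.le hx.le
  have h6 : x ^ 6 ≤ 1 := pow_le_one₀ hx0.le hx.le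
  have h7 : x ^ 4 ≤ 1 := pow_le_one₀ hx0.le hx.le
  have h8 : 0 < x ^ 8 := by positivity
  have b1 : 0 ≤ ‖b 1‖ ^ 2 := by positivity
  have b2 : 0 ≤ ‖b 2‖ ^ 2 := by positivity
  have e1 : ‖b 1‖ ^ 2 * x ^ 4 ≤ ‖b 1‖ ^ 2 * 1 := mul_le_mul_of_nonneg_left h7 b1
  have e2 : ‖b 2‖ ^ 2 * x ^ 6 ≤ ‖b 2‖ ^ 2 * 1 := mul_le_mul_of_nonneg_left h6 b2
  have e3 : x ^ 8 / 3 * (1 - ‖b 1‖ ^ 2 - 2 * ‖b 2‖ ^ 2) ≤
      1 / 3 * (1 - ‖b 1‖ ^ 2 - 2 * ‖b 2‖ ^ 2) :=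
    mul_le_mul_of_nonneg_right (by linarith) (by linarith)
  linarith

theorem M4_le (h : IsSig F b) {x : ℝ} (hx0 : 0 < x) (hx : x < 1) :
    M4 (sx b x) ≤ 2 + 4 * mx b x := by
  have h0 := four_core3 h hx0 hx
  have h1 := four3_ox h hx0 hx
  have h2 : mx b x = ox b x + ‖b 1‖ ^ 2 * x ^ 4 := by rw [ox]; ring
  have h3 := four3_tsum_nonneg (b := b) hx0
  have h5 : x ^ 8 ≤ 1 := pow_le_one₀ hx0.le hx.le
  have b2 : 0 ≤ ‖b 2‖ ^ 2 * x ^ 8 := by positivity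
  have e : 4 * ‖b 2‖ ^ 2 * (x ^ 6 - x ^ 8 / 2) = 4 * (‖b 2‖ ^ 2 * x ^ 6) -
      2 * (‖b 2‖ ^ 2 * x ^ 8) := by ring
  rw [e] at h0
  linarith

theorem del_ox (h : IsSig F b) {x : ℝ} (hx0 : 0 < x) (hx : x < 1) :
    2 * ox b x ≤ 1 + 4 * x ^ 4 + x ^ 8 - M4 (sx b x) := by
  have h0 := four_core3 h hx0 hx
  have h1 := four3_ox h hx0 hx
  have h3 := four3_tsum_le h hx0 hx
  have h4 := four3_b12 h
  have b2 : 0 ≤ ‖b 2‖ ^ 2 := by positivity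
  have h6 : x ^ 6 ≤ x ^ 4 := pow_le_pow_of_le_one hx0.le hx.le (by norm_num)
  have h8 : x ^ 8 ≤ x ^ 4 := pow_le_pow_of_le_one hx0.le hx.le (by norm_num)
  have p8 : 0 < x ^ 8 := by positivity
  have p4 : 0 < x ^ 4 := by positivity
  have e1 : 0 ≤ (1 - ‖b 1‖ ^ 2 - 2 * ‖b 2‖ ^ 2) * (4 * x ^ 4 - 2 / 3 * x ^ 8) :=
    mul_nonneg (by linarith) (by linarith)
  have e2 : 0 ≤ ‖b 2‖ ^ 2 * (8 * x ^ 4 - 6 * x ^ 6 + 2 * x ^ 8) :=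
    mul_nonneg b2 (by linarith)
  nlinarith [e1, e2, h0, h1, h3]

theorem del_pos (h : IsSig F b) {x : ℝ} (hx0 : 0 < x) (hx : x < 1) :
    3 * x ^ 4 * (1 - ‖b 1‖ ^ 2) ≤ 1 + 4 * x ^ 4 + x ^ 8 - M4 (sx b x) := by
  have h0 := four_core3 h hx0 hx
  have h4 := four3_b12 h
  have b2 : 0 ≤ ‖b 2‖ ^ 2 := by positivity
  have e1 : 0 ≤ (1 - ‖b 1‖ ^ 2 - 2 * ‖b 2‖ ^ 2) * x ^ 4 :=
    mul_nonneg (by linarith) (by positivity)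
  have e2 : 0 ≤ ‖b 2‖ ^ 2 * x ^ 4 * (1 - x ^ 2) ^ 2 := by positivity
  nlinarith [e1, e2, h0]

end Pool.Agent.H36.SB
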