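import Pool.Agent.H36.SB.Defs
import Pool.Agent.H97.SIM.JEq
import Pool.Agent.H97.SIM.Base

/-!
# The values for `1 + u^2`

PROOF. `gJ x t = 1 + x^2 e^(2it)`, `kJ x t = 2 x^2 e^(2it)`; with `c = x^2`,
`|gJ|^2 = 1 + c^2 + 2 c cos 2t`, `Re (conj gJ kJ) = 2 c cos 2t + 2 c^2`; means: `av cos 2t = 0`,
`av cos^2 2t = 1/2`. So `M4 = (1 + c^2)^2 + 2 c^2 = 1 + 4 c^2 + c^4`,
`A2 = 2 c^2 (1 + c^2) + 2 c^2 = 4 c^2 + 2 c^4`, `M2 = 1 + c^2` (`J_sq`), `A1 = 2 c^2` (`J_k`).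
`J_exists_q`: `q -> (1 - q) (1 - x^4 q) / q` is continuous on `(0, 1]`, `0` at `q = 1` and tends to
infinity for `q -> 0` (for `q <= 1/2`: `>= (1/2)(1/2)/q`); intermediate value theorem.
`J_Ig`: with this `q`, `exp (Lg s (gJ x)) = 1/q` (`J_L`), `Ig = 2 log ((1-q)/(q s))` (`J_I`) and
`(1 - q)/q = 1/q - 1`. `J_one`: at `x = 1` `s = (1-q)^2/q = (E-1)^2/E`, `E = 1/q`.
-/

open Complex MeasureTheory Set Filter Topology
open scoped ComplexConjugate Real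

namespace Pool.Agent.H36.SB

open Pool.Agent.H97.SIM

private noncomputable def cJ (t : ℝ) : ℝ := (e t ^ 2).re

private theorem cJ_cont : Continuous cJ := by
  have h := continuous_e
  unfold cJ
  fun_prop

private theorem cJ_av : av cJ = 0 := by
  have h := av_re (U := univ) isOpen_univ (subset_univ _) (f := fun z : ℂ => z ^ 2)
    (by fun_prop)
  simp only [ne_eq, OfNat.ofNat_ne_zero, not_false_eq_true, zero_pow, zero_re] at h
  exact h

private theorem cJ_sq (t : ℝ) : cJ t ^ 2 = (1 / 2) * (1 + (e t ^ 4).re) := by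
  have hw : ‖e t ^ 2‖ = 1 := by rw [norm_pow, norm_e, one_pow]
  have h1 : (e t ^ 2).re * (e t ^ 2).re + (e t ^ 2).im * (e t ^ 2).im = 1 := by
    have := Complex.sq_norm (e t ^ 2)
    rw [hw, Complex.normSq_apply] at this
    linarith
  have h2 : (e t ^ 4).re = (e t ^ 2).re * (e t ^ 2).re - (e t ^ 2).im * (e t ^ 2).im := by
    have h3 : e t ^ 4 = e t ^ 2 * e t ^ 2 := by ring
    rw [h3, mul_re]
  unfold cJ
  rw [h2]
  linear_combination (1 / 2 : ℝ) * h1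

private theorem cJ_sq_av : av (fun t => cJ t ^ 2) = 1 / 2 := by
  have hc : Continuous (fun t => (e t ^ 4).re) := by
    have h := continuous_e
    fun_prop
  have h := av_re (U := univ) isOpen_univ (subset_univ _) (f := fun z : ℂ => z ^ 4)
    (by fun_prop)
  simp only [ne_eq, OfNat.ofNat_ne_zero, not_false_eq_true, zero_pow, zero_re] at h
  rw [av_congr cJ_sq, av_mul_const, av_add continuous_const hc, av_const, h]
  norm_num

private theorem gJ_sq (x t : ℝ) : ‖gJ x t‖ ^ 2 = (1 + x ^ 4) + 2 * x ^ 2 * cJ t := by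
  have hw : ‖e t ^ 2‖ = 1 := by rw [norm_pow, norm_e, one_pow]
  have h1 : (e t ^ 2).re * (e t ^ 2).re + (e t ^ 2).im * (e t ^ 2).im = 1 := by
    have := Complex.sq_norm (e t ^ 2)
    rw [hw, Complex.normSq_apply] at this
    linarith
  have hg : gJ x t = 1 + ((x ^ 2 : ℝ) : ℂ) * e t ^ 2 := by
    unfold gJ
    push_cast
    ring
  rw [hg, Complex.sq_norm, Complex.normSq_apply]
  simp only [add_re, one_re, re_ofReal_mul, add_im, one_im, im_ofReal_mul]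
  unfold cJ
  linear_combination (x ^ 4) * h1

private theorem gJ_kJ (x t : ℝ) : (conj (gJ x t) * kJ x t).re = 2 * x ^ 2 * cJ t + 2 * x ^ 4 := by
  have hw : ‖e t ^ 2‖ = 1 := by rw [norm_pow, norm_e, one_pow]
  have h1 : (e t ^ 2).re * (e t ^ 2).re + (e t ^ 2).im * (e t ^ 2).im = 1 := by
    have := Complex.sq_norm (e t ^ 2)
    rw [hw, Complex.normSq_apply] at this
    linarith
  have hg : gJ x t = 1 + ((x ^ 2 : ℝ) : ℂ) * e t ^ 2 := by
    unfold gJ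
    push_cast
    ring
  have hk : kJ x t = ((2 * x ^ 2 : ℝ) : ℂ) * e t ^ 2 := by
    unfold kJ
    push_cast
    ring
  rw [hg, hk]
  simp only [mul_re, mul_im, conj_re, conj_im, add_re, one_re, add_im, one_im, ofReal_re,
    ofReal_im]
  unfold cJ
  linear_combination (2 * x ^ 2 * x ^ 2) * h1

theorem J_M4 (x : ℝ) : M4 (gJ x) = 1 + 4 * x ^ 4 + x ^ 8 := by
  have h1 : ∀ t, ‖gJ x t‖ ^ 4 = ((1 + x ^ 4) ^ 2 + 4 * x ^ 2 * (1 + x ^ 4) * cJ t) +
      4 * x ^ 4 * cJ t ^ 2 := by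
    intro t
    have h2 : ‖gJ x t‖ ^ 4 = (‖gJ x t‖ ^ 2) ^ 2 := by ring
    rw [h2, gJ_sq]
    ring
  have c1 : Continuous (fun t => (4 * x ^ 2 * (1 + x ^ 4)) * cJ t) :=
    continuous_const.mul cJ_cont
  have c2 : Continuous (fun t => (1 + x ^ 4) ^ 2 + (4 * x ^ 2 * (1 + x ^ 4)) * cJ t) :=
    continuous_const.add c1
  have c3 : Continuous (fun t => (4 * x ^ 4) * cJ t ^ 2) :=
    continuous_const.mul (cJ_cont.pow 2)
  unfold M4
  rw [av_congr h1, av_add c2 c3, av_add continuous_const c1, av_const, av_mul_const,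
    av_mul_const, cJ_sq_av]
  have h3 : av (fun t => cJ t) = 0 := cJ_av
  rw [h3]
  ring

theorem J_A2 (x : ℝ) : A2 (gJ x) (kJ x) = 4 * x ^ 4 + 2 * x ^ 8 := by
  have h1 : ∀ t, ‖gJ x t‖ ^ 2 * (conj (gJ x t) * kJ x t).re =
      ((1 + x ^ 4) * (2 * x ^ 4) + (2 * x ^ 2 * (1 + x ^ 4) + 4 * x ^ 6) * cJ t) +
      4 * x ^ 4 * cJ t ^ 2 := by
    intro t
    rw [gJ_sq, gJ_kJ]
    ring
  have c1 : Continuous (fun t => (2 * x ^ 2 * (1 + x ^ 4) + 4 * x ^ 6) * cJ t) :=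
    continuous_const.mul cJ_cont
  have c2 : Continuous (fun t => (1 + x ^ 4) * (2 * x ^ 4) +
      (2 * x ^ 2 * (1 + x ^ 4) + 4 * x ^ 6) * cJ t) :=
    continuous_const.add c1
  have c3 : Continuous (fun t => (4 * x ^ 4) * cJ t ^ 2) :=
    continuous_const.mul (cJ_cont.pow 2)
  unfold A2
  rw [av_congr h1, av_add c2 c3, av_add continuous_const c1, av_const, av_mul_const,
    av_mul_const, cJ_sq_av]
  have h3 : av (fun t => cJ t) = 0 := cJ_av
  rw [h3]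
  ring

theorem J_exists_q {x s : ℝ} (hx0 : 0 < x) (hx1 : x ≤ 1) (hs : 0 < s) :
    ∃ q : ℝ, 0 < q ∧ q < 1 ∧ s = (1 - q) * (1 - x ^ 4 * q) / q := by
  have hc : ContinuousOn (fun q : ℝ => (1 - q) * (1 - x ^ 4 * q) - s * q) (Icc 0 1) := by
    fun_prop
  have h1 := intermediate_value_Icc' (zero_le_one (α := ℝ)) hc
  have h2 : (0 : ℝ) ∈ Icc ((1 - 1) * (1 - x ^ 4 * 1) - s * 1)
      ((1 - (0:ℝ)) * (1 - x ^ 4 * 0) - s * 0) := by
    constructor
    · linarith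
    · norm_num
  obtain ⟨q, ⟨hq0, hq1⟩, hq⟩ := h1 h2
  have hq' : (1 - q) * (1 - x ^ 4 * q) - s * q = 0 := hq
  have h3 : q ≠ 0 := by
    rintro rfl
    norm_num at hq'
  have h4 : q ≠ 1 := by
    rintro rfl
    rw [sub_self, zero_mul, zero_sub, mul_one, neg_eq_zero] at hq'
    exact hs.ne' hq'
  refine ⟨q, lt_of_le_of_ne hq0 (Ne.symm h3), lt_of_le_of_ne hq1 h4, ?_⟩
  rw [eq_div_iff h3]
  linarith

theorem J_Ig {x s : ℝ} (hx0 : 0 < x) (hx1 : x ≤ 1) (hs : 0 < s) :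
    1 < Real.exp (Lg s (gJ x)) ∧
    Ig s (gJ x) (kJ x) = 2 * Real.log ((Real.exp (Lg s (gJ x)) - 1) / s) := by
  obtain ⟨q, hq0, hq1, hq⟩ := J_exists_q hx0 hx1 hs
  have hL : Lg s (gJ x) = -Real.log q := by
    rw [hq]
    exact J_L hx0 hx1 hq0 hq1
  have hE : Real.exp (Lg s (gJ x)) = 1 / q := by
    rw [hL, Real.exp_neg, Real.exp_log hq0, one_div]
  refine ⟨?_, ?_⟩
  · rw [hE, one_lt_div hq0]
    exact hq1
  · rw [J_I hx0 hx1 hq0 hq1 hq, hE]
    congr 2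
    field_simp

theorem J_one {s : ℝ} (hs : 0 < s) :
    2 * Real.log (Real.exp (Lg s (gJ 1)) - 1) - Lg s (gJ 1) = Real.log s := by
  obtain ⟨q, hq0, hq1, hq⟩ := J_exists_q (x := 1) one_pos le_rfl hs
  have hL : Lg s (gJ 1) = -Real.log q := by
    rw [hq]
    exact J_L one_pos le_rfl hq0 hq1
  have h1q : 0 < 1 - q := by linarith
  have hs2 : s = (1 - q) ^ 2 / q := by
    rw [hq]
    ring
  rw [hL, Real.exp_neg, Real.exp_log hq0]
  have h3 : q⁻¹ - 1 = (1 - q) / q := by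
    field_simp
  rw [h3, hs2, Real.log_div h1q.ne' hq0.ne', Real.log_div (pow_ne_zero 2 h1q.ne') hq0.ne',
    Real.log_pow]
  push_cast
  ring

end Pool.Agent.H36.SB
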