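import Pool.Agent.H36.SB.Lim3
import Pool.Agent.H36.SB.J3
import Pool.Agent.H36.SB.Four3
import Pool.Agent.H36.SB.Conc

/-!
# The evolution inequality

PROOF. Write `m = mx b x`, `om = ox b x`, `E = exp (Lg s (sx b x)) >= 1 + s`, `L, LJ` for `Lg s` of
`sx b x`, `gJ x`, `del1 = x^4 - m >= 0` (`mx_le`), `del2 = 1 + 4 x^4 + x^8 - M4 (sx b x)`.
`A1 (gJ x) (kJ x) = 2 x^4` (`J_k`), `A2 = 4 x^4 + 2 x^8`, `M2 = 1 + x^4`, `M4 = 1 + 4 x^4 + x^8`.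
By `core3S`, `J_Ig` and `psi_tangent` (`psi L - psi LJ >= (E/(E-1)) (L - LJ)`):
`X := dX s (sx b x) (sd b x) - dX s (gJ x) (kJ x) = 2 (Ig - IgJ) - 2 (A1 - 2 x^4)/s +
(A2 - 4 x^4 - 2 x^8)/s^2 >= 4 (E/(E-1)) (L - LJ) - 4 om/((E-1) s^2) + 4 del1/s +
(4 del1 - 2 del2)/s^2`. And `Y := dS s (sx b x) - dS s (gJ x) = -(1/s) [(L - LJ) + del1/s -
del2/(2 s^2)]`. With `c = 4 E s/(E-1)`: `X + c Y >= (2/((E-1) s^2)) [- 2 om + 2 del1 (E-1-s) +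
del2] >= 0` because `E - 1 - s >= 0` and `del2 >= 2 om` (`del_ox`). The statement has the factor
`1/x`: use `c / x`.
-/

open Complex MeasureTheory Set Filter Topology
open scoped ComplexConjugate Real

namespace Pool.Agent.H36.SB

open Pool.Agent.H97.SIM Pool.Agent.H15.Sig

variable {F : ℂ → ℂ} {b : ℕ → ℂ}

private theorem alge_alg {s E L LJ ps m om d1 d2 I A1 A2 M4 : ℝ} {y : ℝ} (hs : 0 < s)
    (hE : 1 + s ≤ E) (hd1 : d1 = y - m) (hd1n : 0 ≤ d1)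
    (hd2 : d2 = 1 + 4 * y + y ^ 2 - M4) (ho : 2 * om ≤ d2)
    (hps : E / (E - 1) * (L - LJ) ≤ ps)
    (hI : 2 * ps - 2 * om / ((E - 1) * s ^ 2) + (A1 - 2 * m) / s -
      (A2 - 2 * (M4 - 1 - 2 * m)) / (2 * s ^ 2) ≤ I) :
    0 ≤ (2 * I - 2 * A1 / s + A2 / s ^ 2 + 2 * (2 * y) / s - (4 * y + 2 * y ^ 2) / s ^ 2) +
      (4 * E * s / (E - 1)) * (-(1 / s) * ((L - LJ) + d1 / s - d2 / (2 * s ^ 2))) := by
  have hE1 : 0 < E - 1 := by linarith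
  have h1 : 2 * (2 * (E / (E - 1) * (L - LJ)) - 2 * om / ((E - 1) * s ^ 2) + (A1 - 2 * m) / s -
      (A2 - 2 * (M4 - 1 - 2 * m)) / (2 * s ^ 2)) ≤ 2 * I := by linarith
  have h2 : 2 * (2 * (E / (E - 1) * (L - LJ)) - 2 * om / ((E - 1) * s ^ 2) + (A1 - 2 * m) / s -
      (A2 - 2 * (M4 - 1 - 2 * m)) / (2 * s ^ 2)) - 2 * A1 / s + A2 / s ^ 2 + 2 * (2 * y) / s -
      (4 * y + 2 * y ^ 2) / s ^ 2 +
      (4 * E * s / (E - 1)) * (-(1 / s) * ((L - LJ) + d1 / s - d2 / (2 * s ^ 2))) =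
      2 / ((E - 1) * s ^ 2) * ((d2 - 2 * om) + 2 * d1 * (E - 1 - s)) := by
    subst hd1
    subst hd2
    field_simp
    ring
  have h3 : 0 ≤ 2 / ((E - 1) * s ^ 2) * ((d2 - 2 * om) + 2 * d1 * (E - 1 - s)) := by
    have h4 : 0 ≤ 2 * d1 * (E - 1 - s) := mul_nonneg (by linarith) (by linarith)
    have h5 : 0 ≤ 2 / ((E - 1) * s ^ 2) := by positivity
    exact mul_nonneg h5 (by linarith)
  linarith

theorem evo3 (h : IsSig F b) {x s : ℝ} (hx0 : 0 < x) (hx : x < 1) (hs : 0 < s) :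
    ∃ c : ℝ, 0 ≤ (1 / x) * (dX s (sx b x) (sd b x) - dX s (gJ x) (kJ x)) +
      c * (dS s (sx b x) - dS s (gJ x)) := by
  obtain ⟨hE, hcore⟩ := core3S h hx0 hx hs
  obtain ⟨hEJ, hIJ⟩ := J_Ig hx0 hx.le hs
  have hL : 0 < Lg s (sx b x) := Real.one_lt_exp_iff.1 (by linarith)
  have hLJ : 0 < Lg s (gJ x) := Real.one_lt_exp_iff.1 hEJ
  have hps := psi_tangent hL hLJ
  have hmx := mx_le h hx0 hx
  have hdo := del_ox h hx0 hx
  have hM2 : M2 (sx b x) = 1 + mx b x := M2_sx h hx0 hx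
  have hJ2 : M2 (gJ x) = 1 + x ^ 4 := J_sq x
  have hJ1 : A1 (gJ x) (kJ x) = 2 * x ^ 4 := J_k x
  have hJ4 := J_M4 x
  have hJA := J_A2 x
  have hlog : Real.log ((Real.exp (Lg s (sx b x)) - 1) / s) -
      Real.log ((Real.exp (Lg s (gJ x)) - 1) / s) =
      Real.log (Real.exp (Lg s (sx b x)) - 1) - Real.log (Real.exp (Lg s (gJ x)) - 1) := by
    rw [Real.log_div (by linarith) hs.ne', Real.log_div (by linarith) hs.ne']
    ring
  have key := alge_alg (s := s) (E := Real.exp (Lg s (sx b x))) (L := Lg s (sx b x))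
    (LJ := Lg s (gJ x))
    (ps := Real.log (Real.exp (Lg s (sx b x)) - 1) - Real.log (Real.exp (Lg s (gJ x)) - 1))
    (m := mx b x) (om := ox b x) (d1 := x ^ 4 - mx b x)
    (d2 := 1 + 4 * x ^ 4 + (x ^ 4) ^ 2 - M4 (sx b x))
    (I := Ig s (sx b x) (sd b x) - 2 * Real.log ((Real.exp (Lg s (gJ x)) - 1) / s))
    (A1 := A1 (sx b x) (sd b x)) (A2 := A2 (sx b x) (sd b x)) (M4 := M4 (sx b x)) (y := x ^ 4)
    hs hE rfl (by linarith) rfl (by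
      have : (x ^ 4) ^ 2 = x ^ 8 := by ring
      rw [this]
      exact hdo) hps (by linarith)
  refine ⟨(4 * Real.exp (Lg s (sx b x)) * s / (Real.exp (Lg s (sx b x)) - 1)) / x, ?_⟩
  have hfin := mul_nonneg (show (0:ℝ) ≤ 1 / x by positivity) key
  refine le_of_le_of_eq hfin ?_
  unfold dX dS
  rw [hM2, hJ2, hJ1, hJ4, hJA, hIJ]
  ring

end Pool.Agent.H36.SB
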