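import Pool.Agent.H36.SB.Defs
import Pool.Agent.H97.SIM.Av

/-!
# Means of analytic functions over the circle

`g` is analytic on an open set `U` containing the closed unit disc.

PROOF of `av_orth`: on the circle `conj (p (e t)) = sum_(j<n) conj p_j (e t)^(-j)`, so
`conj p * z^n g = q * g` with the polynomial `q = sum_(j<n) conj p_j X^(n-j)` (or
`q = reflect n (conj p)`), `q 0 = 0`; `av_re` gives `Re (q 0 * g 0) = 0`. (If `n = 0`, `p = 0`.)
`av_bessel`: with `G0 = g 0`, `G1 = deriv g 0`: `0 <= av |g - G0 - G1 z|^2 = av |g|^2 - |G0|^2 -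
|G1|^2`: expand; `av Re (conj G0 g) = |G0|^2` (`av_re`), `av Re (conj (G1 z) g) = |G1|^2` because on
the circle `conj z * g = conj z * G0 + dslope g 0 z` (`conj z = 1/z`), `dslope g 0` is analytic on
`U` (`DifferentiableOn` of `dslope`: `Complex.differentiableOn_dslope`), value at `0` is
`deriv g 0`, and `av Re (c * conj z) = 0`, `av Re (c * z) = 0` (`av_re`; for `conj` take the
conjugate). `av_bessel0` follows (the term `|G1|^2` is `>= 0`).
-/

open Complex MeasureTheory Set Filter Topology Polynomial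
open scoped ComplexConjugate Real

namespace Pool.Agent.H36.SB

open Pool.Agent.H97.SIM

variable {U : Set ℂ} {g : ℂ → ℂ}

private theorem e_mem (hs : Metric.closedBall (0:ℂ) 1 ⊆ U) (t : ℝ) : e t ∈ U := by
  apply hs
  rw [mem_closedBall_zero_iff, norm_e]

private theorem cont_comp (hs : Metric.closedBall (0:ℂ) 1 ⊆ U) (hg : DifferentiableOn ℂ g U) :
    Continuous fun t : ℝ => g (e t) :=
  hg.continuousOn.comp_continuous continuous_e (e_mem hs)

theorem av_orth (hU : IsOpen U) (hs : Metric.closedBall (0:ℂ) 1 ⊆ U)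
    (hg : DifferentiableOn ℂ g U) {p : ℂ[X]} {n : ℕ} (hp : ∀ j, n ≤ j → p.coeff j = 0) :
    av (fun t => (conj (p.eval (e t)) * (e t ^ n * g (e t))).re) = 0 := by
  have hE : ∀ z : ℂ, p.eval z = ∑ j ∈ Finset.range n, p.coeff j * z ^ j := by
    intro z
    by_cases h0 : p = 0
    · simp [h0]
    · have hd : p.natDegree < n := by
        rw [Polynomial.natDegree_lt_iff_degree_lt h0]
        exact (Polynomial.degree_lt_iff_coeff_zero p n).2 hp
      exact Polynomial.eval_eq_sum_range' hd z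
  have hQ : DifferentiableOn ℂ
      (fun z : ℂ => (∑ j ∈ Finset.range n, conj (p.coeff j) * z ^ (n - j)) * g z) U := by
    refine DifferentiableOn.mul ?_ hg
    fun_prop
  have h1 := av_re hU hs hQ
  have h2 : (∑ j ∈ Finset.range n, conj (p.coeff j) * (0:ℂ) ^ (n - j)) = 0 := by
    refine Finset.sum_eq_zero fun j hj => ?_
    have hj' : j < n := Finset.mem_range.1 hj
    rw [zero_pow (by omega), mul_zero]
  simp only [h2, zero_mul, Complex.zero_re] at h1
  rw [← h1]
  refine av_congr fun t => ?_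
  congr 1
  rw [hE, map_sum, ← mul_assoc, Finset.sum_mul]
  congr 1
  refine Finset.sum_congr rfl fun j hj => ?_
  have hj' : j < n := Finset.mem_range.1 hj
  have hne : e t ≠ 0 := by
    intro h
    have := norm_e t
    rw [h, norm_zero] at this
    exact zero_ne_one this
  rw [map_mul, map_pow, conj_e, mul_assoc]
  congr 1
  rw [inv_pow, inv_mul_eq_div, div_eq_iff (pow_ne_zero _ hne), ← pow_add]
  congr 1
  omega

private theorem aux0 (hU : IsOpen U) (hs : Metric.closedBall (0:ℂ) 1 ⊆ U)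
    (hg : DifferentiableOn ℂ g U) : ‖g 0‖ ^ 2 ≤ av (fun t => ‖g (e t)‖ ^ 2) := by
  have hc := cont_comp hs hg
  have h1 : av (fun t => ((fun z : ℂ => conj (g 0) * g z) (e t)).re)
      = ((fun z : ℂ => conj (g 0) * g z) 0).re := av_re hU hs (hg.const_mul _)
  have h2 : (conj (g 0) * g 0).re = ‖g 0‖ ^ 2 := by
    rw [mul_comm, Complex.mul_conj, Complex.ofReal_re, Complex.normSq_eq_norm_sq]
  have hk : Continuous fun t : ℝ => (conj (g 0) * g (e t)).re :=
    Complex.continuous_re.comp (continuous_const.mul hc)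
  have h3 : 0 ≤ av (fun t => ‖g (e t)‖ ^ 2 - 2 * (conj (g 0) * g (e t)).re + ‖g 0‖ ^ 2) := by
    refine av_nonneg fun t => ?_
    have h4 : ‖g (e t)‖ ^ 2 - 2 * (conj (g 0) * g (e t)).re + ‖g 0‖ ^ 2
        = ‖g (e t) - g 0‖ ^ 2 := by
      rw [← Complex.normSq_eq_norm_sq, ← Complex.normSq_eq_norm_sq, ← Complex.normSq_eq_norm_sq,
        Complex.normSq_sub, mul_comm (conj (g 0)) (g (e t))]
      ring
    rw [h4]
    positivity
  have c1 : Continuous fun t : ℝ => ‖g (e t)‖ ^ 2 := hc.norm.pow 2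
  have c2 : Continuous fun t : ℝ => 2 * (conj (g 0) * g (e t)).re := continuous_const.mul hk
  have c3 : Continuous fun t : ℝ => ‖g (e t)‖ ^ 2 - 2 * (conj (g 0) * g (e t)).re := c1.sub c2
  have c4 : Continuous fun _ : ℝ => ‖g 0‖ ^ 2 := continuous_const
  rw [av_add c3 c4, av_sub c1 c2, av_const, av_mul_const] at h3
  simp only [h2] at h1
  rw [h1] at h3
  linarith

theorem av_bessel (hU : IsOpen U) (hs : Metric.closedBall (0:ℂ) 1 ⊆ U)
    (hg : DifferentiableOn ℂ g U) :
    ‖g 0‖ ^ 2 + ‖deriv g 0‖ ^ 2 ≤ av (fun t => ‖g (e t)‖ ^ 2) := by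
  have h0 : (0:ℂ) ∈ U := hs (by simp)
  have hq : DifferentiableOn ℂ (dslope g 0) U :=
    (Complex.differentiableOn_dslope (hU.mem_nhds h0)).2 hg
  have hb := aux0 hU hs hq
  rw [dslope_same] at hb
  have hc := cont_comp hs hq
  have hf : DifferentiableOn ℂ (fun z : ℂ => conj (g 0) * (z * dslope g 0 z)) U :=
    (differentiableOn_id.mul hq).const_mul _
  have h1 := av_re hU hs hf
  simp only [zero_mul, mul_zero, Complex.zero_re] at h1
  have hcf : Continuous fun t : ℝ => (conj (g 0) * (e t * dslope g 0 (e t))).re :=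
    Complex.continuous_re.comp (continuous_const.mul (continuous_e.mul hc))
  have h2 : av (fun t => ‖g (e t)‖ ^ 2) = av (fun t => ‖g 0‖ ^ 2 +
      2 * (conj (g 0) * (e t * dslope g 0 (e t))).re + ‖dslope g 0 (e t)‖ ^ 2) := by
    refine av_congr fun t => ?_
    have h3 : g (e t) = g 0 + e t * dslope g 0 (e t) := by
      have h4 := sub_smul_dslope g 0 (e t)
      rw [sub_zero, smul_eq_mul] at h4
      rw [h4]
      ring
    have h5 : ‖dslope g 0 (e t)‖ ^ 2 = Complex.normSq (e t * dslope g 0 (e t)) := by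
      rw [Complex.normSq_eq_norm_sq, norm_mul, norm_e, one_mul]
    rw [h5, ← Complex.normSq_eq_norm_sq, ← Complex.normSq_eq_norm_sq]
    have h6 : (conj (g 0) * (e t * dslope g 0 (e t))).re
        = (g 0 * conj (e t * dslope g 0 (e t))).re := by
      rw [← Complex.conj_re, map_mul, Complex.conj_conj]
    rw [h6]
    conv_lhs => rw [h3]
    rw [Complex.normSq_add]
    ring
  have c1 : Continuous fun t : ℝ => ‖dslope g 0 (e t)‖ ^ 2 := hc.norm.pow 2
  have c2 : Continuous fun t : ℝ => 2 * (conj (g 0) * (e t * dslope g 0 (e t))).re :=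
    continuous_const.mul hcf
  have c4 : Continuous fun _ : ℝ => ‖g 0‖ ^ 2 := continuous_const
  have c3 : Continuous fun t : ℝ =>
      ‖g 0‖ ^ 2 + 2 * (conj (g 0) * (e t * dslope g 0 (e t))).re := c4.add c2
  rw [h2, av_add c3 c1, av_add c4 c2, av_const, av_mul_const, h1]
  linarith

theorem av_bessel0 (hU : IsOpen U) (hs : Metric.closedBall (0:ℂ) 1 ⊆ U)
    (hg : DifferentiableOn ℂ g U) : ‖g 0‖ ^ 2 ≤ av (fun t => ‖g (e t)‖ ^ 2) :=
  aux0 hU hs hg

end Pool.Agent.H36.SB
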