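import Pool.Agent.H97.SIM.LimB
import Pool.Agent.H97.SIM.Mom

/-!
# Sharp integral means for the class Sigma, 4 <= lambda <= 6: definitions

Paper proof (helper36), continuing `Pool.Agent.H97.SIM` (helper97, 2 <= lambda <= 4); the notation
`e`, `av`, `l1`, `Lg`, `Ig`, `pe`, `pd`, `Pair`, `S`, `sx`, `sd`, `mx`, `gJ`, `kJ` is from
`H97/SIM/Defs.lean`. `|h|^2 = |f|^2 + s` on the circle, `E = exp (Lg s f)`.

* `k3 y = log (1 + y) - y + y^2/2`, `phi3' y = l1 y - 1 + y/2`, so `y phi3' y = k3 y`,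
* `M2, M4` second and fourth moment, `A1 = av Re (conj g k)`, `A2 = av |g|^2 Re (conj g k)`,
* `Stp`: one Schur step, `Sch`: the structure after `n` Schur steps,
* `tt f N n = sum_(n<=j<N) |f_j|^2`, `cc f N n k = sum_(j<N, n<=j+k) f_(j+k) conj f_j`,
  `mm f N n = sum_(1<=k<N) |cc f N n k|^2`,
* `ox = mx - |b_1|^2 x^4 = sum_(n>=2) |b_n|^2 x^(2n+2)`.
-/

open Complex MeasureTheory Polynomial
open scoped ComplexConjugate Real

namespace Pool.Agent.H36.SB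

open Pool.Agent.H97.SIM

/-- `log (1 + y) - y + y^2/2` -/
noncomputable def k3 (y : ℝ) : ℝ := Real.log (1 + y) - y + y ^ 2 / 2

/-- the function with `y * phi3' y = k3 y`, `phi3 0 = 0` -/
noncomputable def phi3 (y : ℝ) : ℝ := ∫ v in (0:ℝ)..y, (l1 v - 1 + v / 2)

/-- `av |g|^2` -/
noncomputable def M2 (g : ℝ → ℂ) : ℝ := av fun t => ‖g t‖ ^ 2

/-- `av |g|^4` -/
noncomputable def M4 (g : ℝ → ℂ) : ℝ := av fun t => ‖g t‖ ^ 4

/-- `av Re (conj g * k)` -/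
noncomputable def A1 (g k : ℝ → ℂ) : ℝ := av fun t => (conj (g t) * k t).re

/-- `av [|g|^2 Re (conj g * k)]` -/
noncomputable def A2 (g k : ℝ → ℂ) : ℝ := av fun t => ‖g t‖ ^ 2 * (conj (g t) * k t).re

/-- `sum_(n>=2) |b_n|^2 x^(2n+2)` -/
noncomputable def ox (b : ℕ → ℂ) (x : ℝ) : ℝ := mx b x - ‖b 1‖ ^ 2 * x ^ 4

/-- one Schur step from the pair `(f, h)` to the pair `(f1, h1)` -/
structure Stp (s : ℝ) (f h : ℂ[X]) (w : ℂ) (T : ℝ) (f1 h1 : ℂ[X]) : Prop where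
  nw : ‖w‖ = 1
  pair : Pair s f1 h1
  ef : X * f1 = C (Real.cosh T : ℂ) * f - C ((Real.sinh T : ℂ) * w) * h
  eh : h1 = C ((Real.cosh T : ℂ) * w) * h - C (Real.sinh T : ℂ) * f
  deg : f1.natDegree ≤ f.natDegree - 1
  cf : ∀ j, ‖f1.coeff j‖ ^ 2 - ‖h1.coeff (j + 1)‖ ^ 2 =
    ‖f.coeff (j + 1)‖ ^ 2 - ‖h.coeff (j + 1)‖ ^ 2
  c0 : ‖h1.coeff 0‖ ^ 2 = ‖h.coeff 0‖ ^ 2 - ‖f.coeff 0‖ ^ 2
  ig : Ig s (pe f) (pd f) = Real.log (‖h1.coeff 0‖ ^ 2 / s) + Ig s (pe f1) (pd f1)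

/-- the structure after `n` Schur steps -/
structure Sch (s : ℝ) (f h : ℂ[X]) (n : ℕ) (a b fn hn : ℂ[X]) : Prop where
  pair : Pair s fn hn
  eq1 : a * f - b * h = X ^ n * fn
  dega : a.natDegree ≤ n
  degb : ∀ j, n ≤ j → b.coeff j = 0
  eq2 : ∃ w : ℂ, ‖w‖ = 1 ∧ ∀ t : ℝ, hn.eval (e t) =
    w * (conj (a.eval (e t)) * h.eval (e t) - conj (b.eval (e t)) * f.eval (e t))
  det : ∀ t : ℝ, ‖a.eval (e t)‖ ^ 2 - ‖b.eval (e t)‖ ^ 2 = 1
  lead : ‖a.coeff 0‖ * ‖hn.coeff 0‖ = ‖h.coeff 0‖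
  deg : fn.natDegree ≤ f.natDegree - n

/-- `sum of |f_j|^2 over n <= j < N` -/
noncomputable def tt (f : ℂ[X]) (N n : ℕ) : ℝ :=
  ∑ j ∈ Finset.range N, if n ≤ j then ‖f.coeff j‖ ^ 2 else 0

/-- `sum of f_(j+k) conj f_j over j < N with n <= j + k` -/
noncomputable def cc (f : ℂ[X]) (N n k : ℕ) : ℂ :=
  ∑ j ∈ Finset.range N, if n ≤ j + k then f.coeff (j + k) * conj (f.coeff j) else 0

/-- `sum of |cc f N n k|^2 over 1 <= k < N` -/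
noncomputable def mm (f : ℂ[X]) (N n : ℕ) : ℝ := ∑ k ∈ Finset.Ico 1 N, ‖cc f N n k‖ ^ 2

/-- the sum over quadruples `p + u = q + r` with a weight -/
noncomputable def QS (f : ℂ[X]) (N : ℕ) (w : ℕ → ℕ → ℕ → ℕ → ℝ) : ℝ :=
  ∑ p ∈ Finset.range N, ∑ q ∈ Finset.range N, ∑ r ∈ Finset.range N, ∑ u ∈ Finset.range N,
    if p + u = q + r then w p q r u *
      (conj (f.coeff p) * f.coeff q * f.coeff r * conj (f.coeff u)).re else 0

/-- the bound for the difference of the first two logarithms; `R = 1 / E`,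
`R' = 1 - exp (-δ) (1 - R)`: `KB = 2 ((E - 1) / s) (R R' om / (s (1 - sqrt (R R'))^2))` -/
noncomputable def KB (s E δ om : ℝ) : ℝ :=
  2 * ((E - 1) / s) * ((1 / E) * (1 - Real.exp (-δ) * (1 - 1 / E)) * om /
    (s * (1 - Real.sqrt ((1 / E) * (1 - Real.exp (-δ) * (1 - 1 / E)))) ^ 2))

/-- `x` times the `x`-derivative of `av phi3 (|g|^2 / s)` -/
noncomputable def dX (s : ℝ) (g k : ℝ → ℂ) : ℝ := 2 * Ig s g k - 2 * A1 g k / s + A2 g k / s ^ 2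

/-- the `s`-derivative of `av phi3 (|g|^2 / s)` -/
noncomputable def dS (s : ℝ) (g : ℝ → ℂ) : ℝ :=
  -(1 / s) * (Lg s g - Real.log s - M2 g / s + M4 g / (2 * s ^ 2))

end Pool.Agent.H36.SB
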