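import Pool.Agent.H36.SB.GArea
import Pool.Agent.H36.SB.Defs

/-!
# Two weighted area inequalities

PROOF. `W1`: `garea` with `Ps y = l1 (y/s) / s`, `Ps' y = deriv l1 (y/s) / s^2`;
`Ps y + y Ps' y = 1 / (s + y) >= 0` (`l1_ode`). `Ps (|S|^2) |S|^2 = log (1 + |S|^2/s) =
log (|S|^2 + s) - log s` (`l1_mul`), and `Ps (|S|^2) Re (conj S u S')` is the integrand of `Ig`.
`W2`: `Ps y = l1 (y/s) / s - 1/s + y / (2 s^2)`; `Ps y + y Ps' y = 1/(s+y) - 1/s + y/s^2 =
y^2 / (s^2 (s + y)) >= 0`; the additional terms are `-(1/s) (|S|^2 - Re) + (1/(2 s^2)) (|S|^4 -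
|S|^2 Re)`. (`sx_continuous`, `sd_continuous`, `av_add`, `av_sub`, `av_mul_const`.)
-/

open Complex MeasureTheory Set Filter Topology
open scoped ComplexConjugate Real

namespace Pool.Agent.H36.SB

open Pool.Agent.H97.SIM Pool.Agent.H15.Sig

variable {F : ℂ → ℂ} {b : ℕ → ℂ}

private theorem al_mem {s y : ℝ} (hs : 0 < s) (hy : 0 ≤ y) : (-1 : ℝ) < y / s :=
  lt_of_lt_of_le (by norm_num) (div_nonneg hy hs.le)

private theorem al_der {s : ℝ} (hs : 0 < s) (y : ℝ) (hy : 0 ≤ y) :
    HasDerivAt (fun y : ℝ => l1 (y / s) / s) (deriv l1 (y / s) / s ^ 2) y := by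
  have h1 : HasDerivAt (fun y : ℝ => y / s) (1 / s) y := (hasDerivAt_id y).div_const s
  have h2 := ((l1_hasDerivAt (al_mem hs hy)).comp y h1).div_const s
  refine h2.congr_deriv ?_
  field_simp

private theorem al_cont {s : ℝ} (hs : 0 < s) :
    ContinuousOn (fun y : ℝ => deriv l1 (y / s) / s ^ 2) (Ici 0) := by
  have h1 : ContinuousOn (fun y : ℝ => deriv l1 (y / s)) (Ici 0) :=
    l1_deriv_contOn.comp (by fun_prop) (fun y hy => al_mem hs hy)
  exact h1.div_const _

private theorem al_ode {s y : ℝ} (hs : 0 < s) (hy : 0 ≤ y) :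
    l1 (y / s) / s + y * (deriv l1 (y / s) / s ^ 2) = 1 / (s + y) := by
  have h1 := l1_ode (al_mem hs hy)
  have h2 : 1 / (1 + y / s) = s / (s + y) := by
    field_simp
  rw [h2] at h1
  have h3 : l1 (y / s) = s / (s + y) - y / s * deriv l1 (y / s) := by linarith
  rw [h3]
  have h4 : s + y ≠ 0 := by positivity
  field_simp
  ring

private theorem al_log {s y : ℝ} (hs : 0 < s) (hy : 0 ≤ y) :
    l1 (y / s) / s * y = Real.log (y + s) - Real.log s := by
  have h1 := l1_mul (y / s)
  have h2 : l1 (y / s) / s * y = y / s * l1 (y / s) := by ring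
  rw [h2, h1, ← Real.log_div (by positivity) hs.ne']
  congr 1
  field_simp
  ring

private theorem al_cl {s : ℝ} (hs : 0 < s) {g : ℝ → ℂ} (hg : Continuous g) :
    Continuous fun t => l1 (‖g t‖ ^ 2 / s) := by
  refine l1_contOn.comp_continuous (by fun_prop) ?_
  intro t
  exact al_mem hs (by positivity)

theorem W1 (h : IsSig F b) {x s : ℝ} (hx0 : 0 < x) (hx : x < 1) (hs : 0 < s) :
    Ig s (sx b x) (sd b x) ≤ Lg s (sx b x) - Real.log s := by
  have h1 := garea h (Ps := fun y => l1 (y / s) / s) (Ps' := fun y => deriv l1 (y / s) / s ^ 2)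
    (al_der hs) (al_cont hs) (fun y hy => by
      rw [al_ode hs hy]
      positivity) hx0 hx
  have cS := sx_continuous h hx0 hx
  have cD := sd_continuous h hx0 hx
  have cl := al_cl hs cS
  have c1 : Continuous fun t => Real.log (‖sx b x t‖ ^ 2 + s) :=
    ((cS.norm.pow 2).add continuous_const).log
      (fun t => (add_pos_of_nonneg_of_pos (sq_nonneg _) hs).ne')
  have c1' : Continuous fun t => Real.log (‖sx b x t‖ ^ 2 + s) - Real.log s :=
    c1.sub continuous_const
  have c2 : Continuous fun t => l1 (‖sx b x t‖ ^ 2 / s) / s * (conj (sx b x t) * sd b x t).re := by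
    refine (cl.div_const s).mul ?_
    exact continuous_re.comp ((continuous_conj.comp cS).mul cD)
  have e1 : av (fun t => l1 (‖sx b x t‖ ^ 2 / s) / s *
      (‖sx b x t‖ ^ 2 - (conj (sx b x t) * sd b x t).re)) =
      av (fun t => (Real.log (‖sx b x t‖ ^ 2 + s) - Real.log s) -
        l1 (‖sx b x t‖ ^ 2 / s) / s * (conj (sx b x t) * sd b x t).re) := by
    refine av_congr fun t => ?_
    rw [mul_sub, al_log hs (by positivity)]
  rw [e1, av_sub c1' c2, av_sub c1 continuous_const, av_const] at h1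
  have e2 : av (fun t => Real.log (‖sx b x t‖ ^ 2 + s)) = Lg s (sx b x) := rfl
  have e3 : av (fun t => l1 (‖sx b x t‖ ^ 2 / s) / s * (conj (sx b x t) * sd b x t).re) =
    Ig s (sx b x) (sd b x) := rfl
  rw [e2, e3] at h1
  linarith

theorem W2 (h : IsSig F b) {x s : ℝ} (hx0 : 0 < x) (hx : x < 1) (hs : 0 < s) :
    (M2 (sx b x) - A1 (sx b x) (sd b x)) / s -
      (M4 (sx b x) - A2 (sx b x) (sd b x)) / (2 * s ^ 2) ≤
      Lg s (sx b x) - Real.log s - Ig s (sx b x) (sd b x) := by
  have h1 := garea h (Ps := fun y => l1 (y / s) / s - 1 / s + y / (2 * s ^ 2))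
    (Ps' := fun y => deriv l1 (y / s) / s ^ 2 + 1 / (2 * s ^ 2))
    (fun y hy => by
      have h1 := ((al_der hs y hy).sub_const (1 / s)).add
        ((hasDerivAt_id y).div_const (2 * s ^ 2))
      exact h1)
    ((al_cont hs).add continuousOn_const) (fun y hy => by
      have h2 := al_ode hs hy
      have h3 : (l1 (y / s) / s - 1 / s + y / (2 * s ^ 2)) +
          y * (deriv l1 (y / s) / s ^ 2 + 1 / (2 * s ^ 2)) = y ^ 2 / (s ^ 2 * (s + y)) := by
        have h4 : (l1 (y / s) / s - 1 / s + y / (2 * s ^ 2)) +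
          y * (deriv l1 (y / s) / s ^ 2 + 1 / (2 * s ^ 2)) =
          (l1 (y / s) / s + y * (deriv l1 (y / s) / s ^ 2)) - 1 / s + y / s ^ 2 := by
          field_simp
          ring
        rw [h4, h2]
        have h5 : s + y ≠ 0 := by positivity
        field_simp
        ring
      rw [h3]
      positivity) hx0 hx
  have cS := sx_continuous h hx0 hx
  have cD := sd_continuous h hx0 hx
  have cl := al_cl hs cS
  have cR : Continuous fun t => (conj (sx b x t) * sd b x t).re :=
    continuous_re.comp ((continuous_conj.comp cS).mul cD)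
  have c1 : Continuous fun t => Real.log (‖sx b x t‖ ^ 2 + s) :=
    ((cS.norm.pow 2).add continuous_const).log
      (fun t => (add_pos_of_nonneg_of_pos (sq_nonneg _) hs).ne')
  have c1' : Continuous fun t => Real.log (‖sx b x t‖ ^ 2 + s) - Real.log s :=
    c1.sub continuous_const
  have c2 : Continuous fun t => l1 (‖sx b x t‖ ^ 2 / s) / s * (conj (sx b x t) * sd b x t).re :=
    (cl.div_const s).mul cR
  have c3 : Continuous fun t => ‖sx b x t‖ ^ 2 := by fun_prop
  have c4 : Continuous fun t => ‖sx b x t‖ ^ 4 := by fun_prop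
  have c5 : Continuous fun t => ‖sx b x t‖ ^ 2 * (conj (sx b x t) * sd b x t).re := c3.mul cR
  have e1 : av (fun t => (l1 (‖sx b x t‖ ^ 2 / s) / s - 1 / s + ‖sx b x t‖ ^ 2 / (2 * s ^ 2)) *
      (‖sx b x t‖ ^ 2 - (conj (sx b x t) * sd b x t).re)) =
      av (fun t => ((((Real.log (‖sx b x t‖ ^ 2 + s) - Real.log s) -
        l1 (‖sx b x t‖ ^ 2 / s) / s * (conj (sx b x t) * sd b x t).re) -
        (1 / s) * ‖sx b x t‖ ^ 2) + (1 / s) * (conj (sx b x t) * sd b x t).re) +
        ((1 / (2 * s ^ 2)) * ‖sx b x t‖ ^ 4 -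
        (1 / (2 * s ^ 2)) * (‖sx b x t‖ ^ 2 * (conj (sx b x t) * sd b x t).re))) := by
    refine av_congr fun t => ?_
    have h2 := al_log hs (show 0 ≤ ‖sx b x t‖ ^ 2 by positivity)
    rw [← h2]
    field_simp
    ring
  rw [e1, av_add, av_add, av_sub, av_sub c1' c2, av_sub c1 continuous_const,
    av_const, av_mul_const, av_mul_const, av_sub, av_mul_const, av_mul_const] at h1
  · have e2 : av (fun t => Real.log (‖sx b x t‖ ^ 2 + s)) = Lg s (sx b x) := rfl
    have e3 : av (fun t => l1 (‖sx b x t‖ ^ 2 / s) / s * (conj (sx b x t) * sd b x t).re) =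
      Ig s (sx b x) (sd b x) := rfl
    rw [e2, e3] at h1
    have e4 : (M2 (sx b x) - A1 (sx b x) (sd b x)) / s -
      (M4 (sx b x) - A2 (sx b x) (sd b x)) / (2 * s ^ 2) = (1 / s) * M2 (sx b x) -
      (1 / s) * A1 (sx b x) (sd b x) - ((1 / (2 * s ^ 2)) * M4 (sx b x) -
      (1 / (2 * s ^ 2)) * A2 (sx b x) (sd b x)) := by
      field_simp
    rw [e4]
    unfold M2 M4 A1 A2
    linarith
  all_goals fun_prop

end Pool.Agent.H36.SB
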