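import Pool.Agent.H36.SB.Lim3
import Pool.Agent.H36.SB.J3
import Pool.Agent.H36.SB.Four3
import Pool.Agent.H36.SB.Conc

/-!
# The comparison at radius one for `k3`

PROOF. `av_k3`: `log (1 + y) = log (|g|^2 + s) - log s` for `y = |g|^2/s`, linearity.
`base_k3`: `m = mx b x`, `L = Lg s (sx b x)`, `E = exp L >= 1 + s`, `om = ox b x`,
`LJ = Lg s (gJ 1)`. Add `core3S` and `W2` (`M2 = 1 + m`):
`L - log s >= 2 log ((E-1)/s) - 2 om/((E-1) s^2) + (1 - m)/s + (M4 - 2 - 4 m)/(2 s^2)`. So with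
`chi L = 2 log (E-1) - L` and `Wd = 2 + 4 m - M4 >= 0` (`M4_le`):
`chi L <= log s + 2 om/((E-1) s^2) - (1-m)/s + Wd/(2 s^2)`; `chi LJ = log s` (`J_one`);
`chi_tangent`: `((E+1)/(E-1)) (L - LJ) <= 2 om/((E-1) s^2) - (1-m)/s + Wd/(2 s^2)`. Hence
`L - LJ <= [2 om/s^2 - (E-1)(1-m)/s + (E-1) Wd/(2 s^2)] / (E+1)`. TARGET (by `av_k3`, `J_sq`,
`J_M4`: `M2 = 2`, `M4 = 6` for `gJ 1`): `L - LJ <= -(1-m)/s + (6 - M4)/(2 s^2)`,
`6 - M4 = Wd + 4 (1-m)`. Multiply by `(E+1) s^2`: it suffices that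
`2 om <= Wd + 2 (1-m) (E + 1 - s)`, which holds by `om <= 1 - m` (`ox_le`), `Wd >= 0`,
`E + 1 - s >= 2`, `1 - m >= 0`.
-/

open Complex MeasureTheory Set Filter Topology
open scoped ComplexConjugate Real

namespace Pool.Agent.H36.SB

open Pool.Agent.H97.SIM Pool.Agent.H15.Sig

variable {F : ℂ → ℂ} {b : ℕ → ℂ}

theorem av_k3 {s : ℝ} (hs : 0 < s) {g : ℝ → ℂ} (hg : Continuous g) :
    av (fun t => k3 (‖g t‖ ^ 2 / s)) =
      Lg s g - Real.log s - M2 g / s + M4 g / (2 * s ^ 2) := by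
  have hpos : ∀ t, 0 < ‖g t‖ ^ 2 + s := fun t => by positivity
  have h1 : ∀ t, k3 (‖g t‖ ^ 2 / s) =
      ((Real.log (‖g t‖ ^ 2 + s) - Real.log s) - s⁻¹ * ‖g t‖ ^ 2) +
        (2 * s ^ 2)⁻¹ * ‖g t‖ ^ 4 := by
    intro t
    have h2 : 1 + ‖g t‖ ^ 2 / s = (‖g t‖ ^ 2 + s) / s := by
      field_simp
      ring
    rw [k3, h2, Real.log_div (hpos t).ne' hs.ne']
    field_simp
  have c1 : Continuous (fun t => s⁻¹ * ‖g t‖ ^ 2) := by fun_prop
  have c4 : Continuous (fun t => (2 * s ^ 2)⁻¹ * ‖g t‖ ^ 4) := by fun_prop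
  have c2 : Continuous (fun t => Real.log (‖g t‖ ^ 2 + s)) :=
    Continuous.log (by fun_prop) fun t => (hpos t).ne'
  have c3 : Continuous (fun t => Real.log (‖g t‖ ^ 2 + s) - Real.log s) := c2.sub continuous_const
  have c5 : Continuous (fun t => (Real.log (‖g t‖ ^ 2 + s) - Real.log s) - s⁻¹ * ‖g t‖ ^ 2) :=
    c3.sub c1
  rw [av_congr h1, av_add c5 c4, av_sub c3 c1, av_mul_const, av_mul_const,
    av_sub c2 continuous_const, av_const, Lg, M2, M4]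
  field_simp

theorem base_k3 (h : IsSig F b) {x s : ℝ} (hx0 : 0 < x) (hx : x < 1) (hs : 0 < s) :
    av (fun t => k3 (‖sx b x t‖ ^ 2 / s)) ≤ av (fun t => k3 (‖gJ 1 t‖ ^ 2 / s)) := by
  have cS := sx_continuous h hx0 hx
  rw [av_k3 hs cS, av_k3 hs (gJ_continuous 1)]
  have hM2 := M2_sx h hx0 hx
  have hJ2 : M2 (gJ 1) = 2 := by
    have h1 := J_sq 1
    rw [M2, h1]
    norm_num
  have hJ4 : M4 (gJ 1) = 6 := by
    rw [J_M4]
    norm_num
  obtain ⟨hE, hc⟩ := core3S h hx0 hx hs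
  have hw := W2 h hx0 hx hs
  have hJ1 := (J_Ig (x := 1) zero_lt_one le_rfl hs).1
  have hJc := J_one hs
  have hom0 := ox_nonneg h hx0 hx
  have hom := ox_le h hx0 hx
  have hM4 := M4_le h hx0 hx
  rw [hM2] at hw ⊢
  rw [hJ2, hJ4]
  have hL0 : 0 < Lg s (sx b x) := by
    rw [← Real.one_lt_exp_iff]
    linarith
  have hLJ0 : 0 < Lg s (gJ 1) := Real.one_lt_exp_iff.1 hJ1
  have ht := chi_tangent hL0 hLJ0
  rw [hJc] at ht
  have hE1 : 0 < Real.exp (Lg s (sx b x)) - 1 := by linarith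
  rw [Real.log_div hE1.ne' hs.ne'] at hc
  revert hc hw ht hE hM4 hE1 hom hom0
  generalize Real.exp (Lg s (sx b x)) = E
  generalize Lg s (sx b x) = L
  generalize Lg s (gJ 1) = LJ
  generalize M4 (sx b x) = M
  generalize ox b x = om
  generalize mx b x = m
  generalize A1 (sx b x) (sd b x) = a1
  generalize A2 (sx b x) (sd b x) = a2
  generalize Ig s (sx b x) (sd b x) = I0
  generalize Real.log s = ls
  generalize Real.log (E - 1) = lE
  intro hE hc hw hom0 hom hM4 ht hE1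
  have hm : 0 ≤ 1 - m := le_trans hom0 hom
  have hR : (E + 1) / (E - 1) * (L - LJ) ≤
      2 * om / ((E - 1) * s ^ 2) - (1 - m) / s + (2 + 4 * m - M) / (2 * s ^ 2) := by
    have e1 : (1 + m - a1) / s - (M - a2) / (2 * s ^ 2) + ((a1 - 2 * m) / s -
        (a2 - 2 * (M - 1 - 2 * m)) / (2 * s ^ 2)) =
        (1 - m) / s - (2 + 4 * m - M) / (2 * s ^ 2) := by
      field_simp
      ring
    linarith
  have hEp : 0 < E + 1 := by linarith
  have hR2 : L - LJ ≤ (E - 1) / (E + 1) *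
      (2 * om / ((E - 1) * s ^ 2) - (1 - m) / s + (2 + 4 * m - M) / (2 * s ^ 2)) := by
    have h1 := mul_le_mul_of_nonneg_left hR (div_pos hE1 hEp).le
    have h2 : (E - 1) / (E + 1) * ((E + 1) / (E - 1) * (L - LJ)) = L - LJ := by
      field_simp
    rw [h2] at h1
    exact h1
  have hT : (E - 1) / (E + 1) *
      (2 * om / ((E - 1) * s ^ 2) - (1 - m) / s + (2 + 4 * m - M) / (2 * s ^ 2)) ≤
      -(1 - m) / s + (6 - M) / (2 * s ^ 2) := by
    have e2 : -(1 - m) / s + (6 - M) / (2 * s ^ 2) - (E - 1) / (E + 1) *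
        (2 * om / ((E - 1) * s ^ 2) - (1 - m) / s + (2 + 4 * m - M) / (2 * s ^ 2)) =
        ((2 + 4 * m - M) + 2 * (1 - m) * (E + 1 - s) - 2 * om) / ((E + 1) * s ^ 2) := by
      have hE1' : E - 1 ≠ 0 := hE1.ne'
      field_simp
      ring
    have h3 : 0 ≤ (2 + 4 * m - M) + 2 * (1 - m) * (E + 1 - s) - 2 * om := by
      have h4 : 2 * (1 - m) * 2 ≤ 2 * (1 - m) * (E + 1 - s) :=
        mul_le_mul_of_nonneg_left (by linarith) (by linarith)
      linarith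
    have h5 : 0 ≤ ((2 + 4 * m - M) + 2 * (1 - m) * (E + 1 - s) - 2 * om) / ((E + 1) * s ^ 2) :=
      div_nonneg h3 (by positivity)
    linarith
  have e3 : L - ls - (1 + m) / s + M / (2 * s ^ 2) - (LJ - ls - 2 / s + 6 / (2 * s ^ 2)) =
      (L - LJ) - (-(1 - m) / s + (6 - M) / (2 * s ^ 2)) := by
    field_simp
    ring
  linarith

end Pool.Agent.H36.SB
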