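import Pool.Agent.H36.SB.Defs
import Pool.Agent.H97.SIM.Ell

/-!
# The function `phi3`

PROOF: copy `H97/SIM/Phi.lean` (the integrand there is `1 - l1 v`, here `l1 v - 1 + v/2`).
The integrand is continuous on `v > -1` (`l1_contOn`), so `HasDerivAt phi3` for `y >= 0`.
BOUNDS for `v >= 0`: `0 <= l1 v - 1 + v/2` (`one_sub_l1_le`), `l1 v - 1 + v/2 <= v/2` (`l1_le_one`),
`v/2 - 1 <= l1 v - 1 + v/2` (`l1_pos`), and `l1 v - 1 + v/2 <= v^2/3` because
`log (1 + v) <= v - v^2/2 + v^3/3` (derivative of the difference: `1 - v + v^2 - 1/(1+v) =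
v^3/(1+v) >= 0`). Integrate over `[0, y]`. STRICT positivity is not needed.
`phi3_eq`: substitute `v = y w`. `k3_eq`: `(w y) l1 (w y) = log (1 + w y)` (`l1_mul`).
-/

open Complex MeasureTheory Set Filter Topology
open scoped ComplexConjugate Real

namespace Pool.Agent.H36.SB

open Pool.Agent.H97.SIM

private lemma ig3_cont : ContinuousOn (fun v : ℝ => l1 v - 1 + v / 2) (Ioi (-1)) :=
  (l1_contOn.sub continuousOn_const).add (continuous_id.div_const 2).continuousOn

private lemma ig3_ii {a b : ℝ} (ha : 0 ≤ a) (hb : 0 ≤ b) :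
    IntervalIntegrable (fun v : ℝ => l1 v - 1 + v / 2) volume a b := by
  refine (ig3_cont.mono ?_).intervalIntegrable
  intro v hv
  rw [mem_uIcc] at hv
  rw [mem_Ioi]
  rcases hv with h | h <;> linarith [h.1]

theorem ig3_nonneg {v : ℝ} (hv : 0 ≤ v) : 0 ≤ l1 v - 1 + v / 2 := by
  linarith [one_sub_l1_le hv]

private lemma log_cube {v : ℝ} (hv : 0 ≤ v) :
    Real.log (1 + v) ≤ v - v ^ 2 / 2 + v ^ 3 / 3 := by
  have hmono : MonotoneOn (fun t : ℝ => t - t ^ 2 / 2 + t ^ 3 / 3 - Real.log (1 + t)) (Ici 0) := by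
    apply monotoneOn_of_deriv_nonneg (convex_Ici 0)
    · intro t ht
      rw [mem_Ici] at ht
      have h1 : ContinuousAt (fun t : ℝ => Real.log (1 + t)) t :=
        ContinuousAt.log (continuousAt_const.add continuousAt_id) (by
          show (1 : ℝ) + t ≠ 0
          linarith)
      exact (((continuous_id.sub ((continuous_pow 2).div_const 2)).add
        ((continuous_pow 3).div_const 3)).continuousAt.sub h1).continuousWithinAt
    · intro t ht
      rw [interior_Ici, mem_Ioi] at ht
      have h1 : HasDerivAt (fun t : ℝ => Real.log (1 + t)) (1 / (1 + t)) t :=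
        ((hasDerivAt_id t).const_add 1).log (by simp only [id]; linarith)
      exact (((((hasDerivAt_id t).sub ((hasDerivAt_pow 2 t).div_const 2)).add
        ((hasDerivAt_pow 3 t).div_const 3)).sub h1).differentiableAt).differentiableWithinAt
    · intro t ht
      rw [interior_Ici, mem_Ioi] at ht
      have h1 : HasDerivAt (fun t : ℝ => Real.log (1 + t)) (1 / (1 + t)) t :=
        ((hasDerivAt_id t).const_add 1).log (by simp only [id]; linarith)
      have h2 := ((((hasDerivAt_id t).sub ((hasDerivAt_pow 2 t).div_const 2)).add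
        ((hasDerivAt_pow 3 t).div_const 3)).sub h1)
      have h3 : deriv (fun t : ℝ => t - t ^ 2 / 2 + t ^ 3 / 3 - Real.log (1 + t)) t
          = 1 - (2 : ℕ) * t ^ (2 - 1) / 2 + (3 : ℕ) * t ^ (3 - 1) / 3 - 1 / (1 + t) := h2.deriv
      rw [h3]
      have h4 : (1 : ℝ) - (2 : ℕ) * t ^ (2 - 1) / 2 + (3 : ℕ) * t ^ (3 - 1) / 3 - 1 / (1 + t)
          = t ^ 3 / (1 + t) := by
        have : (1 : ℝ) + t ≠ 0 := by linarith
        field_simp
        push_cast
        ring
      rw [h4]
      positivity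
  have h := hmono (mem_Ici.2 (le_refl (0:ℝ))) (mem_Ici.2 hv) hv
  simp only [add_zero, Real.log_one] at h
  norm_num at h
  linarith

theorem ig3_le {v : ℝ} (hv : 0 ≤ v) : l1 v - 1 + v / 2 ≤ v ^ 2 / 3 := by
  rcases hv.eq_or_lt with h | h
  · rw [← h, l1_zero]; norm_num
  · rw [l1_of_ne h.ne']
    have h1 := log_cube hv
    have h2 : Real.log (1 + v) / v ≤ 1 - v / 2 + v ^ 2 / 3 := by
      rw [div_le_iff₀ h]
      nlinarith
    linarith

theorem phi3_zero : phi3 0 = 0 := by
  simp [phi3]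

theorem phi3_hasDerivAt {y : ℝ} (hy : 0 ≤ y) : HasDerivAt phi3 (l1 y - 1 + y / 2) y := by
  have hc : ContinuousOn (fun v : ℝ => l1 v - 1 + v / 2) (Ioi (-1)) := ig3_cont
  have hnhds : Ioi (-1 : ℝ) ∈ nhds y := isOpen_Ioi.mem_nhds (by rw [mem_Ioi]; linarith)
  refine intervalIntegral.integral_hasDerivAt_right (ig3_ii le_rfl hy) ?_ (hc.continuousAt hnhds)
  exact hc.stronglyMeasurableAtFilter isOpen_Ioi y (by rw [mem_Ioi]; linarith)

theorem phi3_contOn : ContinuousOn phi3 (Ici 0) := fun _ hy =>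
  (phi3_hasDerivAt hy).continuousAt.continuousWithinAt

private lemma phi3_sub {y z : ℝ} (hy : 0 ≤ y) (hz : 0 ≤ z) :
    phi3 z - phi3 y = ∫ v in y..z, (l1 v - 1 + v / 2) := by
  rw [phi3, phi3]
  exact intervalIntegral.integral_interval_sub_left (ig3_ii le_rfl hz) (ig3_ii le_rfl hy)

theorem phi3_mono {y z : ℝ} (hy : 0 ≤ y) (h : y ≤ z) : phi3 y ≤ phi3 z := by
  have h1 := phi3_sub hy (hy.trans h)
  have h2 : 0 ≤ ∫ v in y..z, (l1 v - 1 + v / 2) := by
    refine intervalIntegral.integral_nonneg h fun v hv => ?_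
    exact ig3_nonneg (hy.trans hv.1)
  linarith

theorem phi3_nonneg {y : ℝ} (hy : 0 ≤ y) : 0 ≤ phi3 y := by
  have := phi3_mono le_rfl hy
  rwa [phi3_zero] at this

theorem phi3_le_sq {y : ℝ} (hy : 0 ≤ y) : phi3 y ≤ y ^ 2 / 4 := by
  rw [phi3]
  calc ∫ v in (0:ℝ)..y, (l1 v - 1 + v / 2) ≤ ∫ v in (0:ℝ)..y, v / 2 := by
        refine intervalIntegral.integral_mono_on hy (ig3_ii le_rfl hy)
          ((continuous_id.div_const 2).intervalIntegrable _ _) fun v hv => ?_
        linarith [l1_le_one hv.1]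
    _ = y ^ 2 / 4 := by
        rw [intervalIntegral.integral_div, integral_id]; ring

theorem phi3_ge {y : ℝ} (hy : 0 ≤ y) : y ^ 2 / 4 - y ≤ phi3 y := by
  rw [phi3]
  calc y ^ 2 / 4 - y = ∫ v in (0:ℝ)..y, (v / 2 - 1) := by
        have hI : IntervalIntegrable (fun v : ℝ => v / 2) volume 0 y :=
          (continuous_id.div_const 2).intervalIntegrable _ _
        rw [intervalIntegral.integral_sub hI intervalIntegrable_const,
          intervalIntegral.integral_div, integral_id, intervalIntegral.integral_const]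
        simp only [smul_eq_mul]
        ring
    _ ≤ ∫ v in (0:ℝ)..y, (l1 v - 1 + v / 2) := by
        refine intervalIntegral.integral_mono_on hy
          (((continuous_id.div_const 2).sub continuous_const).intervalIntegrable _ _)
          (ig3_ii le_rfl hy) fun v hv => ?_
        show v / 2 - 1 ≤ l1 v - 1 + v / 2
        linarith [l1_pos hv.1]

theorem phi3_le_cube {y : ℝ} (hy : 0 ≤ y) : phi3 y ≤ y ^ 3 / 9 := by
  rw [phi3]
  calc ∫ v in (0:ℝ)..y, (l1 v - 1 + v / 2) ≤ ∫ v in (0:ℝ)..y, v ^ 2 / 3 := by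
        refine intervalIntegral.integral_mono_on hy (ig3_ii le_rfl hy)
          (((continuous_pow 2).div_const 3).intervalIntegrable _ _) fun v hv => ?_
        exact ig3_le hv.1
    _ = y ^ 3 / 9 := by
        rw [intervalIntegral.integral_div, integral_pow]
        norm_num
        ring

/-- Lipschitz bound on `[0, B]` -/
theorem phi3_lip {y z B : ℝ} (hy : 0 ≤ y) (hz : 0 ≤ z) (hyB : y ≤ B) (hzB : z ≤ B) :
    phi3 y ≤ phi3 z + B / 2 * |y - z| := by
  rcases le_total y z with h | h
  · have h1 := phi3_mono hy h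
    have h2 : 0 ≤ B / 2 * |y - z| := by
      have : 0 ≤ B := hy.trans hyB
      positivity
    linarith
  · have h1 := phi3_sub hz hy
    have h2 : ∫ v in z..y, (l1 v - 1 + v / 2) ≤ ∫ _ in z..y, (B / 2 : ℝ) := by
      refine intervalIntegral.integral_mono_on h (ig3_ii hz hy) intervalIntegrable_const
        fun v hv => ?_
      have h3 := l1_le_one (hz.trans hv.1)
      have h4 : v ≤ B := hv.2.trans hyB
      linarith
    rw [intervalIntegral.integral_const, smul_eq_mul] at h2
    rw [abs_of_nonneg (by linarith : 0 ≤ y - z)]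
    nlinarith

theorem phi3_eq {y : ℝ} (hy : 0 ≤ y) :
    phi3 y = ∫ w in (0:ℝ)..1, y * (l1 (w * y) - 1 + w * y / 2) := by
  have h1 := intervalIntegral.mul_integral_comp_mul_right (a := 0) (b := 1)
    (f := fun v : ℝ => l1 v - 1 + v / 2) (c := y)
  simp only [zero_mul, one_mul] at h1
  rw [intervalIntegral.integral_const_mul, h1, phi3]

theorem k3_eq {y w : ℝ} : k3 (w * y) = w * (y * (l1 (w * y) - 1 + w * y / 2)) := by
  rw [k3, ← l1_mul]; ring

end Pool.Agent.H36.SB
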