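import Pool.Agent.H36.SB.BaseK
import Pool.Agent.H36.SB.Phi3

/-!
# The comparison at radius one for `phi3`

PROOF: copy `H97/SIM/BaseP.lean` with `phi3`, `k3`, `phi3_eq`, `k3_eq`, `base_k3` in place of `phi`,
`uu`, `phi_eq`, `uu_eq`, `base_uu` (the integrand `1 - l1 v` becomes `l1 v - 1 + v/2`).
-/

open Complex MeasureTheory Set Filter Topology
open scoped ComplexConjugate Real

namespace Pool.Agent.H36.SB

open Pool.Agent.H97.SIM Pool.Agent.H15.Sig

variable {F : ℂ → ℂ} {b : ℕ → ℂ}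

private lemma bp3_contOn {y : ℝ → ℝ} (hy : Continuous y) (hy0 : ∀ t, 0 ≤ y t) :
    ContinuousOn (fun z : ℝ × ℝ => y z.2 * (l1 (z.1 * y z.2) - 1 + z.1 * y z.2 / 2))
      (Ici 0 ×ˢ univ) := by
  have h1 : ContinuousOn (fun z : ℝ × ℝ => l1 (z.1 * y z.2)) (Ici 0 ×ˢ univ) := by
    refine l1_contOn.comp (f := fun z : ℝ × ℝ => z.1 * y z.2) (by fun_prop) ?_
    rintro ⟨w, t⟩ ⟨hw, -⟩
    have : 0 ≤ w * y t := mul_nonneg hw (hy0 t)
    exact lt_of_lt_of_le (by norm_num) this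
  have h2 : Continuous (fun z : ℝ × ℝ => y z.2) := by fun_prop
  have h3 : Continuous (fun z : ℝ × ℝ => z.1 * y z.2 / 2) := by fun_prop
  exact h2.continuousOn.mul ((h1.sub continuousOn_const).add h3.continuousOn)

private lemma bp3_int {y : ℝ → ℝ} (hy : Continuous y) (hy0 : ∀ t, 0 ≤ y t) :
    Integrable (Function.uncurry fun w t : ℝ => y t * (l1 (w * y t) - 1 + w * y t / 2))
      ((volume.restrict (Ioc (0:ℝ) 1)).prod (volume.restrict (Ioc (-π) π))) := by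
  rw [Measure.prod_restrict, ← IntegrableOn]
  have h1 : ContinuousOn (fun z : ℝ × ℝ => y z.2 * (l1 (z.1 * y z.2) - 1 + z.1 * y z.2 / 2))
      (Icc (0:ℝ) 1 ×ˢ Icc (-π) π) := by
    refine (bp3_contOn hy hy0).mono ?_
    rintro ⟨w, t⟩ ⟨hw, -⟩
    exact ⟨hw.1, trivial⟩
  have h2 : IntegrableOn (fun z : ℝ × ℝ => y z.2 * (l1 (z.1 * y z.2) - 1 + z.1 * y z.2 / 2))
      (Icc (0:ℝ) 1 ×ˢ Icc (-π) π) (volume.prod volume) :=
    h1.integrableOn_compact (isCompact_Icc.prod isCompact_Icc)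
  exact h2.mono_set (prod_mono Ioc_subset_Icc_self Ioc_subset_Icc_self)

/-- Fubini -/
private lemma bp3_av {y : ℝ → ℝ} (hy : Continuous y) (hy0 : ∀ t, 0 ≤ y t) :
    av (fun t => phi3 (y t)) =
      ∫ w in (0:ℝ)..1, av (fun t => y t * (l1 (w * y t) - 1 + w * y t / 2)) := by
  have hpi : (-π : ℝ) ≤ π := by linarith [Real.pi_pos]
  have hsw := integral_integral_swap (bp3_int hy hy0)
  have h1 : ∀ t, phi3 (y t) = ∫ w in Ioc (0:ℝ) 1, y t * (l1 (w * y t) - 1 + w * y t / 2) := by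
    intro t
    rw [phi3_eq (hy0 t), intervalIntegral.integral_of_le zero_le_one]
  have h2 : ∀ w, av (fun t => y t * (l1 (w * y t) - 1 + w * y t / 2))
      = (2 * π)⁻¹ * ∫ t in Ioc (-π) π, y t * (l1 (w * y t) - 1 + w * y t / 2) := by
    intro w
    rw [av, intervalIntegral.integral_of_le hpi]
  rw [av_congr h1, av, intervalIntegral.integral_of_le hpi, ← hsw,
    intervalIntegral.integral_of_le zero_le_one, ← integral_const_mul]
  exact integral_congr_ae (Eventually.of_forall fun w => (h2 w).symm)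

private lemma bp3_ii {y : ℝ → ℝ} (hy : Continuous y) (hy0 : ∀ t, 0 ≤ y t) :
    IntervalIntegrable (fun w => av (fun t => y t * (l1 (w * y t) - 1 + w * y t / 2)))
      volume 0 1 := by
  have hpi : (-π : ℝ) ≤ π := by linarith [Real.pi_pos]
  rw [intervalIntegrable_iff_integrableOn_Ioc_of_le zero_le_one]
  have h := (bp3_int hy hy0).integral_prod_left.const_mul (2 * π)⁻¹
  refine h.congr (Eventually.of_forall fun w => ?_)
  simp only [av, intervalIntegral.integral_of_le hpi, Function.uncurry]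

theorem base_phi3 (h : IsSig F b) {x s : ℝ} (hx0 : 0 < x) (hx : x < 1) (hs : 0 < s) :
    av (fun t => phi3 (‖sx b x t‖ ^ 2 / s)) ≤ av (fun t => phi3 (‖gJ 1 t‖ ^ 2 / s)) := by
  have cS := sx_continuous h hx0 hx
  have c1 : Continuous (fun t => ‖sx b x t‖ ^ 2 / s) := by fun_prop
  have cJ := gJ_continuous 1
  have c2 : Continuous (fun t => ‖gJ 1 t‖ ^ 2 / s) := by fun_prop
  have p1 : ∀ t, 0 ≤ ‖sx b x t‖ ^ 2 / s := fun t => by positivity
  have p2 : ∀ t, 0 ≤ ‖gJ 1 t‖ ^ 2 / s := fun t => by positivity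
  rw [bp3_av c1 p1, bp3_av c2 p2]
  refine intervalIntegral.integral_mono_on_of_le_Ioo zero_le_one (bp3_ii c1 p1) (bp3_ii c2 p2) ?_
  intro w hw
  have hw0 : 0 < w := hw.1
  have key : ∀ g : ℝ → ℂ, av (fun t => ‖g t‖ ^ 2 / s *
      (l1 (w * (‖g t‖ ^ 2 / s)) - 1 + w * (‖g t‖ ^ 2 / s) / 2))
      = w⁻¹ * av (fun t => k3 (‖g t‖ ^ 2 / (s / w))) := by
    intro g
    rw [← av_mul_const]
    refine av_congr fun t => ?_
    have e1 : ‖g t‖ ^ 2 / (s / w) = w * (‖g t‖ ^ 2 / s) := by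
      field_simp
    rw [e1, k3_eq, ← mul_assoc, inv_mul_cancel₀ hw0.ne', one_mul]
  rw [key, key]
  exact mul_le_mul_of_nonneg_left (base_k3 h hx0 hx (div_pos hs hw0)) (inv_nonneg.2 hw0.le)

end Pool.Agent.H36.SB
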