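import Pool.Agent.H36.SB.BaseP3

/-!
# Boundary values of the difference

`W = av phi3 (|sx b x|^2/s) - av phi3 (|gJ x|^2/s)`.

PROOF. `W_top`: `phi3 y <= y^2/4`, `phi3 >= 0`: `W <= M4 (sx b x) / (4 s^2)` and
`M4 (sx b x) <= 1 + 4 x^4 + x^8 <= 6` (`del_ox`, `ox_nonneg`).
`W_bot`: `phi3 y >= y^2/4 - y`: `W <= (M4 (sx b x) - M4 (gJ x))/(4 s^2) + M2 (gJ x)/s`, and
`M4 (gJ x) - M4 (sx b x) >= 3 x^4 (1 - |b_1|^2)` (`del_pos`, `J_M4`), `M2 (gJ x) = 1 + x^4 <= 2`.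
`W_right`: `base_phi3` gives `W <= av phi3 (|gJ 1|^2/s) - av phi3 (|gJ x|^2/s)`; `phi3_lip` with
`B = 4/s` (`|gJ| <= 2` for `0 <= x <= 1`) and `| |gJ 1|^2 - |gJ x|^2 | <= 4 (1 - x^2)`.
-/

open Complex MeasureTheory Set Filter Topology
open scoped ComplexConjugate Real

namespace Pool.Agent.H36.SB

open Pool.Agent.H97.SIM Pool.Agent.H15.Sig

variable {F : ℂ → ℂ} {b : ℕ → ℂ}

private theorem bd_cont {g : ℝ → ℂ} (hg : Continuous g) {s : ℝ} (hs : 0 < s) :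
    Continuous (fun t => phi3 (‖g t‖ ^ 2 / s)) := by
  have c1 : Continuous (fun t => ‖g t‖ ^ 2 / s) := by fun_prop
  refine phi3_contOn.comp_continuous c1 fun t => ?_
  exact mem_Ici.2 (by positivity)

private theorem bd_upper {g : ℝ → ℂ} (hg : Continuous g) {s : ℝ} (hs : 0 < s) :
    av (fun t => phi3 (‖g t‖ ^ 2 / s)) ≤ M4 g / (4 * s ^ 2) := by
  have c2 : Continuous (fun t => (1 / (4 * s ^ 2)) * ‖g t‖ ^ 4) := by fun_prop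
  have h1 : av (fun t => phi3 (‖g t‖ ^ 2 / s)) ≤ av (fun t => (1 / (4 * s ^ 2)) * ‖g t‖ ^ 4) := by
    refine av_mono (bd_cont hg hs) c2 fun t => ?_
    refine (phi3_le_sq (by positivity)).trans (le_of_eq ?_)
    field_simp
  rw [av_mul_const] at h1
  unfold M4
  calc av (fun t => phi3 (‖g t‖ ^ 2 / s)) ≤ 1 / (4 * s ^ 2) * av (fun t => ‖g t‖ ^ 4) := h1
    _ = av (fun t => ‖g t‖ ^ 4) / (4 * s ^ 2) := by ring

private theorem bd_lower {g : ℝ → ℂ} (hg : Continuous g) {s : ℝ} (hs : 0 < s) :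
    M4 g / (4 * s ^ 2) - M2 g / s ≤ av (fun t => phi3 (‖g t‖ ^ 2 / s)) := by
  have c2 : Continuous (fun t => (1 / (4 * s ^ 2)) * ‖g t‖ ^ 4) := by fun_prop
  have c3 : Continuous (fun t => (1 / s) * ‖g t‖ ^ 2) := by fun_prop
  have h1 : av (fun t => (1 / (4 * s ^ 2)) * ‖g t‖ ^ 4 - (1 / s) * ‖g t‖ ^ 2) ≤
      av (fun t => phi3 (‖g t‖ ^ 2 / s)) := by
    refine av_mono (c2.sub c3) (bd_cont hg hs) fun t => ?_
    refine (le_of_eq ?_).trans (phi3_ge (by positivity))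
    field_simp
  rw [av_sub c2 c3, av_mul_const, av_mul_const] at h1
  unfold M4 M2
  calc av (fun t => ‖g t‖ ^ 4) / (4 * s ^ 2) - av (fun t => ‖g t‖ ^ 2) / s
      = 1 / (4 * s ^ 2) * av (fun t => ‖g t‖ ^ 4) - 1 / s * av (fun t => ‖g t‖ ^ 2) := by ring
    _ ≤ _ := h1

theorem W_top (h : IsSig F b) {x s : ℝ} (hx0 : 0 < x) (hx : x < 1) (hs : 0 < s) :
    av (fun t => phi3 (‖sx b x t‖ ^ 2 / s)) - av (fun t => phi3 (‖gJ x t‖ ^ 2 / s)) ≤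
      2 / s ^ 2 := by
  have h1 := bd_upper (sx_continuous h hx0 hx) hs
  have h2 : 0 ≤ av (fun t => phi3 (‖gJ x t‖ ^ 2 / s)) :=
    av_nonneg fun t => phi3_nonneg (by positivity)
  have h3 := del_ox h hx0 hx
  have h4 := ox_nonneg h hx0 hx
  have h5 : x ^ 4 ≤ 1 := pow_le_one₀ hx0.le hx.le
  have h6 : x ^ 8 ≤ 1 := pow_le_one₀ hx0.le hx.le
  have h7 : M4 (sx b x) / (4 * s ^ 2) ≤ 8 / (4 * s ^ 2) :=
    div_le_div_of_nonneg_right (by linarith) (by positivity)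
  have h8 : 8 / (4 * s ^ 2) = 2 / s ^ 2 := by
    field_simp
    norm_num
  linarith

theorem W_bot (h : IsSig F b) {x s : ℝ} (hx0 : 0 < x) (hx : x < 1) (hs : 0 < s) :
    av (fun t => phi3 (‖sx b x t‖ ^ 2 / s)) - av (fun t => phi3 (‖gJ x t‖ ^ 2 / s)) ≤
      -(3 * x ^ 4 * (1 - ‖b 1‖ ^ 2)) / (4 * s ^ 2) + 2 / s := by
  have h1 := bd_upper (sx_continuous h hx0 hx) hs
  have h2 := bd_lower (gJ_continuous x) hs
  have h3 := del_pos h hx0 hx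
  have h4 := J_M4 x
  have h5 : M2 (gJ x) = 1 + x ^ 4 := by
    unfold M2
    exact J_sq x
  have h6 : x ^ 4 ≤ 1 := pow_le_one₀ hx0.le hx.le
  have h7 : M2 (gJ x) / s ≤ 2 / s := div_le_div_of_nonneg_right (by linarith) hs.le
  have h8 : (M4 (sx b x) - M4 (gJ x)) / (4 * s ^ 2) ≤
      -(3 * x ^ 4 * (1 - ‖b 1‖ ^ 2)) / (4 * s ^ 2) :=
    div_le_div_of_nonneg_right (by linarith) (by positivity)
  have h9 : (M4 (sx b x) - M4 (gJ x)) / (4 * s ^ 2) =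
      M4 (sx b x) / (4 * s ^ 2) - M4 (gJ x) / (4 * s ^ 2) := by ring
  linarith

private theorem bd_norm {x : ℝ} (hx0 : 0 < x) (hx : x ≤ 1) (t : ℝ) : ‖gJ x t‖ ≤ 2 := by
  unfold gJ
  have h1 : ‖(x * e t : ℂ) ^ 2‖ = x ^ 2 := by
    rw [norm_pow, norm_mul, norm_e, mul_one, Complex.norm_real, Real.norm_of_nonneg hx0.le]
  have h2 : x ^ 2 ≤ 1 := pow_le_one₀ hx0.le hx
  calc ‖(1:ℂ) + (x * e t) ^ 2‖ ≤ ‖(1:ℂ)‖ + ‖(x * e t : ℂ) ^ 2‖ := norm_add_le _ _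
    _ ≤ 2 := by rw [h1, norm_one]; linarith

private theorem bd_diff {x : ℝ} (hx0 : 0 < x) (hx : x ≤ 1) (t : ℝ) :
    |‖gJ 1 t‖ ^ 2 - ‖gJ x t‖ ^ 2| ≤ 4 * (1 - x ^ 2) := by
  have h1 := bd_norm one_pos le_rfl t
  have h2 := bd_norm hx0 hx t
  have h0 : x ^ 2 ≤ 1 := pow_le_one₀ hx0.le hx
  have h3 : |‖gJ 1 t‖ - ‖gJ x t‖| ≤ 1 - x ^ 2 := by
    refine (abs_norm_sub_norm_le _ _).trans (le_of_eq ?_)
    have : gJ 1 t - gJ x t = ((1 - x ^ 2 : ℝ) : ℂ) * e t ^ 2 := by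
      unfold gJ
      push_cast
      ring
    rw [this, norm_mul, norm_pow, norm_e, one_pow, mul_one, Complex.norm_real,
      Real.norm_of_nonneg (by linarith)]
  have h4 : ‖gJ 1 t‖ ^ 2 - ‖gJ x t‖ ^ 2 =
      (‖gJ 1 t‖ - ‖gJ x t‖) * (‖gJ 1 t‖ + ‖gJ x t‖) := by ring
  have h5 : 0 ≤ ‖gJ 1 t‖ + ‖gJ x t‖ := by positivity
  rw [h4, abs_mul, abs_of_nonneg h5]
  calc |‖gJ 1 t‖ - ‖gJ x t‖| * (‖gJ 1 t‖ + ‖gJ x t‖) ≤ (1 - x ^ 2) * 4 :=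
        mul_le_mul h3 (by linarith) h5 (by linarith)
    _ = 4 * (1 - x ^ 2) := by ring

theorem W_right (h : IsSig F b) {x s : ℝ} (hx0 : 0 < x) (hx : x < 1) (hs : 0 < s) :
    av (fun t => phi3 (‖sx b x t‖ ^ 2 / s)) - av (fun t => phi3 (‖gJ x t‖ ^ 2 / s)) ≤
      8 * (1 - x ^ 2) / s ^ 2 := by
  have h1 := base_phi3 h hx0 hx hs
  have c1 := bd_cont (gJ_continuous 1) hs
  have c2 := bd_cont (gJ_continuous x) hs
  have h2 : av (fun t => phi3 (‖gJ 1 t‖ ^ 2 / s)) ≤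
      av (fun t => phi3 (‖gJ x t‖ ^ 2 / s) + 8 * (1 - x ^ 2) / s ^ 2) := by
    refine av_mono c1 (c2.add continuous_const) fun t => ?_
    have n1 := bd_norm one_pos le_rfl t
    have n2 := bd_norm hx0 hx.le t
    have q1 : ‖gJ 1 t‖ ^ 2 ≤ 4 := by nlinarith [norm_nonneg (gJ 1 t)]
    have q2 : ‖gJ x t‖ ^ 2 ≤ 4 := by nlinarith [norm_nonneg (gJ x t)]
    have h3 := phi3_lip (y := ‖gJ 1 t‖ ^ 2 / s) (z := ‖gJ x t‖ ^ 2 / s) (B := 4 / s)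
      (by positivity) (by positivity) (div_le_div_of_nonneg_right q1 hs.le)
      (div_le_div_of_nonneg_right q2 hs.le)
    refine h3.trans (add_le_add le_rfl ?_)
    have h4 : ‖gJ 1 t‖ ^ 2 / s - ‖gJ x t‖ ^ 2 / s = (‖gJ 1 t‖ ^ 2 - ‖gJ x t‖ ^ 2) / s := by ring
    rw [h4, abs_div, abs_of_pos hs]
    have h5 : |‖gJ 1 t‖ ^ 2 - ‖gJ x t‖ ^ 2| / s ≤ 4 * (1 - x ^ 2) / s :=
      div_le_div_of_nonneg_right (bd_diff hx0 hx.le t) hs.le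
    calc 4 / s / 2 * (|‖gJ 1 t‖ ^ 2 - ‖gJ x t‖ ^ 2| / s) ≤ 4 / s / 2 * (4 * (1 - x ^ 2) / s) :=
          mul_le_mul_of_nonneg_left h5 (by positivity)
      _ = 8 * (1 - x ^ 2) / s ^ 2 := by
          field_simp
          ring
  rw [av_add c2 continuous_const, av_const] at h2
  linarith

end Pool.Agent.H36.SB
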