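import Pool.Agent.H36.SB.Defs

/-!
# The difference of the first two logarithms: real inequality

PROOF. `R = 1/E`, `0 < R < 1`; `R' = 1 - exp (-δ) (1 - R)`, so `R <= R' < 1` and
`θ = sqrt (R R') < 1`. From `ht`: `s / H2 = exp (- log (H2/s)) >= exp (-δ) (E-1)/E =
exp (-δ) (1 - R)`, so `1 - s/H2 <= R'`. Hence `γ2 <= sqrt R'` and `q <= sqrt (R' om / s)`.
`hA` divided by `sqrt E`: `γ1 <= sqrt R q + sqrt R γ1 γ2 <= sqrt (R R' om / s) + θ γ1`, so
`γ1 (1 - θ) <= sqrt (R R' om / s)` and `γ1^2 <= g' := R R' om / (s (1 - θ)^2)`.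
Let `y = (E-1)/s >= 1`, `κ = log y - log (H2/s) = - log (1 - γ1^2)` (`H2 = (E-1)(1-γ1^2) > 0`, so
`γ1^2 < 1`). CLAIM `κ <= 2 y g'`. If `g' <= 1/2`: `γ1^2 <= g'`, `κ <= - log (1 - g') <=
g'/(1-g') <= 2 g' <= 2 y g'` (`log t >= 1 - 1/t`). If `g' > 1/2`: `H2 >= s`, so
`κ <= log y <= y - 1 <= y <= 2 y g'`.
-/

open Complex MeasureTheory Set Filter Topology
open scoped ComplexConjugate Real

namespace Pool.Agent.H36.SB

open Pool.Agent.H97.SIM

set_option maxHeartbeats 1000000 in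
theorem gam_real {s E δ om γ1 γ2 q H2 : ℝ} (hs : 0 < s) (hE : 1 + s ≤ E) (hδ : 0 ≤ δ)
    (hg1 : 0 ≤ γ1) (hg2 : 0 ≤ γ2) (hq : 0 ≤ q) (hom : 0 ≤ om)
    (hH2 : H2 = (E - 1) * (1 - γ1 ^ 2)) (hsH : s ≤ H2)
    (hA : γ1 * Real.sqrt E ≤ q + γ1 * γ2) (hP : s * q ^ 2 ≤ (1 - s / H2) * om)
    (h2 : γ2 ^ 2 ≤ 1 - s / H2) (ht : Real.log (H2 / s) ≤ δ + Real.log (E / (E - 1))) :
    Real.log ((E - 1) / s) - Real.log (H2 / s) ≤ KB s E δ om := by
  unfold KB
  have hE0 : 0 < E := by linarith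
  have hE1 : 0 < E - 1 := by linarith
  have hH : 0 < H2 := lt_of_lt_of_le hs hsH
  obtain ⟨R, hR⟩ : ∃ R : ℝ, R = 1 / E := ⟨_, rfl⟩
  rw [← hR]
  have hR0 : 0 < R := by rw [hR]; positivity
  have hR1 : R < 1 := by
    rw [hR, div_lt_one hE0]
    linarith
  have hEδ : 0 < Real.exp (-δ) := Real.exp_pos _
  have hEδ1 : Real.exp (-δ) ≤ 1 := by
    rw [Real.exp_le_one_iff]
    linarith
  obtain ⟨R', hR'⟩ : ∃ R' : ℝ, R' = 1 - Real.exp (-δ) * (1 - R) := ⟨_, rfl⟩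
  rw [← hR']
  have hR'1 : R' < 1 := by
    rw [hR']
    have : 0 < Real.exp (-δ) * (1 - R) := mul_pos hEδ (by linarith)
    linarith
  have hR'0 : R ≤ R' := by
    rw [hR']
    nlinarith [mul_le_mul_of_nonneg_right hEδ1 (by linarith : (0:ℝ) ≤ 1 - R)]
  have hR'p : 0 < R' := lt_of_lt_of_le hR0 hR'0
  have h3 : 1 - s / H2 ≤ R' := by
    have e1 : H2 / s ≤ Real.exp δ * (E / (E - 1)) := by
      have e2 : Real.log (H2 / s) ≤ Real.log (Real.exp δ * (E / (E - 1))) := by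
        rw [Real.log_mul (Real.exp_pos _).ne' (by positivity), Real.log_exp]
        exact ht
      exact (Real.log_le_log_iff (by positivity) (by positivity)).1 e2
    have e3 : Real.exp (-δ) * (1 - R) ≤ s / H2 := by
      have e4 : 1 - R = (E - 1) / E := by
        rw [hR]
        field_simp
      rw [e4, Real.exp_neg, le_div_iff₀ hH]
      rw [div_le_iff₀ hs] at e1
      have e5 : (Real.exp δ)⁻¹ * ((E - 1) / E) * H2 ≤
          (Real.exp δ)⁻¹ * ((E - 1) / E) * (Real.exp δ * (E / (E - 1)) * s) :=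
        mul_le_mul_of_nonneg_left e1 (by positivity)
      refine e5.trans (le_of_eq ?_)
      have := (Real.exp_pos δ).ne'
      field_simp
    rw [hR']
    linarith
  have h4 : γ2 ^ 2 ≤ R' := h2.trans h3
  have h5 : q ^ 2 ≤ R' * om / s := by
    rw [le_div_iff₀ hs]
    calc q ^ 2 * s = s * q ^ 2 := by ring
      _ ≤ (1 - s / H2) * om := hP
      _ ≤ R' * om := mul_le_mul_of_nonneg_right h3 hom
  obtain ⟨th, hth⟩ : ∃ th : ℝ, th = Real.sqrt (R * R') := ⟨_, rfl⟩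
  rw [← hth]
  have hth0 : 0 ≤ th := by rw [hth]; positivity
  have hth2 : th ^ 2 = R * R' := by
    rw [hth]
    exact Real.sq_sqrt (by positivity)
  have hth1 : th < 1 := by
    by_contra hc
    push Not at hc
    have e1 : 1 ≤ th ^ 2 := by nlinarith
    rw [hth2] at e1
    have e2 : R * R' < 1 := by nlinarith
    linarith
  obtain ⟨a, ha⟩ : ∃ a : ℝ, a = Real.sqrt R := ⟨_, rfl⟩
  have ha0 : 0 < a := by rw [ha]; positivity
  have ha2 : a ^ 2 = R := by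
    rw [ha]
    exact Real.sq_sqrt hR0.le
  have haE : Real.sqrt E * a = 1 := by
    rw [ha, ← Real.sqrt_mul hE0.le, hR, mul_one_div_cancel hE0.ne', Real.sqrt_one]
  have h6 : γ1 ≤ a * q + a * (γ1 * γ2) := by
    have e1 := mul_le_mul_of_nonneg_right hA ha0.le
    have e2 : γ1 * Real.sqrt E * a = γ1 := by
      rw [mul_assoc, haE, mul_one]
    rw [e2] at e1
    linarith [e1]
  have h7 : a * γ2 ≤ th := by
    refine abs_le_of_sq_le_sq' ?_ hth0 |>.2
    rw [mul_pow, ha2, hth2]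
    exact mul_le_mul_of_nonneg_left h4 hR0.le
  have h8 : γ1 * (1 - th) ≤ a * q := by
    have e1 := mul_le_mul_of_nonneg_left h7 hg1
    nlinarith
  have h9 : (γ1 * (1 - th)) ^ 2 ≤ R * R' * om / s := by
    have e1 : (γ1 * (1 - th)) ^ 2 ≤ (a * q) ^ 2 :=
      pow_le_pow_left₀ (mul_nonneg hg1 (by linarith)) h8 2
    rw [mul_pow a q, ha2] at e1
    refine e1.trans ?_
    calc R * q ^ 2 ≤ R * (R' * om / s) := mul_le_mul_of_nonneg_left h5 hR0.le
      _ = R * R' * om / s := by ring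
  obtain ⟨g, hg⟩ : ∃ g : ℝ, g = R * R' * om / (s * (1 - th) ^ 2) := ⟨_, rfl⟩
  rw [← hg]
  have h1th : 0 < (1 - th) ^ 2 := by
    have : 0 < 1 - th := by linarith
    positivity
  have h10 : γ1 ^ 2 ≤ g := by
    rw [hg, ← div_div, le_div_iff₀ h1th]
    calc γ1 ^ 2 * (1 - th) ^ 2 = (γ1 * (1 - th)) ^ 2 := by ring
      _ ≤ R * R' * om / s := h9
  obtain ⟨y, hy⟩ : ∃ y : ℝ, y = (E - 1) / s := ⟨_, rfl⟩
  rw [← hy]
  have hy1 : 1 ≤ y := by
    rw [hy, le_div_iff₀ hs]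
    linarith
  have hγ : 0 < 1 - γ1 ^ 2 := by
    by_contra hc
    push Not at hc
    have : H2 ≤ 0 := by
      rw [hH2]
      exact mul_nonpos_of_nonneg_of_nonpos hE1.le hc
    linarith
  have h11 : H2 / s = y * (1 - γ1 ^ 2) := by
    rw [hH2, hy]
    ring
  have hg0 : 0 ≤ g := le_trans (by positivity) h10
  rcases le_or_gt g (1 / 2) with hc | hc
  · rw [h11, Real.log_mul (by linarith) hγ.ne']
    have e1 := Real.one_sub_inv_le_log_of_pos hγ
    have e2 : (1 - γ1 ^ 2)⁻¹ - 1 ≤ 2 * γ1 ^ 2 := by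
      have e3 : (1 - γ1 ^ 2)⁻¹ - 1 = γ1 ^ 2 / (1 - γ1 ^ 2) := by
        field_simp
        ring
      rw [e3, div_le_iff₀ hγ]
      have e4 : γ1 ^ 2 ≤ 1 / 2 := h10.trans hc
      have e6 := mul_nonneg (sq_nonneg γ1) (by linarith : (0:ℝ) ≤ 1 - 2 * γ1 ^ 2)
      linarith [e6]
    have e5 : 2 * γ1 ^ 2 ≤ 2 * y * g := by
      have e6 := mul_nonneg (by linarith : (0:ℝ) ≤ y - 1) hg0
      linarith [e6]
    linarith
  · have e1 : 0 ≤ Real.log (H2 / s) := Real.log_nonneg (by rw [le_div_iff₀ hs]; linarith)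
    have e2 : Real.log y ≤ y - 1 := Real.log_le_sub_one_of_pos (by linarith)
    have e3 : y ≤ 2 * y * g := by
      have e4 := mul_nonneg (by linarith : (0:ℝ) ≤ y) (by linarith : (0:ℝ) ≤ 2 * g - 1)
      linarith [e4]
    linarith

end Pool.Agent.H36.SB
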