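import Pool.Agent.H36.SB.StepB
import Pool.Agent.H97.SIM.PairB

/-!
# Positivity

PROOF. `s_le`: `log |h_0|^2 = Lg s f` (`Pair.logmean`) `>= log s` (`av_mono`, `av_const`);
`h_0 <> 0` by `nz`. `tau_nonneg`: clear. `one_add_le`: `|h1_0|^2 = |h_0|^2 - |f_0|^2 >= s` for the
first step (`s_le` for `(f1, h1)`). `Ig_nonneg`: strong induction on `natDegree f`: if it is `0`,
`Ig f = 0` (`pd f = 0`); otherwise `Ig f = log (|h1_0|^2 / s) + Ig f1 >= 0`, `natDegree f1 <
natDegree f`. `Ig_const` is the case `natDegree f = 0`.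
-/

open Complex MeasureTheory Set Filter Topology Polynomial
open scoped ComplexConjugate Real

namespace Pool.Agent.H36.SB

open Pool.Agent.H97.SIM

variable {s : ℝ} {f h : ℂ[X]}

private lemma h0_pos (P : Pair s f h) : 0 < ‖h.coeff 0‖ ^ 2 := by
  have h1 := P.nz 0 (by simp)
  rw [← coeff_zero_eq_eval_zero] at h1
  have h2 : 0 < ‖h.coeff 0‖ := norm_pos_iff.2 h1
  positivity

theorem s_le (P : Pair s f h) : s ≤ ‖h.coeff 0‖ ^ 2 := by
  have hs := P.pos
  have hc : Continuous fun t => Real.log (‖pe f t‖ ^ 2 + s) :=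
    (((continuous_pe f).norm.pow 2).add continuous_const).log
      (fun t => (add_pos_of_nonneg_of_pos (sq_nonneg _) hs).ne')
  have h1 : Real.log s ≤ Real.log (‖h.coeff 0‖ ^ 2) := by
    rw [← P.logmean]
    have h2 : av (fun _ => Real.log s) ≤ av (fun t => Real.log (‖pe f t‖ ^ 2 + s)) := by
      refine av_mono continuous_const hc fun t => ?_
      refine Real.log_le_log hs ?_
      have := sq_nonneg ‖pe f t‖
      linarith
    rw [av_const] at h2
    exact h2
  exact (Real.log_le_log_iff hs (h0_pos P)).1 h1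

theorem tau_nonneg (P : Pair s f h) : 0 ≤ Real.log (‖h.coeff 0‖ ^ 2 / s) := by
  refine Real.log_nonneg ?_
  rw [le_div_iff₀ P.pos, one_mul]
  exact s_le P

theorem one_add_le (P : Pair s f h) (h0 : f.coeff 0 = 1) : 1 + s ≤ ‖h.coeff 0‖ ^ 2 := by
  obtain ⟨w, T, f1, h1, H⟩ := exists_stp P
  have h2 := s_le H.pair
  have h3 := H.c0
  rw [h0, norm_one] at h3
  linarith

theorem Ig_const' (hf : f.natDegree = 0) : Ig s (pe f) (pd f) = 0 := by
  have h1 : f.derivative = 0 := derivative_of_natDegree_zero hf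
  have h2 : ∀ t, pd f t = 0 := by
    intro t
    unfold pd
    rw [h1, eval_zero, mul_zero]
  unfold Ig
  have h3 : (fun t => l1 (‖pe f t‖ ^ 2 / s) / s * (conj (pe f t) * pd f t).re) = fun _ => 0 := by
    funext t
    rw [h2, mul_zero, Complex.zero_re, mul_zero]
  rw [h3]
  exact av_const 0

private lemma Ig_nonneg_aux (n : ℕ) : ∀ (f h : ℂ[X]), f.natDegree ≤ n → Pair s f h →
    0 ≤ Ig s (pe f) (pd f) := by
  induction n with
  | zero =>
    intro f h hf _
    rw [Ig_const' (Nat.le_zero.1 hf)]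
  | succ n ih =>
    intro f h hf P
    obtain ⟨w, T, f1, h1, H⟩ := exists_stp P
    have h2 := ih f1 h1 (by have := H.deg; omega) H.pair
    have h3 := tau_nonneg H.pair
    rw [H.ig]
    linarith

theorem Ig_nonneg (P : Pair s f h) : 0 ≤ Ig s (pe f) (pd f) :=
  Ig_nonneg_aux f.natDegree f h le_rfl P

end Pool.Agent.H36.SB
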