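import Pool.Agent.H36.SB.An
import Pool.Agent.H36.SB.Pos

/-!
# The vector Schwarz-Pick inequality for a pair

PROOF. Write `H = |h_0|^2`, `K = |h_1|^2` (coefficients). Let `ρ >= 0` be real,
`x = -ρ h_1 / h_0` and `u = 1 + x z`. On the circle `1 = (|f|^2 + s) / |h|^2`, so
`1 + |x|^2 = av |u|^2 = av |f G|^2 + s av |G|^2`, `G = u / h`, analytic on the open set
`{h <> 0}`. `G 0 = 1 / h_0`, `G'(0) = x / h_0 - h_1 / h_0^2 = -(1 + ρ) h_1 / h_0^2`. By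
`av_bessel0` for `f G` and `av_bessel` for `G`:
`1 + ρ^2 K / H >= |f_0|^2 / H + s / H + s (1 + ρ)^2 K / H^2`. This is `raw`.
(`1 + |x|^2 = av |1 + x z|^2`: expand, `av Re (x z) = 0`.)
`pick`: `H >= s` (`s_le`). If `H > s` take `ρ = s / (H - s)`: `1 + ρ = H / (H - s)`,
`s (1+ρ)^2 - ρ^2 H = s H / (H - s)`, so `K s H / (H - s) <= H^2 - (|f_0|^2 + s) H`; divide by `H`.
If `H = s`: `raw` with `ρ = 0` gives `s K + |f_0|^2 s <= 0`, so `K = 0`.
-/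

open Complex MeasureTheory Set Filter Topology Polynomial
open scoped ComplexConjugate Real

namespace Pool.Agent.H36.SB

open Pool.Agent.H97.SIM

variable {s : ℝ} {f h : ℂ[X]}

theorem pick_raw (P : Pair s f h) {ρ : ℝ} (hρ : 0 ≤ ρ) :
    s * (1 + ρ) ^ 2 * ‖h.coeff 1‖ ^ 2 + (‖f.coeff 0‖ ^ 2 + s) * ‖h.coeff 0‖ ^ 2 ≤
      (‖h.coeff 0‖ ^ 2) ^ 2 + ρ ^ 2 * ‖h.coeff 1‖ ^ 2 * ‖h.coeff 0‖ ^ 2 := by
  have hs := P.pos
  have h00 : h.eval 0 = h.coeff 0 := (coeff_zero_eq_eval_zero h).symm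
  have f00 : f.eval 0 = f.coeff 0 := (coeff_zero_eq_eval_zero f).symm
  have hh0 : h.coeff 0 ≠ 0 := by
    rw [← h00]
    exact P.nz 0 (by simp)
  have hH : 0 < ‖h.coeff 0‖ ^ 2 := by positivity
  set x : ℂ := -(ρ : ℂ) * h.coeff 1 / h.coeff 0 with hx
  set U : Set ℂ := {z | h.eval z ≠ 0} with hU
  have hUo : IsOpen U := isOpen_ne_fun h.continuous continuous_const
  have hUs : Metric.closedBall (0:ℂ) 1 ⊆ U := fun z hz => P.nz z (by simpa using hz)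
  set G : ℂ → ℂ := fun z => (1 + x * z) / h.eval z with hG
  have hGd : DifferentiableOn ℂ G U := by
    refine DifferentiableOn.div ?_ h.differentiable.differentiableOn fun z hz => hz
    exact (by fun_prop : Differentiable ℂ fun z : ℂ => 1 + x * z).differentiableOn
  have hfG : DifferentiableOn ℂ (fun z => f.eval z * G z) U :=
    f.differentiable.differentiableOn.mul hGd
  have hne : ∀ t, h.eval (e t) ≠ 0 := fun t => P.nz _ (norm_e t).le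
  have ce := continuous_e
  have c1 : Continuous fun t : ℝ => f.eval (e t) := f.continuous.comp ce
  have c2 : Continuous fun t : ℝ => h.eval (e t) := h.continuous.comp ce
  have cG : Continuous fun t : ℝ => G (e t) := by
    refine Continuous.div ?_ c2 hne
    fun_prop
  have cA : Continuous fun t : ℝ => ‖f.eval (e t) * G (e t)‖ ^ 2 := (c1.mul cG).norm.pow 2
  have cB : Continuous fun t : ℝ => ‖G (e t)‖ ^ 2 := cG.norm.pow 2
  have b1 := av_bessel0 hUo hUs hfG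
  have b2 := av_bessel hUo hUs hGd
  have hG0 : G 0 = (h.coeff 0)⁻¹ := by
    simp only [hG, mul_zero, add_zero, h00, one_div]
  have hGder : deriv G 0 = -((1 + (ρ : ℂ)) * h.coeff 1) / h.coeff 0 ^ 2 := by
    have d1 : HasDerivAt (fun z : ℂ => 1 + x * z) x 0 := by
      have := ((hasDerivAt_id (0:ℂ)).const_mul x).const_add 1
      simpa using this
    have d2 : HasDerivAt (fun z : ℂ => h.eval z) (h.coeff 1) 0 := by
      have d3 := h.hasDerivAt (0:ℂ)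
      have d4 : h.derivative.eval 0 = h.coeff 1 := by
        rw [← coeff_zero_eq_eval_zero, coeff_derivative]
        simp
      rwa [d4] at d3
    have d5 : HasDerivAt G ((x * h.eval 0 - (1 + x * 0) * h.coeff 1) / h.eval 0 ^ 2) 0 :=
      d1.div d2 (by rw [h00]; exact hh0)
    rw [d5.deriv, h00, hx]
    field_simp
    ring
  have e1 : ∀ t, ‖1 + x * e t‖ ^ 2 = ‖f.eval (e t) * G (e t)‖ ^ 2 + s * ‖G (e t)‖ ^ 2 := by
    intro t
    have k1 := P.circ t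
    have k2 : 0 < ‖h.eval (e t)‖ := norm_pos_iff.2 (hne t)
    simp only [hG, norm_mul, norm_div]
    rw [mul_pow, div_pow, ← add_mul, ← k1]
    field_simp
  have e2 : ∀ t, ‖1 + x * e t‖ ^ 2 = (1 + ‖x‖ ^ 2) + 2 * (x * e t).re := by
    intro t
    have k1 : ‖x * e t‖ = ‖x‖ := by rw [norm_mul, norm_e, mul_one]
    have k2 : ‖1 + x * e t‖ ^ 2 = 1 + ‖x * e t‖ ^ 2 + 2 * (x * e t).re := by
      rw [Complex.sq_norm, Complex.sq_norm, Complex.normSq_apply, Complex.normSq_apply]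
      simp only [Complex.add_re, Complex.add_im, Complex.one_re, Complex.one_im]
      ring
    rw [k2, k1]
  have e3 : av (fun t => (x * e t).re) = 0 := by
    have k1 := av_re (f := fun z => x * z) isOpen_univ (subset_univ _)
      ((by fun_prop : Differentiable ℂ fun z : ℂ => x * z).differentiableOn)
    rw [k1]
    simp
  have e4 : av (fun t => ‖1 + x * e t‖ ^ 2) = 1 + ‖x‖ ^ 2 := by
    rw [av_congr e2, av_add (by fun_prop) (by fun_prop), av_const, av_mul_const, e3]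
    ring
  have e5 : av (fun t => ‖1 + x * e t‖ ^ 2) =
      av (fun t => ‖f.eval (e t) * G (e t)‖ ^ 2) + s * av (fun t => ‖G (e t)‖ ^ 2) := by
    rw [av_congr e1, av_add cA (cB.const_mul s), av_mul_const]
  have nx : ‖x‖ ^ 2 = ρ ^ 2 * ‖h.coeff 1‖ ^ 2 / ‖h.coeff 0‖ ^ 2 := by
    rw [hx, norm_div, norm_mul, norm_neg, Complex.norm_real, Real.norm_eq_abs, div_pow, mul_pow,
      sq_abs]
  have n1 : ‖f.eval 0 * G 0‖ ^ 2 = ‖f.coeff 0‖ ^ 2 / ‖h.coeff 0‖ ^ 2 := by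
    rw [hG0, f00, norm_mul, norm_inv, mul_pow, inv_pow, div_eq_mul_inv]
  have n2 : ‖G 0‖ ^ 2 = 1 / ‖h.coeff 0‖ ^ 2 := by
    rw [hG0, norm_inv, inv_pow, one_div]
  have n3 : ‖deriv G 0‖ ^ 2 = (1 + ρ) ^ 2 * ‖h.coeff 1‖ ^ 2 / (‖h.coeff 0‖ ^ 2) ^ 2 := by
    have k1 : ‖(1 + (ρ : ℂ))‖ = 1 + ρ := by
      have : (1 + (ρ : ℂ)) = ((1 + ρ : ℝ) : ℂ) := by push_cast; ring
      rw [this, Complex.norm_real, Real.norm_eq_abs, abs_of_nonneg (by linarith)]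
    rw [hGder, norm_div, norm_neg, norm_mul, k1, norm_pow, div_pow, mul_pow]
  have key : ‖f.coeff 0‖ ^ 2 / ‖h.coeff 0‖ ^ 2 +
      s * (1 / ‖h.coeff 0‖ ^ 2 + (1 + ρ) ^ 2 * ‖h.coeff 1‖ ^ 2 / (‖h.coeff 0‖ ^ 2) ^ 2) ≤
      1 + ρ ^ 2 * ‖h.coeff 1‖ ^ 2 / ‖h.coeff 0‖ ^ 2 := by
    rw [← n1, ← n3, ← n2, ← nx, ← e4, e5]
    exact add_le_add b1 (mul_le_mul_of_nonneg_left b2 hs.le)
  have m := mul_le_mul_of_nonneg_right key (sq_nonneg (‖h.coeff 0‖ ^ 2))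
  generalize ‖h.coeff 0‖ ^ 2 = H at m hH ⊢
  have hH' : H ≠ 0 := hH.ne'
  have r1 : (‖f.coeff 0‖ ^ 2 / H + s * (1 / H + (1 + ρ) ^ 2 * ‖h.coeff 1‖ ^ 2 / H ^ 2)) * H ^ 2 =
      s * (1 + ρ) ^ 2 * ‖h.coeff 1‖ ^ 2 + (‖f.coeff 0‖ ^ 2 + s) * H := by
    field_simp
    ring
  have r2 : (1 + ρ ^ 2 * ‖h.coeff 1‖ ^ 2 / H) * H ^ 2 =
      H ^ 2 + ρ ^ 2 * ‖h.coeff 1‖ ^ 2 * H := by
    field_simp
  rwa [r1, r2] at m

theorem pick (P : Pair s f h) : s * ‖h.coeff 1‖ ^ 2 ≤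
    (‖h.coeff 0‖ ^ 2 - s) * (‖h.coeff 0‖ ^ 2 - ‖f.coeff 0‖ ^ 2 - s) := by
  have hs := P.pos
  have hH := s_le P
  rcases hH.eq_or_lt with h1 | h1
  · have r := pick_raw P le_rfl
    rw [← h1] at r ⊢
    have k1 : 0 ≤ ‖f.coeff 0‖ ^ 2 * s := by positivity
    nlinarith
  · have r := pick_raw P (ρ := s / (‖h.coeff 0‖ ^ 2 - s)) (by
      have : 0 < ‖h.coeff 0‖ ^ 2 - s := by linarith
      positivity)
    generalize ‖h.coeff 0‖ ^ 2 = H at r h1 ⊢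
    have hd : 0 < H - s := by linarith
    have hH0 : 0 < H := by linarith
    have hd' : H - s ≠ 0 := hd.ne'
    have r3 : s * (1 + s / (H - s)) ^ 2 * ‖h.coeff 1‖ ^ 2 -
        (s / (H - s)) ^ 2 * ‖h.coeff 1‖ ^ 2 * H = s * ‖h.coeff 1‖ ^ 2 * H / (H - s) := by
      field_simp
      ring
    have r4 : s * ‖h.coeff 1‖ ^ 2 * H / (H - s) ≤ H * (H - ‖f.coeff 0‖ ^ 2 - s) := by
      rw [← r3]
      nlinarith
    rw [div_le_iff₀ hd] at r4
    have r5 : H * (s * ‖h.coeff 1‖ ^ 2) ≤ H * ((H - s) * (H - ‖f.coeff 0‖ ^ 2 - s)) := by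
      nlinarith
    exact le_of_mul_le_mul_left r5 hH0

end Pool.Agent.H36.SB
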