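import Pool.Agent.H36.SB.QuadR

/-!
# The sum over the levels `n >= 3`

PROOF. `f_0 = 1`, `f_1 = 0`, `natDegree f < N`, `3 <= N`.
`tt_one`: `tt f N 1 = sum_(1<=j<N) |f_j|^2 = M2 - |f_0|^2` (`poly_parseval`).
`tt_two`: `f_1 = 0`. `mm_two`: for `k >= 1` the conditions `1 <= j+k` and `2 <= j+k` differ only for
`j = 0, k = 1`, where the term is `f_1 conj f_0 = 0`. `tt_three`: `tt f N 2 - |f_2|^2`.
`m4_eq`: for `k >= 1` `C_k := cc f N 1 k = sum_j f_(j+k) conj f_j` (the condition is void), and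
on the circle `|f|^2 = C_0 + 2 Re P`, `C_0 = sum |f_j|^2 = M2` real, `P = sum_(1<=k<N) C_k z^k`.
So `|f|^4 = C_0^2 + 4 C_0 Re P + 4 (Re P)^2`, `4 (Re P)^2 = 2 |P|^2 + 2 Re P^2`; `P(0) = 0`, so
`av Re P = 0`, `av Re P^2 = 0` (`av_re`) and `M4 = C_0^2 + 2 av |P|^2 = M2^2 + 2 mm f N 1`.
With `M2 = 1 + m`, `tt f N 1 = m`: `2 mm f N 1 + tt^2 = M4 - (1+m)^2 + m^2 = M4 - 1 - 2 m`.
`a1_eq`: `A1 = sum_j j |f_j|^2` (`parseval_d`) `= sum_(1<=n<N) tt f N n` (exchange sums,
`#{n in [1,N): n <= j} = j`). `tail_sum`: split off `n = 1, 2` in `quad_sum` and `a1_eq`.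
-/

open Complex MeasureTheory Set Filter Topology Polynomial
open scoped ComplexConjugate Real

namespace Pool.Agent.H36.SB

open Pool.Agent.H97.SIM

variable {f : ℂ[X]} {N : ℕ}

private theorem qb_norm_one (h0 : f.coeff 0 = 1) : ‖f.coeff 0‖ ^ 2 = 1 := by
  rw [h0]
  simp

theorem tt_one (hN : f.natDegree < N) (h0 : f.coeff 0 = 1) :
    tt f N 1 = M2 (pe f) - 1 := by
  have h1 : M2 (pe f) = ∑ j ∈ Finset.range N, ‖f.coeff j‖ ^ 2 := poly_parseval f hN
  obtain ⟨M, rfl⟩ : ∃ M, N = M + 1 := ⟨N - 1, by omega⟩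
  rw [h1]
  unfold tt
  rw [Finset.sum_range_succ', Finset.sum_range_succ', qb_norm_one h0, if_neg (by omega)]
  have h2 : ∀ j ∈ Finset.range M, (if 1 ≤ j + 1 then ‖f.coeff (j + 1)‖ ^ 2 else 0) =
      ‖f.coeff (j + 1)‖ ^ 2 := fun j _ => if_pos (by omega)
  rw [Finset.sum_congr rfl h2]
  ring

theorem tt_two (h1 : f.coeff 1 = 0) : tt f N 2 = tt f N 1 := by
  unfold tt
  refine Finset.sum_congr rfl fun j _ => ?_
  rcases Nat.lt_trichotomy j 1 with h | h | h
  · rw [if_neg (by omega), if_neg (by omega)]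
  · subst h
    rw [if_neg (by omega), if_pos le_rfl, h1]
    simp
  · rw [if_pos (by omega), if_pos (by omega)]

theorem tt_three (hN : f.natDegree < N) (h0 : f.coeff 0 = 1) (h1 : f.coeff 1 = 0) (h3 : 3 ≤ N) :
    tt f N 3 = M2 (pe f) - 1 - ‖f.coeff 2‖ ^ 2 := by
  have e1 : tt f N 2 = tt f N 3 + ‖f.coeff 2‖ ^ 2 := by
    have e2 : ‖f.coeff 2‖ ^ 2 = ∑ j ∈ Finset.range N, if j = 2 then ‖f.coeff j‖ ^ 2 else 0 := by
      rw [Finset.sum_ite_eq' (Finset.range N) 2, if_pos (Finset.mem_range.2 (by omega))]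
    rw [e2]
    unfold tt
    rw [← Finset.sum_add_distrib]
    refine Finset.sum_congr rfl fun j _ => ?_
    rcases Nat.lt_trichotomy j 2 with h | h | h
    · rw [if_neg (by omega), if_neg (by omega), if_neg (by omega)]
      norm_num
    · subst h
      rw [if_pos le_rfl, if_neg (by omega), if_pos rfl]
      ring
    · rw [if_pos (by omega), if_pos (by omega), if_neg (by omega)]
      ring
  rw [tt_two h1, tt_one hN h0] at e1
  linarith

theorem mm_two (h1 : f.coeff 1 = 0) : mm f N 2 = mm f N 1 := by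
  unfold mm
  refine Finset.sum_congr rfl fun k hk => ?_
  rw [Finset.mem_Ico] at hk
  have h2 : cc f N 2 k = cc f N 1 k := by
    unfold cc
    refine Finset.sum_congr rfl fun j _ => ?_
    rcases Nat.lt_trichotomy (j + k) 1 with h | h | h
    · omega
    · rw [if_neg (by omega), if_pos (by omega), h, h1]
      simp
    · rw [if_pos (by omega), if_pos (by omega)]
  rw [h2]

private theorem qb_sym (b : ℕ → ℕ → ℝ) (hb : ∀ i j, b i j = b j i) (N : ℕ) :
    ∑ i ∈ Finset.range N, ∑ j ∈ Finset.range N, b i j =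
      ∑ j ∈ Finset.range N, b j j +
        2 * ∑ j ∈ Finset.range N, ∑ i ∈ Finset.Ico (j + 1) N, b i j := by
  induction N with
  | zero => simp
  | succ N ih =>
    have h1 : ∑ i ∈ Finset.range (N + 1), ∑ j ∈ Finset.range (N + 1), b i j =
        ∑ i ∈ Finset.range N, ∑ j ∈ Finset.range N, b i j + 2 * ∑ j ∈ Finset.range N, b N j +
          b N N := by
      rw [Finset.sum_range_succ]
      have h2 : ∀ i ∈ Finset.range N, ∑ j ∈ Finset.range (N + 1), b i j =
          ∑ j ∈ Finset.range N, b i j + b N i := by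
        intro i _
        rw [Finset.sum_range_succ, hb i N]
      rw [Finset.sum_congr rfl h2, Finset.sum_add_distrib, Finset.sum_range_succ]
      ring
    have h3 : ∑ j ∈ Finset.range (N + 1), ∑ i ∈ Finset.Ico (j + 1) (N + 1), b i j =
        ∑ j ∈ Finset.range N, ∑ i ∈ Finset.Ico (j + 1) N, b i j + ∑ j ∈ Finset.range N, b N j := by
      rw [Finset.sum_range_succ, Finset.Ico_self, Finset.sum_empty, add_zero,
        ← Finset.sum_add_distrib]
      refine Finset.sum_congr rfl fun j hj => ?_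
      rw [Finset.mem_range] at hj
      rw [Finset.sum_Ico_succ_top (by omega)]
    rw [h1, h3, ih, Finset.sum_range_succ]
    ring

private theorem qb_shift (g : ℕ → ℂ) {j N : ℕ} (_ : j < N) (hg : ∀ i, N ≤ i → g i = 0) :
    ∑ i ∈ Finset.Ico (j + 1) N, g i = ∑ k ∈ Finset.Ico 1 N, g (j + k) := by
  rw [Finset.sum_Ico_add (fun i => g i) 1 N j]
  have h1 : 1 + j = j + 1 := by omega
  rw [h1]
  refine Finset.sum_subset ?_ ?_
  · intro i hi
    rw [Finset.mem_Ico] at hi ⊢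
    omega
  · intro i hi hi2
    rw [Finset.mem_Ico] at hi hi2
    exact hg i (by omega)

/-- the polynomial of the correlations -/
private noncomputable def qbP (f : ℂ[X]) (N : ℕ) : ℂ[X] :=
  ∑ k ∈ Finset.Ico 1 N, monomial k (cc f N 1 k)

private theorem qbP_coeff (f : ℂ[X]) (N m : ℕ) :
    (qbP f N).coeff m = if m ∈ Finset.Ico 1 N then cc f N 1 m else 0 := by
  unfold qbP
  rw [finsetSum_coeff]
  simp only [coeff_monomial]
  rw [Finset.sum_ite_eq' (Finset.Ico 1 N) m]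

private theorem qbP_deg (f : ℂ[X]) {N : ℕ} (hN : 0 < N) : (qbP f N).natDegree < N := by
  have h1 : (qbP f N).natDegree ≤ N - 1 := by
    rw [natDegree_le_iff_coeff_eq_zero]
    intro m hm
    rw [qbP_coeff, if_neg]
    rw [Finset.mem_Ico]
    omega
  omega

private theorem qb_mono (f : ℂ[X]) (t : ℝ) (j k : ℕ) :
    conj (f.coeff j * e t ^ j) * (f.coeff (j + k) * e t ^ (j + k)) =
      f.coeff (j + k) * conj (f.coeff j) * e t ^ k := by
  have h1 : conj (e t) * e t = 1 := by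
    rw [Complex.conj_mul', norm_e]
    norm_num
  have h2 : conj (e t) ^ j * e t ^ j = 1 := by
    rw [← mul_pow, h1, one_pow]
  rw [map_mul, map_pow, pow_add]
  linear_combination (conj (f.coeff j) * f.coeff (j + k) * e t ^ k) * h2

private theorem qb_cc (f : ℂ[X]) (N : ℕ) {k : ℕ} (hk : 1 ≤ k) :
    cc f N 1 k = ∑ j ∈ Finset.range N, f.coeff (j + k) * conj (f.coeff j) := by
  unfold cc
  refine Finset.sum_congr rfl fun j _ => ?_
  rw [if_pos (by omega)]

private theorem qb_point (hN : f.natDegree < N) (t : ℝ) :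
    ‖pe f t‖ ^ 2 = M2 (pe f) + 2 * (pe (qbP f N) t).re := by
  have hM : M2 (pe f) = ∑ j ∈ Finset.range N, ‖f.coeff j‖ ^ 2 := poly_parseval f hN
  have h0 : pe f t = ∑ i ∈ Finset.range N, f.coeff i * e t ^ i := by
    unfold pe
    exact eval_eq_sum_range' hN (e t)
  have h1 : ‖pe f t‖ ^ 2 = ∑ i ∈ Finset.range N, ∑ j ∈ Finset.range N,
      (conj (f.coeff j * e t ^ j) * (f.coeff i * e t ^ i)).re := by
    have h2 : ((‖pe f t‖ ^ 2 : ℝ) : ℂ) = ∑ i ∈ Finset.range N, ∑ j ∈ Finset.range N,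
        (conj (f.coeff j * e t ^ j) * (f.coeff i * e t ^ i)) := by
      push_cast
      rw [← Complex.conj_mul', h0, map_sum, Finset.sum_mul, Finset.sum_comm]
      refine Finset.sum_congr rfl fun j _ => ?_
      rw [Finset.mul_sum]
    have h3 := congrArg Complex.re h2
    rw [ofReal_re] at h3
    rw [h3]
    simp only [Complex.re_sum]
  have hsym : ∀ i j : ℕ, (conj (f.coeff j * e t ^ j) * (f.coeff i * e t ^ i)).re =
      (conj (f.coeff i * e t ^ i) * (f.coeff j * e t ^ j)).re := by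
    intro i j
    have h4 : conj (f.coeff j * e t ^ j) * (f.coeff i * e t ^ i) =
        conj (conj (f.coeff i * e t ^ i) * (f.coeff j * e t ^ j)) := by
      simp only [map_mul, Complex.conj_conj]
      ring
    rw [h4, conj_re]
  rw [h1, qb_sym (fun i j => (conj (f.coeff j * e t ^ j) * (f.coeff i * e t ^ i)).re) hsym N, hM]
  have h5 : ∀ j ∈ Finset.range N,
      (conj (f.coeff j * e t ^ j) * (f.coeff j * e t ^ j)).re = ‖f.coeff j‖ ^ 2 := by
    intro j _
    have h6 := qb_mono f t j 0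
    rw [add_zero] at h6
    rw [h6, pow_zero, mul_one, mul_comm, Complex.conj_mul']
    norm_cast
  have h7 : ∑ j ∈ Finset.range N, ∑ i ∈ Finset.Ico (j + 1) N,
      (conj (f.coeff j * e t ^ j) * (f.coeff i * e t ^ i)).re = (pe (qbP f N) t).re := by
    have h8 : pe (qbP f N) t = ∑ j ∈ Finset.range N, ∑ i ∈ Finset.Ico (j + 1) N,
        (conj (f.coeff j * e t ^ j) * (f.coeff i * e t ^ i)) := by
      unfold pe qbP
      rw [eval_finsetSum]
      have h9 : ∀ k ∈ Finset.Ico 1 N, eval (e t) (monomial k (cc f N 1 k)) =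
          ∑ j ∈ Finset.range N, f.coeff (j + k) * conj (f.coeff j) * e t ^ k := by
        intro k hk
        rw [Finset.mem_Ico] at hk
        rw [eval_monomial, qb_cc f N hk.1, Finset.sum_mul]
      rw [Finset.sum_congr rfl h9, Finset.sum_comm]
      refine Finset.sum_congr rfl fun j hj => ?_
      rw [Finset.mem_range] at hj
      rw [qb_shift (fun i => conj (f.coeff j * e t ^ j) * (f.coeff i * e t ^ i)) hj]
      · refine Finset.sum_congr rfl fun k _ => ?_
        exact (qb_mono f t j k).symm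
      · intro i hi
        show conj (f.coeff j * e t ^ j) * (f.coeff i * e t ^ i) = 0
        rw [coeff_eq_zero_of_natDegree_lt (lt_of_lt_of_le hN hi), zero_mul, mul_zero]
    rw [h8]
    simp only [Complex.re_sum]
  rw [Finset.sum_congr rfl h5, h7]

private theorem qb_av_zero (p : ℂ[X]) : av (fun t => (pe p t).re) = (p.coeff 0).re := by
  have h1 : av (fun t => ((fun z => p.eval z) (e t)).re) = ((fun z => p.eval z) 0).re := by
    exact av_re (U := univ) isOpen_univ (subset_univ _) (f := fun z => p.eval z)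
      p.differentiable.differentiableOn
  have h2 : p.eval 0 = p.coeff 0 := (coeff_zero_eq_eval_zero p).symm
  rw [← h2]
  exact h1

theorem m4_eq (hN : f.natDegree < N) : M4 (pe f) = M2 (pe f) ^ 2 + 2 * mm f N 1 := by
  have h0 : (qbP f N).coeff 0 = 0 := by
    rw [qbP_coeff, if_neg]
    rw [Finset.mem_Ico]
    omega
  have h1 : ∀ t, ‖pe f t‖ ^ 4 = (M2 (pe f) ^ 2 + 2 * ‖pe (qbP f N) t‖ ^ 2) +
      (pe (C ((4 * M2 (pe f) : ℝ) : ℂ) * qbP f N + C 2 * (qbP f N * qbP f N)) t).re := by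
    intro t
    have h2 : ‖pe f t‖ ^ 4 = (‖pe f t‖ ^ 2) ^ 2 := by ring
    rw [h2, qb_point hN t]
    have h3 : pe (C ((4 * M2 (pe f) : ℝ) : ℂ) * qbP f N + C 2 * (qbP f N * qbP f N)) t =
        ((4 * M2 (pe f) : ℝ) : ℂ) * pe (qbP f N) t + 2 * (pe (qbP f N) t * pe (qbP f N) t) := by
      simp only [pe, eval_add, eval_mul, eval_C]
    rw [h3, Complex.sq_norm, Complex.normSq_apply, add_re, Complex.re_ofReal_mul, mul_re, mul_re]
    simp only [re_ofNat, im_ofNat, zero_mul, sub_zero]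
    ring
  have h4 : M4 (pe f) = av (fun t => (M2 (pe f) ^ 2 + 2 * ‖pe (qbP f N) t‖ ^ 2) +
      (pe (C ((4 * M2 (pe f) : ℝ) : ℂ) * qbP f N + C 2 * (qbP f N * qbP f N)) t).re) :=
    av_congr h1
  have c1 : Continuous fun t => ‖pe (qbP f N) t‖ ^ 2 := (continuous_pe _).norm.pow 2
  have c2 : Continuous fun t => 2 * ‖pe (qbP f N) t‖ ^ 2 := continuous_const.mul c1
  rw [h4, av_add (f := fun t => M2 (pe f) ^ 2 + 2 * ‖pe (qbP f N) t‖ ^ 2)
    (g := fun t => (pe (C ((4 * M2 (pe f) : ℝ) : ℂ) * qbP f N + C 2 * (qbP f N * qbP f N)) t).re)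
    (continuous_const.add c2) (Complex.continuous_re.comp (continuous_pe _)),
    av_add (f := fun _ => M2 (pe f) ^ 2) (g := fun t => 2 * ‖pe (qbP f N) t‖ ^ 2)
    continuous_const c2, av_const, av_mul_const, qb_av_zero,
    poly_parseval (qbP f N) (qbP_deg f (by omega))]
  have h5 : (C ((4 * M2 (pe f) : ℝ) : ℂ) * qbP f N + C 2 * (qbP f N * qbP f N)).coeff 0 = 0 := by
    rw [coeff_add, mul_coeff_zero, mul_coeff_zero, mul_coeff_zero, h0]
    simp
  have h6 : ∑ j ∈ Finset.range N, ‖(qbP f N).coeff j‖ ^ 2 = mm f N 1 := by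
    unfold mm
    rw [Finset.range_eq_Ico, Finset.sum_eq_sum_Ico_succ_bot (by omega), h0]
    have h7 : ∀ j ∈ Finset.Ico (0 + 1) N, ‖(qbP f N).coeff j‖ ^ 2 = ‖cc f N 1 j‖ ^ 2 := by
      intro j hj
      rw [qbP_coeff, if_pos]
      simpa using hj
    rw [Finset.sum_congr rfl h7]
    simp
  rw [h5, h6]
  simp

theorem a1_eq (hN : f.natDegree < N) :
    ∑ n ∈ Finset.Ico 1 N, tt f N n = A1 (pe f) (pd f) := by
  have h1 : A1 (pe f) (pd f) = ∑ m ∈ Finset.range N, (m : ℝ) * ‖f.coeff m‖ ^ 2 :=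
    parseval_d f hN
  rw [h1]
  unfold tt
  rw [Finset.sum_comm]
  refine Finset.sum_congr rfl fun j hj => ?_
  rw [Finset.mem_range] at hj
  rw [← Finset.sum_filter, Finset.sum_const, nsmul_eq_mul]
  congr 1
  have h2 : (Finset.Ico 1 N).filter (fun n => n ≤ j) = Finset.Ico 1 (j + 1) := by
    ext n
    rw [Finset.mem_filter, Finset.mem_Ico, Finset.mem_Ico]
    omega
  rw [h2, Nat.card_Ico]
  simp

theorem tail_sum (s : ℝ) (hN : f.natDegree < N) (h0 : f.coeff 0 = 1) (h1 : f.coeff 1 = 0)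
    (h3 : 3 ≤ N) :
    ∑ n ∈ Finset.Ico 3 N, (tt f N n / s - (2 * mm f N n + tt f N n ^ 2) / (2 * s ^ 2)) =
      (A1 (pe f) (pd f) - 2 * (M2 (pe f) - 1)) / s -
      (A2 (pe f) (pd f) - 2 * (M4 (pe f) - 1 - 2 * (M2 (pe f) - 1))) / (2 * s ^ 2) := by
  have split : ∀ g : ℕ → ℝ, ∑ n ∈ Finset.Ico 1 N, g n =
      g 1 + (g 2 + ∑ n ∈ Finset.Ico 3 N, g n) := by
    intro g
    rw [Finset.sum_eq_sum_Ico_succ_bot (by omega), Finset.sum_eq_sum_Ico_succ_bot (by omega)]
  have e1 := a1_eq (f := f) (N := N) hN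
  have e2 := quad_sum f N hN
  rw [split, tt_two h1, tt_one hN h0] at e1
  rw [split, tt_two h1, mm_two h1, tt_one hN h0] at e2
  have e3 := m4_eq (f := f) (N := N) hN
  rw [Finset.sum_sub_distrib, ← Finset.sum_div, ← Finset.sum_div]
  have e4 : ∑ n ∈ Finset.Ico 3 N, tt f N n = A1 (pe f) (pd f) - 2 * (M2 (pe f) - 1) := by
    linarith
  have e5 : ∑ n ∈ Finset.Ico 3 N, (2 * mm f N n + tt f N n ^ 2) =
      A2 (pe f) (pd f) - 2 * (M4 (pe f) - 1 - 2 * (M2 (pe f) - 1)) := by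
    nlinarith
  rw [e4, e5]

end Pool.Agent.H36.SB
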