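import Pool.Agent.H36.SB.Defs
import Pool.Agent.H97.SIM.PairA
import Pool.Agent.H97.SIM.FRa

/-!
# Iterated Schur steps

`zero`: `a = 1`, `b = 0`, `w = 1` (clear).

PROOF of `next`. Let `w'` be from `S.eq2` and `c = cosh T`, `σ = sinh T`, `μ = w * w'`, `|μ| = 1`.
For a polynomial `p` let `p^♭ = reflect n (p.map conj)` (`p^♭_j = conj p_(n-j)`); for
`natDegree p <= n` one has `p^♭(z) = z^n conj (p z)` for `|z| = 1` (`eval_reflect_conj`
in `H97/SIM/FRa.lean`; `poly_ext_circle` is there too). Put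
`a' = c a + σ μ b^♭`, `b' = c b + σ μ a^♭`. On the circle
`z^(n+1) f1 = z^n (c fn - σ w hn)` (`ef`) `= c (a f - b h) - σ w w' z^n (conj a h - conj b f)
= c (a f - b h) - σ μ (a^♭ h - b^♭ f) = a' f - b' h`; two polynomials which agree on the circle are
equal. `dega`: `natDegree (reflect n p) <= n` for `natDegree p <= n`. `degb`: for `j >= n+1`
`b_j = 0`, `a^♭_j = 0`. `lead`: `b^♭_0 = conj b_n = 0`, so `a'_0 = c a_0`; and `X * f1` has
constant coefficient `0`: `c fn_0 = σ w hn_0`, so `h1_0 = c w hn_0 - σ fn_0 =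
w hn_0 (c - σ^2 / c) = w hn_0 / c`; hence `|a'_0| |h1_0| = |a_0| |hn_0| = |h_0|`.
`eq2` with `w'' = μ`: `h1 = c w hn - σ fn = c w w' (conj a h - conj b f) - σ conj z^n (a f - b h)
= h (c μ conj a + σ conj z^n b) - f (c μ conj b + σ conj z^n a)`, and
`μ conj a' = c μ conj a + σ conj (b^♭) = c μ conj a + σ conj z^n b` (`|μ| = 1`), similarly `b'`.
`det`: `|a'|^2 - |b'|^2 = |c a + σ μ z^n conj b|^2 - |c b + σ μ z^n conj a|^2 =
(c^2 - σ^2) (|a|^2 - |b|^2) = 1` (the cross terms are equal).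
`deg`: `natDegree f1 <= natDegree fn - 1`.
-/

open Complex MeasureTheory Set Filter Topology Polynomial
open scoped ComplexConjugate Real

namespace Pool.Agent.H36.SB

open Pool.Agent.H97.SIM

variable {s : ℝ} {f h : ℂ[X]}

private lemma exists_e {z : ℂ} (hz : ‖z‖ = 1) : ∃ t : ℝ, e t = z := by
  refine ⟨Complex.arg z, ?_⟩
  have := Complex.norm_mul_exp_arg_mul_I z
  rw [hz] at this
  simpa [e] using this

private lemma norm_e' (t : ℝ) : ‖e t‖ = 1 := by
  unfold e
  exact Complex.norm_exp_ofReal_mul_I t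

private lemma conj_mul_one {z : ℂ} (hz : ‖z‖ = 1) : conj z * z = 1 := by
  rw [mul_comm, Complex.mul_conj, Complex.normSq_eq_norm_sq, hz]
  norm_num

private lemma reflect_deg {p : ℂ[X]} {n : ℕ} (hp : p.natDegree ≤ n) :
    ((p.map (starRingEnd ℂ)).reflect n).natDegree ≤ n :=
  natDegree_reflect_le.trans (max_le le_rfl (natDegree_map_le.trans hp))

private lemma norm_aux (c σ : ℝ) (hcs : c ^ 2 - σ ^ 2 = 1) (x y ν : ℂ) (hν : ‖ν‖ = 1) :
    ‖(c : ℂ) * x + (σ : ℂ) * ν * conj y‖ ^ 2 - ‖(c : ℂ) * y + (σ : ℂ) * ν * conj x‖ ^ 2 =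
      ‖x‖ ^ 2 - ‖y‖ ^ 2 := by
  have h1 : ν.re * ν.re + ν.im * ν.im = 1 := by
    rw [← Complex.normSq_apply, Complex.normSq_eq_norm_sq, hν, one_pow]
  rw [← Complex.normSq_eq_norm_sq, ← Complex.normSq_eq_norm_sq, ← Complex.normSq_eq_norm_sq,
    ← Complex.normSq_eq_norm_sq, Complex.normSq_apply, Complex.normSq_apply,
    Complex.normSq_apply, Complex.normSq_apply]
  simp only [add_re, add_im, mul_re, mul_im, ofReal_re, ofReal_im, conj_re, conj_im, zero_mul,
    sub_zero, add_zero]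
  linear_combination ((x.re * x.re + x.im * x.im) - (y.re * y.re + y.im * y.im)) * hcs -
    σ ^ 2 * ((x.re * x.re + x.im * x.im) - (y.re * y.re + y.im * y.im)) * h1

theorem Sch.zero (P : Pair s f h) : Sch s f h 0 1 0 f h := by
  refine ⟨P, ?_, ?_, ?_, ⟨1, norm_one, ?_⟩, ?_, ?_, ?_⟩
  · simp
  · simp
  · intro j _
    simp
  · intro t
    simp
  · intro t
    simp
  · simp
  · simp

theorem Sch.next {n : ℕ} {a b fn hn f1 h1 : ℂ[X]} {w : ℂ} {T : ℝ} (S : Sch s f h n a b fn hn)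
    (H : Stp s fn hn w T f1 h1) : ∃ a' b' : ℂ[X], Sch s f h (n + 1) a' b' f1 h1 := by
  obtain ⟨w', hw', heq2⟩ := S.eq2
  obtain ⟨c, hc⟩ : ∃ c : ℝ, c = Real.cosh T := ⟨_, rfl⟩
  obtain ⟨σ, hσ⟩ : ∃ σ : ℝ, σ = Real.sinh T := ⟨_, rfl⟩
  have hcs : c ^ 2 - σ ^ 2 = 1 := by
    have h1 := Real.cosh_sq T
    rw [hc, hσ]
    linarith
  have hcpos : 0 < c := by rw [hc]; exact Real.cosh_pos T
  have hef := H.ef
  have heh := H.eh
  rw [← hc, ← hσ] at hef heh
  have hw := H.nw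
  obtain ⟨μ, hμ⟩ : ∃ μ : ℂ, μ = w * w' := ⟨_, rfl⟩
  have hμ1 : ‖μ‖ = 1 := by rw [hμ, norm_mul, hw, hw', one_mul]
  have hbdeg : b.natDegree ≤ n := by
    rw [natDegree_le_iff_coeff_eq_zero]
    intro N hN
    exact S.degb N hN.le
  obtain ⟨ra, hra⟩ : ∃ r : ℂ[X], r = (a.map (starRingEnd ℂ)).reflect n := ⟨_, rfl⟩
  obtain ⟨rb, hrb⟩ : ∃ r : ℂ[X], r = (b.map (starRingEnd ℂ)).reflect n := ⟨_, rfl⟩
  have era : ∀ {z : ℂ}, ‖z‖ = 1 → ra.eval z = z ^ n * conj (a.eval z) := fun {z} hz => by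
    rw [hra]
    exact eval_reflect_conj S.dega hz
  have erb : ∀ {z : ℂ}, ‖z‖ = 1 → rb.eval z = z ^ n * conj (b.eval z) := fun {z} hz => by
    rw [hrb]
    exact eval_reflect_conj hbdeg hz
  have dra : ra.natDegree ≤ n := by
    rw [hra]
    exact reflect_deg S.dega
  have drb : rb.natDegree ≤ n := by
    rw [hrb]
    exact reflect_deg hbdeg
  have ea' : ∀ {z : ℂ}, ‖z‖ = 1 → (C (c : ℂ) * a + C ((σ : ℂ) * μ) * rb).eval z =
      (c : ℂ) * a.eval z + (σ : ℂ) * (μ * z ^ n) * conj (b.eval z) := fun {z} hz => by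
    rw [eval_add, eval_mul, eval_mul, eval_C, eval_C, erb hz]
    ring
  have eb' : ∀ {z : ℂ}, ‖z‖ = 1 → (C (c : ℂ) * b + C ((σ : ℂ) * μ) * ra).eval z =
      (c : ℂ) * b.eval z + (σ : ℂ) * (μ * z ^ n) * conj (a.eval z) := fun {z} hz => by
    rw [eval_add, eval_mul, eval_mul, eval_C, eval_C, era hz]
    ring
  refine ⟨C (c : ℂ) * a + C ((σ : ℂ) * μ) * rb, C (c : ℂ) * b + C ((σ : ℂ) * μ) * ra, ?_⟩
  refine ⟨H.pair, ?_, ?_, ?_, ⟨μ, hμ1, ?_⟩, ?_, ?_, ?_⟩
  · apply poly_ext_circle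
    intro z hz
    obtain ⟨t, rfl⟩ := exists_e hz
    have k1 := congrArg (fun p => eval (e t) p) S.eq1
    have k2 := congrArg (fun p => eval (e t) p) hef
    have k3 := heq2 t
    simp only [eval_sub, eval_mul, eval_pow, eval_X, eval_C] at k1 k2
    rw [eval_sub, eval_mul, eval_mul, eval_mul, ea' hz, eb' hz, eval_pow, eval_X, hμ, pow_succ]
    rw [k3] at k2
    linear_combination (c : ℂ) * k1 - (e t) ^ n * k2
  · refine (natDegree_add_le _ _).trans (max_le ?_ ?_)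
    · exact (natDegree_C_mul_le _ _).trans (S.dega.trans (Nat.le_succ n))
    · exact (natDegree_C_mul_le _ _).trans (drb.trans (Nat.le_succ n))
  · intro j hj
    rw [coeff_add, coeff_C_mul, coeff_C_mul, S.degb j (by omega),
      coeff_eq_zero_of_natDegree_lt (lt_of_le_of_lt dra (by omega)), mul_zero, mul_zero, add_zero]
  · intro t
    have hz := norm_e' t
    have k1 := congrArg (fun p => eval (e t) p) S.eq1
    have k2 := congrArg (fun p => eval (e t) p) heh
    have k3 := heq2 t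
    simp only [eval_sub, eval_mul, eval_pow, eval_X, eval_C] at k1 k2
    have hm := conj_mul_one hμ1
    have hzn : conj (e t ^ n) * e t ^ n = 1 := conj_mul_one (by rw [norm_pow, hz, one_pow])
    rw [ea' hz, eb' hz, k2, k3]
    simp only [map_add, map_mul, Complex.conj_ofReal, Complex.conj_conj]
    rw [hμ] at hm ⊢
    simp only [map_mul] at hm ⊢
    have hfn : fn.eval (e t) = conj (e t ^ n) * (a.eval (e t) * f.eval (e t) -
        b.eval (e t) * h.eval (e t)) := by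
      rw [k1, ← mul_assoc, hzn, one_mul]
    rw [hfn]
    linear_combination (-(σ : ℂ) * conj (e t ^ n) * (b.eval (e t) * h.eval (e t) -
      a.eval (e t) * f.eval (e t))) * hm
  · intro t
    have hz := norm_e' t
    rw [ea' hz, eb' hz, norm_aux c σ hcs _ _ _ (by rw [norm_mul, norm_pow, hz, hμ1, one_pow,
      one_mul])]
    exact S.det t
  · have l1 := congrArg (fun p => coeff p 0) hef
    have l2 := congrArg (fun p => coeff p 0) heh
    simp only [coeff_sub, mul_coeff_zero, coeff_C_zero, coeff_X_zero, zero_mul] at l1 l2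
    have l3 : (C (c : ℂ) * a + C ((σ : ℂ) * μ) * rb).coeff 0 = (c : ℂ) * a.coeff 0 := by
      rw [coeff_add, coeff_C_mul, coeff_C_mul]
      have l4 : rb.coeff 0 = 0 := by
        rw [hrb, coeff_reflect, revAt_le (Nat.zero_le n), Nat.sub_zero, coeff_map,
          S.degb n le_rfl, map_zero]
      rw [l4, mul_zero, add_zero]
    have hcs' : (c : ℂ) ^ 2 - (σ : ℂ) ^ 2 = 1 := by
      exact_mod_cast congrArg (fun x : ℝ => (x : ℂ)) hcs
    have l5 : (c : ℂ) * h1.coeff 0 = w * hn.coeff 0 := by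
      rw [l2]
      linear_combination (w * hn.coeff 0) * hcs' + (σ : ℂ) * l1
    have l6 : c * ‖h1.coeff 0‖ = ‖hn.coeff 0‖ := by
      have := congrArg norm l5
      rw [norm_mul, norm_mul, hw, one_mul, Complex.norm_real, Real.norm_eq_abs,
        abs_of_pos hcpos] at this
      exact this
    rw [l3, norm_mul, Complex.norm_real, Real.norm_eq_abs, abs_of_pos hcpos, ← S.lead, ← l6]
    ring
  · have := H.deg
    have := S.deg
    omega

end Pool.Agent.H36.SB
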