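import Pool.Agent.H36.SB.TrB
import Pool.Agent.H36.SB.SchN

/-!
# Summation over the Schur steps

PROOF by induction on `k`. If `k = 0`: `N <= n`, so `natDegree fn <= natDegree f - n = 0` and
`Ig fn = 0` (`Ig_const'`); the interval `Ico (n+1) N` is empty. Step: take `(f1, h1)` from
`exists_stp` for the pair `(fn, hn)` and `Sch.next`: `Sch s f h (n+1) a' b' f1 h1`;
`Ig fn = log (|h1_0|^2 / s) + Ig f1`, the first term is at least the summand with `j = n+1`
(`tau_ge`), the second one at least the sum over `Ico (n+2) N` (induction). If `n + 1 >= N` the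
sum is empty and the claim is `Ig_nonneg`.
-/

open Complex MeasureTheory Set Filter Topology Polynomial
open scoped ComplexConjugate Real

namespace Pool.Agent.H36.SB

open Pool.Agent.H97.SIM

variable {s : ℝ} {f h : ℂ[X]}

theorem sum_ge (P : Pair s f h) {N : ℕ} (hN : f.natDegree < N) (k : ℕ) :
    ∀ (n : ℕ) (a b fn hn : ℂ[X]), N ≤ n + k → Sch s f h n a b fn hn →
      ∑ j ∈ Finset.Ico (n + 1) N, (tt f N j / s - (2 * mm f N j + tt f N j ^ 2) / (2 * s ^ 2)) ≤
        Ig s (pe fn) (pd fn) := by
  induction k with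
  | zero =>
    intro n a b fn hn hNk S
    have h0 : fn.natDegree = 0 := by
      have := S.deg
      omega
    rw [Ig_const' h0, Finset.Ico_eq_empty_of_le (by omega), Finset.sum_empty]
  | succ k ih =>
    intro n a b fn hn hNk S
    by_cases hn1 : N ≤ n + 1
    · rw [Finset.Ico_eq_empty_of_le hn1, Finset.sum_empty]
      exact Ig_nonneg S.pair
    · have hn2 : n + 1 < N := by omega
      obtain ⟨w, T, f1, h1, H⟩ := exists_stp S.pair
      obtain ⟨a', b', S'⟩ := S.next H
      have h2 := ih (n + 1) a' b' f1 h1 (by omega) S'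
      have h3 := tau_ge P S' hN
      rw [H.ig, Finset.sum_eq_sum_Ico_succ_bot hn2]
      linarith

end Pool.Agent.H36.SB
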