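import Pool.Agent.H36.SB.GamA
import Pool.Agent.H36.SB.GamC
import Pool.Agent.H36.SB.Pick
import Pool.Agent.H36.SB.SumT
import Pool.Agent.H36.SB.QuadB
import Pool.Agent.H97.SIM.FR

/-!
# The core inequality for polynomials

PROOF. Let `(f, h)` be a pair (`exists_pair` from `H97/SIM/FR.lean`), `E = exp (Lg s f) = |h_0|^2`
(`Pair.logmean`). Two steps `(f,h) -> (f1,g1) -> (f2,g2)` (`exists_stp`), `Sch.zero`, `Sch.next`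
twice: `Sch s f h 2 a b f2 g2`. `|g1_0|^2 = E - 1`, `H2 = |g2_0|^2 = |g1_0|^2 - |f1_0|^2 =
(E - 1) (1 - γ1^2)` with `γ1 = |f1_0| / |g1_0|`, `Ig f = log ((E-1)/s) + log (H2/s) + Ig f2`.
Let `N = max (natDegree f + 1) 3`. `sum_ge` (with `n = 2`, `k = N`) and `tail_sum`:
`Ig f2 >= (A1 - 2 m)/s - (A2 - 2 (M4 - 1 - 2 m)) / (2 s^2)`, `m = M2 - 1`.
`log (H2/s) >= log ((E-1)/s) - KB`: `gam_real` with `γ2 = |f2_0|/|g2_0|`, `q = |g2_1|/|g2_0|`,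
`om = tt f N 3 = M2 - 1 - |f_2|^2` (`tt_three`): `hA` is `gamA`; `hP`: `pick` for `(f2, g2)`
divided by `H2`: `s q^2 <= (1 - s/H2) (H2 - |f2_0|^2 - s) <= (1 - s/H2) om` (`gamB`);
`h2`: `H2 - |f2_0|^2 = |g3_0|^2 >= s` for the third step (`exists_stp`, `s_le`), divided by `H2`;
`ht`: `Ig f2 >= 0` (`Ig_nonneg`), so `log ((E-1)/s) + log (H2/s) <= Ig f <= log E - log s + δ`;
`hE`: `one_add_le`, `hsH`: `s_le`.
-/

open Complex MeasureTheory Set Filter Topology Polynomial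
open scoped ComplexConjugate Real

namespace Pool.Agent.H36.SB

open Pool.Agent.H97.SIM

theorem core3 {s : ℝ} (hs : 0 < s) {f : ℂ[X]} (h0 : f.coeff 0 = 1) (h1 : f.coeff 1 = 0) {δ : ℝ}
    (hδ : 0 ≤ δ) (hI : Ig s (pe f) (pd f) ≤ Lg s (pe f) - Real.log s + δ) :
    1 + s ≤ Real.exp (Lg s (pe f)) ∧
    2 * Real.log ((Real.exp (Lg s (pe f)) - 1) / s) -
      KB s (Real.exp (Lg s (pe f))) δ (M2 (pe f) - 1 - ‖f.coeff 2‖ ^ 2) +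
      (A1 (pe f) (pd f) - 2 * (M2 (pe f) - 1)) / s -
      (A2 (pe f) (pd f) - 2 * (M4 (pe f) - 1 - 2 * (M2 (pe f) - 1))) / (2 * s ^ 2) ≤
      Ig s (pe f) (pd f) := by
  obtain ⟨h, P⟩ := exists_pair f hs
  have hE1 : 1 + s ≤ ‖h.coeff 0‖ ^ 2 := one_add_le P h0
  have hE0 : 0 < ‖h.coeff 0‖ ^ 2 := by linarith
  have hL : Lg s (pe f) = Real.log (‖h.coeff 0‖ ^ 2) := P.logmean
  have hexp : Real.exp (Lg s (pe f)) = ‖h.coeff 0‖ ^ 2 := by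
    rw [hL, Real.exp_log hE0]
  rw [hexp]
  refine ⟨hE1, ?_⟩
  obtain ⟨w1, T1, f1, g1, S1⟩ := exists_stp P
  obtain ⟨w2, T2, f2, g2, S2⟩ := exists_stp S1.pair
  obtain ⟨w3, T3, f3, g3, S3⟩ := exists_stp S2.pair
  obtain ⟨a1, b1, C1⟩ := (Sch.zero P).next S1
  obtain ⟨a2, b2, C2⟩ := C1.next S2
  obtain ⟨N, hN, hN3⟩ : ∃ N : ℕ, f.natDegree < N ∧ 3 ≤ N :=
    ⟨max (f.natDegree + 1) 3, lt_of_lt_of_le (Nat.lt_succ_self _) (le_max_left _ _),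
      le_max_right _ _⟩
  have hsum := sum_ge P hN N 2 a2 b2 f2 g2 (by omega) C2
  rw [show 2 + 1 = 3 from rfl, tail_sum s hN h0 h1 hN3] at hsum
  have hom := tt_three hN h0 h1 hN3
  have hg1 : ‖g1.coeff 0‖ ^ 2 = ‖h.coeff 0‖ ^ 2 - 1 := by
    rw [S1.c0, h0, norm_one, one_pow]
  have hg10 : 0 < ‖g1.coeff 0‖ ^ 2 := by rw [hg1]; linarith
  have hg2s : s ≤ ‖g2.coeff 0‖ ^ 2 := s_le S2.pair
  have hg20 : 0 < ‖g2.coeff 0‖ ^ 2 := lt_of_lt_of_le hs hg2s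
  have hg3s : s ≤ ‖g3.coeff 0‖ ^ 2 := s_le S3.pair
  have n1 : ‖g1.coeff 0‖ ≠ 0 := by
    intro hc
    rw [hc] at hg10
    norm_num at hg10
  have n2 : ‖g2.coeff 0‖ ≠ 0 := by
    intro hc
    rw [hc] at hg20
    norm_num at hg20
  have hB := gamB S1 S2 hN
  rw [hom] at hB
  have hH2 : ‖g2.coeff 0‖ ^ 2 = (‖h.coeff 0‖ ^ 2 - 1) *
      (1 - (‖f1.coeff 0‖ / ‖g1.coeff 0‖) ^ 2) := by
    rw [S2.c0, ← hg1, div_pow]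
    field_simp
  have h3 : ‖g3.coeff 0‖ ^ 2 = ‖g2.coeff 0‖ ^ 2 - ‖f2.coeff 0‖ ^ 2 := S3.c0
  have hPick := pick S2.pair
  have hpos : 0 ≤ 1 - s / ‖g2.coeff 0‖ ^ 2 := by
    rw [sub_nonneg, div_le_one hg20]
    exact hg2s
  have hP : s * (‖g2.coeff 1‖ / ‖g2.coeff 0‖) ^ 2 ≤ (1 - s / ‖g2.coeff 0‖ ^ 2) *
      (M2 (pe f) - 1 - ‖f.coeff 2‖ ^ 2) := by
    have e1 : s * (‖g2.coeff 1‖ / ‖g2.coeff 0‖) ^ 2 ≤ (1 - s / ‖g2.coeff 0‖ ^ 2) *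
        (‖g2.coeff 0‖ ^ 2 - ‖f2.coeff 0‖ ^ 2 - s) := by
      rw [div_pow, ← mul_div_assoc, div_le_iff₀ hg20]
      have e2 : (1 - s / ‖g2.coeff 0‖ ^ 2) * (‖g2.coeff 0‖ ^ 2 - ‖f2.coeff 0‖ ^ 2 - s) *
          ‖g2.coeff 0‖ ^ 2 = (‖g2.coeff 0‖ ^ 2 - s) *
          (‖g2.coeff 0‖ ^ 2 - ‖f2.coeff 0‖ ^ 2 - s) := by
        field_simp
      rw [e2]
      exact hPick
    exact e1.trans (mul_le_mul_of_nonneg_left hB hpos)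
  have h2 : (‖f2.coeff 0‖ / ‖g2.coeff 0‖) ^ 2 ≤ 1 - s / ‖g2.coeff 0‖ ^ 2 := by
    rw [div_pow, le_sub_iff_add_le, ← add_div, div_le_one hg20]
    linarith
  have hIg2 : 0 ≤ Ig s (pe f2) (pd f2) := Ig_nonneg S2.pair
  have hI1 := S1.ig
  have hI2 := S2.ig
  have hEE : 0 < ‖h.coeff 0‖ ^ 2 - 1 := by linarith
  have ht : Real.log (‖g2.coeff 0‖ ^ 2 / s) ≤
      δ + Real.log (‖h.coeff 0‖ ^ 2 / (‖h.coeff 0‖ ^ 2 - 1)) := by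
    have e1 : Real.log (‖g1.coeff 0‖ ^ 2 / s) = Real.log (‖h.coeff 0‖ ^ 2 - 1) - Real.log s := by
      rw [hg1, Real.log_div hEE.ne' hs.ne']
    rw [Real.log_div hE0.ne' hEE.ne', ← hL]
    rw [e1] at hI1
    linarith
  have homn : 0 ≤ M2 (pe f) - 1 - ‖f.coeff 2‖ ^ 2 := by
    rw [← h3] at hB
    linarith
  have hA : ‖f1.coeff 0‖ / ‖g1.coeff 0‖ * Real.sqrt (‖h.coeff 0‖ ^ 2) ≤
      ‖g2.coeff 1‖ / ‖g2.coeff 0‖ +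
      ‖f1.coeff 0‖ / ‖g1.coeff 0‖ * (‖f2.coeff 0‖ / ‖g2.coeff 0‖) := by
    rw [Real.sqrt_sq (norm_nonneg _)]
    exact gamA P h0 h1 S1 S2
  have hK := gam_real hs hE1 hδ (by positivity) (by positivity) (by positivity) homn hH2 hg2s hA
    hP h2 ht
  have e1 : Real.log (‖g1.coeff 0‖ ^ 2 / s) = Real.log ((‖h.coeff 0‖ ^ 2 - 1) / s) := by
    rw [hg1]
  rw [e1] at hI1
  linarith

end Pool.Agent.H36.SB
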