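import Pool.Agent.H36.SB.Phi3
import Pool.Agent.H97.SIM.EvoD

/-!
# Derivatives of `av phi3 (|g_x|^2 / s)` in `x` and `s`

PROOF. As in `H97/SIM/EvoD.lean` (differentiation under the integral sign). `G_der_x`: for fixed
`s`, `d_x phi3 (|g|^2/s) = (l1 y - 1 + y/2) * 2 Re (conj g k) / (x s)`, `y = |g|^2/s`, and
`x` times it is `2 (l1 y / s) Re (conj g k) - (2/s) Re (conj g k) + |g|^2 Re (conj g k) / s^2`.
`G_der_s`: `d_s phi3 (|g|^2/s) = -(1/s) y phi3' y = -(1/s) k3 y`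
(`k3 y = y (l1 y - 1 + y/2)`, `l1_mul`) and `av k3 y = Lg s g - log s - M2 g/s + M4 g/(2 s^2)`.
`G_cont`: `(x, s) -> av phi3 (|g_x|^2/s)` is continuous: the integrand is continuous in
`(x, s, t)` (`phi3_contOn`), so bounded on compact sets
(`intervalIntegral.continuousOn...`/dominated convergence).
-/

open Complex MeasureTheory Set Filter Topology
open scoped ComplexConjugate Real

namespace Pool.Agent.H36.SB

open Pool.Agent.H97.SIM

/-- the derivative of the integrand in `x` -/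
private noncomputable def drF (s : ℝ) (g k : ℝ → ℝ → ℂ) (y t : ℝ) : ℝ :=
  (l1 (‖g y t‖ ^ 2 / s) - 1 + ‖g y t‖ ^ 2 / s / 2) * ((2 * (k y t / y * conj (g y t)).re) / s)

private theorem drF_hasDerivAt {g k : ℝ → ℝ → ℂ} {s y t : ℝ} (hs : 0 < s)
    (hd : HasDerivAt (fun z => g z t) (k y t / y) y) :
    HasDerivAt (fun z => phi3 (‖g z t‖ ^ 2 / s)) (drF s g k y t) y := by
  have h1 : HasDerivAt (fun z => ‖g z t‖ ^ 2) (2 * (k y t / y * conj (g y t)).re) y := by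
    have h2 := hd.norm_sq
    rw [Complex.inner] at h2
    exact h2
  have h6 := h1.div_const s
  have h7 : HasDerivAt phi3 (l1 (‖g y t‖ ^ 2 / s) - 1 + ‖g y t‖ ^ 2 / s / 2) (‖g y t‖ ^ 2 / s) :=
    phi3_hasDerivAt (by positivity)
  exact h7.comp y h6

private theorem drF_contOn {g k : ℝ → ℝ → ℂ} {s x0 x1 : ℝ} (hx0 : 0 ≤ x0) (hs : 0 < s)
    (cg : ContinuousOn (fun p : ℝ × ℝ => g p.1 p.2) (Ioo x0 x1 ×ˢ univ))
    (ck : ContinuousOn (fun p : ℝ × ℝ => k p.1 p.2) (Ioo x0 x1 ×ˢ univ)) :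
    ContinuousOn (fun p : ℝ × ℝ => drF s g k p.1 p.2) (Ioo x0 x1 ×ˢ univ) ∧
    ContinuousOn (fun p : ℝ × ℝ => phi3 (‖g p.1 p.2‖ ^ 2 / s)) (Ioo x0 x1 ×ˢ univ) := by
  have c1 : ContinuousOn (fun p : ℝ × ℝ => (p.1 : ℂ)) (Ioo x0 x1 ×ˢ univ) := by
    fun_prop
  have cN : ContinuousOn (fun p : ℝ × ℝ => ‖g p.1 p.2‖ ^ 2) (Ioo x0 x1 ×ˢ univ) := cg.norm.pow 2
  have cY : ContinuousOn (fun p : ℝ × ℝ => ‖g p.1 p.2‖ ^ 2 / s) (Ioo x0 x1 ×ˢ univ) :=
    cN.div_const s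
  have hY0 : ∀ p ∈ Ioo x0 x1 ×ˢ (univ : Set ℝ), 0 ≤ ‖g p.1 p.2‖ ^ 2 / s := by
    intro p _
    positivity
  have cl : ContinuousOn (fun p : ℝ × ℝ => l1 (‖g p.1 p.2‖ ^ 2 / s))
      (Ioo x0 x1 ×ˢ univ) :=
    l1_contOn.comp cY (fun p hp => by
      have := hY0 p hp
      show -1 < ‖g p.1 p.2‖ ^ 2 / s
      linarith)
  have cP : ContinuousOn (fun p : ℝ × ℝ => phi3 (‖g p.1 p.2‖ ^ 2 / s))
      (Ioo x0 x1 ×ˢ univ) :=
    phi3_contOn.comp cY (fun p hp => hY0 p hp)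
  refine ⟨?_, cP⟩
  have ckg : ContinuousOn (fun p : ℝ × ℝ => (k p.1 p.2 / (p.1 : ℂ) * conj (g p.1 p.2)).re)
      (Ioo x0 x1 ×ˢ univ) := by
    have c2 : ContinuousOn (fun p : ℝ × ℝ => k p.1 p.2 / (p.1 : ℂ)) (Ioo x0 x1 ×ˢ univ) :=
      ck.div c1 (fun p hp => by
        have h1 : 0 < p.1 := lt_of_le_of_lt hx0 hp.1.1
        exact_mod_cast h1.ne')
    have c3 : ContinuousOn (fun p : ℝ × ℝ => conj (g p.1 p.2)) (Ioo x0 x1 ×ˢ univ) :=
      Complex.continuous_conj.comp_continuousOn cg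
    exact Complex.continuous_re.comp_continuousOn (c2.mul c3)
  have cnum : ContinuousOn (fun p : ℝ × ℝ =>
      (2 * (k p.1 p.2 / (p.1 : ℂ) * conj (g p.1 p.2)).re) / s) (Ioo x0 x1 ×ˢ univ) :=
    (ckg.const_smul (2:ℝ)).div_const s
  exact ((cl.sub continuousOn_const).add (cY.div_const 2)).mul cnum

private theorem drF_eq {g k : ℝ → ℝ → ℂ} {s x t : ℝ} (hx0 : 0 < x) (hs : 0 < s) :
    drF s g k x t = (1 / x) * ((2 * (l1 (‖g x t‖ ^ 2 / s) / s * (conj (g x t) * k x t).re) -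
      (2 / s) * (conj (g x t) * k x t).re) +
      (1 / s ^ 2) * (‖g x t‖ ^ 2 * (conj (g x t) * k x t).re)) := by
  have hre : (k x t / x * conj (g x t)).re = (conj (g x t) * k x t).re / x := by
    have h1 : k x t / x * conj (g x t) = (conj (g x t) * k x t) / (x : ℂ) := by ring
    rw [h1, Complex.div_ofReal_re]
  unfold drF
  rw [hre]
  field_simp

theorem G_der_x {g k : ℝ → ℝ → ℂ} {x0 x1 : ℝ} (hx0 : 0 ≤ x0)
    (hd : ∀ x ∈ Ioo x0 x1, ∀ t, HasDerivAt (fun y => g y t) (k x t / x) x)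
    (cg : ContinuousOn (fun p : ℝ × ℝ => g p.1 p.2) (Ioo x0 x1 ×ˢ univ))
    (ck : ContinuousOn (fun p : ℝ × ℝ => k p.1 p.2) (Ioo x0 x1 ×ˢ univ)) {x : ℝ}
    (hx : x ∈ Ioo x0 x1) {s : ℝ} (hs : 0 < s) :
    HasDerivAt (fun y => av fun t => phi3 (‖g y t‖ ^ 2 / s)) ((1 / x) * dX s (g x) (k x)) x := by
  obtain ⟨cF, cP⟩ := drF_contOn hx0 hs cg ck
  have hxpos : 0 < x := lt_of_le_of_lt hx0 hx.1
  obtain ⟨δ, hδ, hball⟩ : ∃ δ > 0, Icc (x - δ) (x + δ) ⊆ Ioo x0 x1 := by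
    refine ⟨min ((x - x0) / 2) ((x1 - x) / 2), ?_, ?_⟩
    · exact lt_min (by linarith [hx.1]) (by linarith [hx.2])
    · intro y hy
      have h1 := min_le_left ((x - x0) / 2) ((x1 - x) / 2)
      have h2 := min_le_right ((x - x0) / 2) ((x1 - x) / 2)
      exact ⟨by linarith [hy.1, hx.1], by linarith [hy.2, hx.2]⟩
  have hcomp : IsCompact (Icc (x - δ) (x + δ) ×ˢ Icc (-π) π) := isCompact_Icc.prod isCompact_Icc
  obtain ⟨C, hC⟩ := hcomp.exists_bound_of_continuousOn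
    (cF.mono (fun p hp => ⟨hball hp.1, mem_univ _⟩) :
      ContinuousOn (fun p : ℝ × ℝ => drF s g k p.1 p.2) (Icc (x - δ) (x + δ) ×ˢ Icc (-π) π))
  have hnh : Icc (x - δ) (x + δ) ∈ 𝓝 x := Icc_mem_nhds (by linarith) (by linarith)
  have hcontP : ∀ y ∈ Ioo x0 x1, Continuous (fun t => phi3 (‖g y t‖ ^ 2 / s)) := by
    intro y hy
    exact cP.comp_continuous (f := fun t : ℝ => ((y, t) : ℝ × ℝ)) (by fun_prop)
      (fun t => ⟨hy, mem_univ _⟩)
  have hcontF : ∀ y ∈ Ioo x0 x1, Continuous (fun t => drF s g k y t) := by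
    intro y hy
    exact cF.comp_continuous (f := fun t : ℝ => ((y, t) : ℝ × ℝ)) (by fun_prop)
      (fun t => ⟨hy, mem_univ _⟩)
  have hmain := intervalIntegral.hasDerivAt_integral_of_dominated_loc_of_deriv_le
    (μ := volume) (a := -π) (b := π)
    (F := fun y t => phi3 (‖g y t‖ ^ 2 / s)) (F' := fun y t => drF s g k y t)
    (x₀ := x) (s := Icc (x - δ) (x + δ)) (bound := fun _ => C) hnh
    (Filter.eventually_of_mem hnh (fun y hy =>
      (hcontP y (hball hy)).aestronglyMeasurable))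
    ((hcontP x hx).intervalIntegrable _ _)
    ((hcontF x hx).aestronglyMeasurable)
    (Filter.Eventually.of_forall (fun t ht y hy => by
      have hle : -π ≤ π := by linarith [Real.pi_pos]
      rw [uIoc_of_le hle] at ht
      exact hC (y, t) ⟨hy, ht.1.le, ht.2⟩))
    (continuous_const.intervalIntegrable _ _)
    (Filter.Eventually.of_forall (fun t _ y hy =>
      drF_hasDerivAt hs (hd y (hball hy) t)))
  have h1 : HasDerivAt (fun y => av fun t => phi3 (‖g y t‖ ^ 2 / s))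
      (av (fun t => drF s g k x t)) x := by
    unfold av
    exact hmain.2.const_mul _
  have hval : av (fun t => drF s g k x t) = (1 / x) * dX s (g x) (k x) := by
    have cgx : Continuous (g x) := cg.comp_continuous (f := fun t : ℝ => ((x, t) : ℝ × ℝ))
      (by fun_prop) (fun t => ⟨hx, mem_univ _⟩)
    have ckx : Continuous (k x) := ck.comp_continuous (f := fun t : ℝ => ((x, t) : ℝ × ℝ))
      (by fun_prop) (fun t => ⟨hx, mem_univ _⟩)
    have cR : Continuous (fun t => (conj (g x t) * k x t).re) :=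
      Complex.continuous_re.comp ((Complex.continuous_conj.comp cgx).mul ckx)
    have cNx : Continuous (fun t => ‖g x t‖ ^ 2) := cgx.norm.pow 2
    have cYx : Continuous (fun t => ‖g x t‖ ^ 2 / s) := cNx.div_const _
    have clx : Continuous (fun t => l1 (‖g x t‖ ^ 2 / s)) :=
      l1_contOn.comp_continuous cYx (fun t => by
        have : 0 ≤ ‖g x t‖ ^ 2 / s := div_nonneg (by positivity) hs.le
        show -1 < ‖g x t‖ ^ 2 / s
        linarith)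
    have hfun : (fun t => drF s g k x t) = fun t =>
        (1 / x) * ((2 * (l1 (‖g x t‖ ^ 2 / s) / s * (conj (g x t) * k x t).re) -
          (2 / s) * (conj (g x t) * k x t).re) +
          (1 / s ^ 2) * (‖g x t‖ ^ 2 * (conj (g x t) * k x t).re)) := by
      funext t
      rw [drF_eq hxpos hs]
    have c1 : Continuous (fun t => 2 * (l1 (‖g x t‖ ^ 2 / s) / s * (conj (g x t) * k x t).re)) :=
      continuous_const.mul ((clx.div_const _).mul cR)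
    have c2 : Continuous (fun t => (2 / s) * (conj (g x t) * k x t).re) :=
      continuous_const.mul cR
    have c3 : Continuous (fun t => (1 / s ^ 2) * (‖g x t‖ ^ 2 * (conj (g x t) * k x t).re)) :=
      continuous_const.mul (cNx.mul cR)
    have c4 : Continuous (fun t => 2 * (l1 (‖g x t‖ ^ 2 / s) / s * (conj (g x t) * k x t).re) -
        (2 / s) * (conj (g x t) * k x t).re) := c1.sub c2
    rw [hfun, av_mul_const, av_add c4 c3, av_sub c1 c2, av_mul_const, av_mul_const,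
      av_mul_const]
    unfold dX Ig A1 A2
    ring
  rw [← hval]
  exact h1

theorem G_der_s {g : ℝ → ℂ} (hg : Continuous g) {s : ℝ} (hs : 0 < s) :
    HasDerivAt (fun r => av fun t => phi3 (‖g t‖ ^ 2 / r)) (dS s g) s := by
  have cN : Continuous (fun t => ‖g t‖ ^ 2) := hg.norm.pow 2
  -- the derivative of the integrand
  have hder : ∀ t : ℝ, ∀ r : ℝ, 0 < r → HasDerivAt (fun r => phi3 (‖g t‖ ^ 2 / r))
      ((l1 (‖g t‖ ^ 2 / r) - 1 + ‖g t‖ ^ 2 / r / 2) * (-(‖g t‖ ^ 2) / r ^ 2)) r := by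
    intro t r hr
    have h1 : HasDerivAt (fun r : ℝ => ‖g t‖ ^ 2 / r) (-(‖g t‖ ^ 2) / r ^ 2) r := by
      have h2 : HasDerivAt (fun r : ℝ => ‖g t‖ ^ 2 * r⁻¹) (‖g t‖ ^ 2 * (-(r ^ 2)⁻¹)) r :=
        (hasDerivAt_inv hr.ne').const_mul (‖g t‖ ^ 2)
      have h3 : (fun r : ℝ => ‖g t‖ ^ 2 / r) = fun r : ℝ => ‖g t‖ ^ 2 * r⁻¹ := by
        funext r
        rw [div_eq_mul_inv]
      have h4 : -(‖g t‖ ^ 2) / r ^ 2 = ‖g t‖ ^ 2 * (-(r ^ 2)⁻¹) := by
        rw [div_eq_mul_inv]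
        ring
      rw [h3, h4]
      exact h2
    have h7 : HasDerivAt phi3 (l1 (‖g t‖ ^ 2 / r) - 1 + ‖g t‖ ^ 2 / r / 2) (‖g t‖ ^ 2 / r) :=
      phi3_hasDerivAt (by positivity)
    exact h7.comp r h1
  have cYY : ContinuousOn (fun p : ℝ × ℝ => ‖g p.2‖ ^ 2 / p.1) (Ioi 0 ×ˢ univ) := by
    refine ContinuousOn.div ?_ continuousOn_fst (fun p hp => ne_of_gt hp.1)
    exact (cN.comp continuous_snd).continuousOn
  have hY0 : ∀ p ∈ Ioi (0:ℝ) ×ˢ (univ : Set ℝ), 0 ≤ ‖g p.2‖ ^ 2 / p.1 := by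
    intro p hp
    have h1 : 0 < p.1 := hp.1
    positivity
  have cl : ContinuousOn (fun p : ℝ × ℝ => l1 (‖g p.2‖ ^ 2 / p.1)) (Ioi 0 ×ˢ univ) :=
    l1_contOn.comp cYY (fun p hp => by
      have := hY0 p hp
      show -1 < ‖g p.2‖ ^ 2 / p.1
      linarith)
  have cF : ContinuousOn (fun p : ℝ × ℝ =>
      (l1 (‖g p.2‖ ^ 2 / p.1) - 1 + ‖g p.2‖ ^ 2 / p.1 / 2) * (-(‖g p.2‖ ^ 2) / p.1 ^ 2))
      (Ioi 0 ×ˢ univ) := by
    refine ((cl.sub continuousOn_const).add (cYY.div_const 2)).mul ?_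
    refine ContinuousOn.div ?_ (continuousOn_fst.pow 2) (fun p hp => pow_ne_zero 2 (ne_of_gt hp.1))
    exact (cN.comp continuous_snd).neg.continuousOn
  have cP : ContinuousOn (fun p : ℝ × ℝ => phi3 (‖g p.2‖ ^ 2 / p.1)) (Ioi 0 ×ˢ univ) :=
    phi3_contOn.comp cYY (fun p hp => hY0 p hp)
  have hball : Icc (s / 2) (2 * s) ⊆ Ioi 0 := by
    intro y hy
    have := hy.1
    show 0 < y
    linarith
  have hcomp : IsCompact (Icc (s / 2) (2 * s) ×ˢ Icc (-π) π) := isCompact_Icc.prod isCompact_Icc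
  obtain ⟨C, hC⟩ := hcomp.exists_bound_of_continuousOn
    (cF.mono (fun p hp => ⟨hball hp.1, mem_univ _⟩))
  have hnh : Icc (s / 2) (2 * s) ∈ 𝓝 s := Icc_mem_nhds (by linarith) (by linarith)
  have hcontP : ∀ y ∈ Ioi (0:ℝ), Continuous (fun t => phi3 (‖g t‖ ^ 2 / y)) := by
    intro y hy
    exact cP.comp_continuous (f := fun t : ℝ => ((y, t) : ℝ × ℝ)) (by fun_prop)
      (fun t => ⟨hy, mem_univ _⟩)
  have hcontF : ∀ y ∈ Ioi (0:ℝ), Continuous (fun t =>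
      (l1 (‖g t‖ ^ 2 / y) - 1 + ‖g t‖ ^ 2 / y / 2) * (-(‖g t‖ ^ 2) / y ^ 2)) := by
    intro y hy
    exact cF.comp_continuous (f := fun t : ℝ => ((y, t) : ℝ × ℝ)) (by fun_prop)
      (fun t => ⟨hy, mem_univ _⟩)
  have hmain := intervalIntegral.hasDerivAt_integral_of_dominated_loc_of_deriv_le
    (μ := volume) (a := -π) (b := π)
    (F := fun y t => phi3 (‖g t‖ ^ 2 / y))
    (F' := fun y t => (l1 (‖g t‖ ^ 2 / y) - 1 + ‖g t‖ ^ 2 / y / 2) * (-(‖g t‖ ^ 2) / y ^ 2))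
    (x₀ := s) (s := Icc (s / 2) (2 * s)) (bound := fun _ => C) hnh
    (Filter.eventually_of_mem hnh (fun y hy =>
      (hcontP y (hball hy)).aestronglyMeasurable))
    ((hcontP s hs).intervalIntegrable _ _)
    ((hcontF s hs).aestronglyMeasurable)
    (Filter.Eventually.of_forall (fun t ht y hy => by
      have hle : -π ≤ π := by linarith [Real.pi_pos]
      rw [uIoc_of_le hle] at ht
      exact hC (y, t) ⟨hy, ht.1.le, ht.2⟩))
    (continuous_const.intervalIntegrable _ _)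
    (Filter.Eventually.of_forall (fun t _ y hy => hder t y (hball hy)))
  have h1 : HasDerivAt (fun r => av fun t => phi3 (‖g t‖ ^ 2 / r))
      (av (fun t => (l1 (‖g t‖ ^ 2 / s) - 1 + ‖g t‖ ^ 2 / s / 2) * (-(‖g t‖ ^ 2) / s ^ 2))) s := by
    unfold av
    exact hmain.2.const_mul _
  have hval : av (fun t => (l1 (‖g t‖ ^ 2 / s) - 1 + ‖g t‖ ^ 2 / s / 2) *
      (-(‖g t‖ ^ 2) / s ^ 2)) = dS s g := by
    have hfun : ∀ t, (l1 (‖g t‖ ^ 2 / s) - 1 + ‖g t‖ ^ 2 / s / 2) * (-(‖g t‖ ^ 2) / s ^ 2) =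
        (-(1 / s)) * (((Real.log (‖g t‖ ^ 2 + s) - Real.log s) - (1 / s) * ‖g t‖ ^ 2) +
          (1 / (2 * s ^ 2)) * ‖g t‖ ^ 4) := by
      intro t
      have hlog : Real.log (‖g t‖ ^ 2 + s) =
          Real.log s + (‖g t‖ ^ 2 / s) * l1 (‖g t‖ ^ 2 / s) := by
        rw [l1_mul, ← Real.log_mul hs.ne' (by positivity)]
        congr 1
        field_simp
        ring
      rw [hlog]
      field_simp
      ring
    have cLg : Continuous (fun t => Real.log (‖g t‖ ^ 2 + s)) :=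
      (cN.add continuous_const).log (fun t => (add_pos_of_nonneg_of_pos (by positivity) hs).ne')
    have c1 : Continuous (fun t => Real.log (‖g t‖ ^ 2 + s) - Real.log s) :=
      cLg.sub continuous_const
    have c2 : Continuous (fun t => (1 / s) * ‖g t‖ ^ 2) := continuous_const.mul cN
    have c3 : Continuous (fun t => (1 / (2 * s ^ 2)) * ‖g t‖ ^ 4) :=
      continuous_const.mul (hg.norm.pow 4)
    have c4 : Continuous (fun t => (Real.log (‖g t‖ ^ 2 + s) - Real.log s) -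
        (1 / s) * ‖g t‖ ^ 2) := c1.sub c2
    rw [av_congr hfun, av_mul_const, av_add c4 c3, av_sub c1 c2,
      av_sub cLg continuous_const, av_const, av_mul_const, av_mul_const]
    unfold dS Lg M2 M4
    ring
  rw [← hval]
  exact h1

theorem G_cont {g : ℝ → ℝ → ℂ} {x0 x1 : ℝ}
    (cg : ContinuousOn (fun p : ℝ × ℝ => g p.1 p.2) (Ioo x0 x1 ×ˢ univ)) :
    ContinuousOn (fun p : ℝ × ℝ => av fun t => phi3 (‖g p.1 t‖ ^ 2 / p.2))
      (Ioo x0 x1 ×ˢ Ioi 0) := by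
  rw [continuousOn_iff_continuous_domRestrict]
  have hc : Continuous (fun q : ((Ioo x0 x1 ×ˢ Ioi 0 : Set (ℝ × ℝ)) × ℝ) =>
      phi3 (‖g (q.1 : ℝ × ℝ).1 q.2‖ ^ 2 / (q.1 : ℝ × ℝ).2)) := by
    have c1 : Continuous (fun q : ((Ioo x0 x1 ×ˢ Ioi 0 : Set (ℝ × ℝ)) × ℝ) =>
        g (q.1 : ℝ × ℝ).1 q.2) := by
      refine cg.comp_continuous (f := fun q : ((Ioo x0 x1 ×ˢ Ioi 0 : Set (ℝ × ℝ)) × ℝ) =>
        (((q.1 : ℝ × ℝ).1, q.2) : ℝ × ℝ)) (by fun_prop) (fun q => ⟨q.1.2.1, mem_univ _⟩)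
    have c2 : Continuous (fun q : ((Ioo x0 x1 ×ˢ Ioi 0 : Set (ℝ × ℝ)) × ℝ) =>
        ‖g (q.1 : ℝ × ℝ).1 q.2‖ ^ 2 / (q.1 : ℝ × ℝ).2) := by
      refine (c1.norm.pow 2).div (by fun_prop) (fun q => ?_)
      have h : 0 < (q.1 : ℝ × ℝ).2 := q.1.2.2
      exact h.ne'
    refine phi3_contOn.comp_continuous c2 (fun q => ?_)
    have h : 0 < (q.1 : ℝ × ℝ).2 := q.1.2.2
    show 0 ≤ ‖g (q.1 : ℝ × ℝ).1 q.2‖ ^ 2 / (q.1 : ℝ × ℝ).2
    positivity
  have h2 := intervalIntegral.continuous_parametric_intervalIntegral_of_continuous'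
    (μ := volume) (f := fun (q : (Ioo x0 x1 ×ˢ Ioi 0 : Set (ℝ × ℝ))) (t : ℝ) =>
      phi3 (‖g (q : ℝ × ℝ).1 t‖ ^ 2 / (q : ℝ × ℝ).2)) hc (-π) π
  have h3 : Continuous (fun q : (Ioo x0 x1 ×ˢ Ioi 0 : Set (ℝ × ℝ)) =>
      (2 * π)⁻¹ * ∫ t in (-π)..π, phi3 (‖g (q : ℝ × ℝ).1 t‖ ^ 2 / (q : ℝ × ℝ).2)) :=
    continuous_const.mul h2
  exact h3

end Pool.Agent.H36.SB
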