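import Pool.Agent.H36.SB.Pow3
import Pool.Agent.H97.SIM.Fin
import Pool.Agent.H97.SIM.Six

/-!
# The final theorem, `2 <= lambda <= 6`

PROOF: as `H97/SIM/Fin.lean`. `mom_lt3` for `4 <= lam <= 6`, `|b_1| < 1`: `lam = 4`: `four_strict`,
`lam = 6`: `six_strict` (file `Six`), `4 < lam < 6`: `pow3_strict` with `p = lam / 2`.
`fin_lt3`: `mean_S`, `mean_J`. `fin3`: if `|b_1| < 1` the mean is strictly smaller; otherwise
`IsSig.eq_of_norm_one` gives `F z = z + c / z` with `|c| = 1` and `integralMean_rotJ` gives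
equality. For `2 <= lam <= 4` use `fin` from `H97/SIM/Fin.lean`.
-/

open Complex MeasureTheory Set Filter Topology
open scoped ComplexConjugate Real

namespace Pool.Agent.H36.SB

open Pool.Agent.H97.SIM Pool.Agent.H15.Sig

variable {F : ℂ → ℂ} {b : ℕ → ℂ}

private lemma rpow_sq3 {y : ℝ} (hy : 0 ≤ y) (lam : ℝ) : (y ^ 2) ^ (lam / 2) = y ^ lam := by
  rw [← Real.rpow_natCast, ← Real.rpow_mul hy]
  congr 1
  push_cast
  ring

/-- the comparison of the moments of `S` and of `1 + u^2` -/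
private lemma mom_lt3 (h : IsSig F b) (hb : ‖b 1‖ < 1) {lam X : ℝ} (h2 : 4 ≤ lam) (h4 : lam ≤ 6)
    (hX0 : 0 < X) (hX : X < 1) :
    av (fun t => ‖sx b X t‖ ^ lam) < av (fun t => ‖gJ X t‖ ^ lam) := by
  rcases eq_or_lt_of_le h2 with h' | h2'
  · subst h'
    have e1 : av (fun t => ‖sx b X t‖ ^ (4:ℝ)) = av (fun t => ‖sx b X t‖ ^ 4) :=
      av_congr fun t => by rw [← Real.rpow_natCast]; norm_num
    have e2 : av (fun t => ‖gJ X t‖ ^ (4:ℝ)) = av (fun t => ‖gJ X t‖ ^ 4) :=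
      av_congr fun t => by rw [← Real.rpow_natCast]; norm_num
    rw [e1, e2]
    exact four_strict h hb hX0 hX
  · rcases eq_or_lt_of_le h4 with h' | h4'
    · subst h'
      have e1 : av (fun t => ‖sx b X t‖ ^ (6:ℝ)) = av (fun t => ‖sx b X t‖ ^ 6) :=
        av_congr fun t => by rw [← Real.rpow_natCast]; norm_num
      have e2 : av (fun t => ‖gJ X t‖ ^ (6:ℝ)) = av (fun t => ‖gJ X t‖ ^ 6) :=
        av_congr fun t => by rw [← Real.rpow_natCast]; norm_num
      rw [e1, e2]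
      exact six_strict h hb hX0 hX
    · have h5 := pow3_strict h hb (p := lam / 2) (by linarith) (by linarith) hX0 hX
      simp only [rpow_sq3 (norm_nonneg _)] at h5
      exact h5

theorem fin_lt3 (h : IsSig F b) (hb : ‖b 1‖ < 1) {lam r : ℝ} (h2 : 4 ≤ lam) (h4 : lam ≤ 6)
    (hr : 1 < r) : integralMean lam r F < integralMean lam r (fun z => z + z⁻¹) := by
  have hl : 0 < lam := by linarith
  have hr0 : 0 < r := by linarith
  have h5 : 0 < r⁻¹ := inv_pos.2 (by linarith)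
  have h6 : r⁻¹ < 1 := inv_lt_one_of_one_lt₀ hr
  rw [mean_S h hl hr, mean_J hl hr]
  apply Real.rpow_lt_rpow _ _ (by positivity)
  · exact mul_nonneg (by positivity) (av_nonneg fun t => by positivity)
  · exact mul_lt_mul_of_pos_left (mom_lt3 h hb h2 h4 h5 h6) (by positivity)

theorem fin3 {lam r : ℝ} (h2 : 2 ≤ lam) (h4 : lam ≤ 6) (hr : 1 < r) :
    IsGreatest {x : ℝ | ∃ F : ℂ → ℂ, ClassSigma F ∧ x = integralMean lam r F}
      (integralMean lam r (fun z => z + z⁻¹)) ∧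
    ∀ F : ℂ → ℂ, ClassSigma F →
      (integralMean lam r F = integralMean lam r (fun z => z + z⁻¹) ↔
        ∃ c : ℂ, ‖c‖ = 1 ∧ ∀ z : ℂ, 1 < ‖z‖ → F z = z + c / z) := by
  rcases le_total lam 4 with h5 | h5
  · exact fin h2 h5 hr
  have hiff : ∀ F : ℂ → ℂ, ClassSigma F →
      (integralMean lam r F = integralMean lam r (fun z => z + z⁻¹) ↔
        ∃ c : ℂ, ‖c‖ = 1 ∧ ∀ z : ℂ, 1 < ‖z‖ → F z = z + c / z) := by
    intro F hF
    obtain ⟨b, hb⟩ := hF.isSig
    constructor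
    · intro he
      by_cases h1 : ‖b 1‖ < 1
      · exact absurd he (fin_lt3 hb h1 h5 h4 hr).ne
      · exact ⟨b 1, hb.eq_of_norm_one h1⟩
    · rintro ⟨c, hc, hFc⟩
      exact integralMean_rotJ hc hFc hr
  refine ⟨⟨⟨_, classSigma_J, rfl⟩, ?_⟩, hiff⟩
  rintro x ⟨F, hF, rfl⟩
  obtain ⟨b, hb⟩ := hF.isSig
  by_cases h1 : ‖b 1‖ < 1
  · exact (fin_lt3 hb h1 h5 h4 hr).le
  · exact ((hiff F hF).2 ⟨b 1, hb.eq_of_norm_one h1⟩).le

end Pool.Agent.H36.SB
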