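import Pool.Agent.H36.SB.GInner
import Pool.Agent.H15.Sig.Area2

/-!
# Weighted area inside a large image circle, general radial weight

PROOF: copy `wouter` from `H97/SIM/WOuter.lean` (see the header of `GInner` for the changes;
`wcov_integrable` is general too).
-/

open Complex MeasureTheory Set Filter Topology
open scoped ComplexConjugate Real

namespace Pool.Agent.H36.SB

open Pool.Agent.H97.SIM Pool.Agent.H15.Sig

variable {F : ℂ → ℂ} {b : ℕ → ℂ}

theorem gouter (h : IsSig F b) {Ps Ps' : ℝ → ℝ} (hP : ∀ y, 0 ≤ y → HasDerivAt Ps (Ps' y) y)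
    (cP' : ContinuousOn Ps' (Ici 0)) {R : ℝ} (g : Good F R) :
    IntegrableOn (fun w => (Ps (‖toC w‖ ^ 2) + ‖toC w‖ ^ 2 * Ps' (‖toC w‖ ^ 2)))
      ((fun x : ℝ × ℝ => toR ((x.1 : ℂ) * F (R * exp (x.2 * I)))) '' (Ioo 0 1 ×ˢ Ioc (-π) π)) ∧
    (∫ w in (fun x : ℝ × ℝ => toR ((x.1 : ℂ) * F (R * exp (x.2 * I)))) ''
      (Ioo 0 1 ×ˢ Ioc (-π) π), (Ps (‖toC w‖ ^ 2) + ‖toC w‖ ^ 2 * Ps' (‖toC w‖ ^ 2))) =
      (1 / 2) * gb F Ps R := by
  have hR2 := g.two_le
  have hR : 0 < R := by linarith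
  have hnorm : ∀ t : ℝ, ‖(R : ℂ) * exp (t * I)‖ = R := by
    intro t
    rw [norm_mul, norm_exp_ofReal_mul_I, mul_one, norm_real, Real.norm_eq_abs, abs_of_pos hR]
  have hz1 : ∀ t : ℝ, 1 < ‖(R : ℂ) * exp (t * I)‖ := fun t => by rw [hnorm t]; linarith
  set Γ : ℝ → ℂ := fun t => F (R * exp (t * I)) with hΓ
  set Γ' : ℝ → ℂ := fun t => deriv F (R * exp (t * I)) * (R * exp (t * I)) * I with hΓ'
  have hΓd : ∀ t, HasDerivAt Γ (Γ' t) t := by
    intro t
    have h1 : HasDerivAt (fun y : ℝ => (R : ℂ) * exp (y * I)) (R * (exp (t * I) * (1 * I))) t := by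
      refine HasDerivAt.const_mul _ ?_
      exact (ofRealCLM.hasDerivAt.mul_const I).cexp
    have h2 := (h.differentiableAt (hz1 t)).hasDerivAt.comp t h1
    refine h2.congr_deriv ?_
    simp only [hΓ']; ring
  have hzc : Continuous fun t : ℝ => (R : ℂ) * exp (t * I) := by fun_prop
  have hΓc : Continuous Γ := by
    rw [continuous_iff_continuousAt]; intro t; exact (hΓd t).continuousAt
  have hDc : Continuous fun t : ℝ => deriv F (R * exp (t * I)) := by
    rw [continuous_iff_continuousAt]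
    intro t
    have h1 : DifferentiableOn ℂ (deriv F) {z : ℂ | 1 < ‖z‖} := h.diffOn.deriv isOpen_ext
    have h2 : ContinuousAt (deriv F) (R * exp (t * I)) :=
      (h1.differentiableAt (isOpen_ext.mem_nhds (hz1 t))).continuousAt
    exact ContinuousAt.comp (f := fun t : ℝ => (R : ℂ) * exp (t * I)) h2 hzc.continuousAt
  have hΓ'c : Continuous Γ' := by
    simp only [hΓ']
    exact (hDc.mul hzc).mul continuous_const
  set a : ℝ × ℝ → ℂ := fun x => Γ x.2 with ha
  set c : ℝ × ℝ → ℂ := fun x => (x.1 : ℂ) * Γ' x.2 with hc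
  have hf : ∀ x ∈ Ioo (0:ℝ) 1 ×ˢ Ioc (-π) π, HasFDerivAt (fun y : ℝ × ℝ => (y.1 : ℂ) * Γ y.2)
      ((ContinuousLinearMap.fst ℝ ℝ ℝ).smulRight (a x) +
      (ContinuousLinearMap.snd ℝ ℝ ℝ).smulRight (c x)) x := by
    intro x _
    have h1 : HasFDerivAt (fun y : ℝ × ℝ => (y.1 : ℂ))
        (ofRealCLM.comp (ContinuousLinearMap.fst ℝ ℝ ℝ)) x :=
      ofRealCLM.hasFDerivAt.comp x hasFDerivAt_fst
    have h2 : HasFDerivAt (fun y : ℝ × ℝ => Γ y.2)
        ((ContinuousLinearMap.snd ℝ ℝ ℝ).smulRight (Γ' x.2)) x := by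
      have := (hΓd x.2).hasFDerivAt.comp x hasFDerivAt_snd
      refine this.congr_fderiv ?_
      ext <;> simp
    have h3 := h1.mul h2
    refine h3.congr_fderiv ?_
    ext <;> simp [ha, hc]
  have hinj : InjOn (fun y : ℝ × ℝ => (y.1 : ℂ) * Γ y.2) (Ioo (0:ℝ) 1 ×ˢ Ioc (-π) π) := by
    have key : ∀ x ∈ Ioo (0:ℝ) 1 ×ˢ Ioc (-π) π, ∀ y ∈ Ioo (0:ℝ) 1 ×ˢ Ioc (-π) π,
        y.1 ≤ x.1 → (x.1 : ℂ) * Γ x.2 = (y.1 : ℂ) * Γ y.2 → x = y := by
      intro x hx y hy hle he
      have hy0 : (y.1 : ℂ) ≠ 0 := by exact_mod_cast hy.1.1.ne'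
      have hs1 : 1 ≤ x.1 / y.1 := by rw [le_div_iff₀ hy.1.1]; linarith
      have e1 : F ((R : ℂ) * exp (y.2 * I)) = ((x.1 / y.1 : ℝ) : ℂ) * F (R * exp (x.2 * I)) := by
        have : (x.1 : ℂ) * F ((R : ℂ) * exp (x.2 * I)) = y.1 * F ((R : ℂ) * exp (y.2 * I)) := he
        rw [ofReal_div, div_mul_eq_mul_div, this, mul_div_cancel_left₀ _ hy0]
      have r := g.ray _ _ _ (hnorm x.2) (by rw [hnorm]; exact hR2) hs1 e1
      have hs2 : x.1 / y.1 = 1 := by
        by_contra hne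
        have := r.2 (lt_of_le_of_ne hs1 (Ne.symm hne))
        rw [hnorm] at this
        exact lt_irrefl _ this
      have hxy : x.1 = y.1 := by
        rw [div_eq_one_iff_eq hy.1.1.ne'] at hs2; exact hs2
      rw [hs2, ofReal_one, one_mul] at e1
      have e2 := h.inj (hz1 y.2) (hz1 x.2) e1
      have hRne : (R : ℂ) ≠ 0 := by exact_mod_cast hR.ne'
      have e3 : exp ((y.2 : ℂ) * I) = exp (x.2 * I) := mul_left_cancel₀ hRne e2
      have e4 : exp (((0 : ℝ) : ℂ) + (y.2 : ℝ) * I) = exp (((0 : ℝ) : ℂ) + (x.2 : ℝ) * I) := by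
        simpa using e3
      have := exp_inj_strip (x := (0, y.2)) (y := (0, x.2)) hy.2 hx.2 e4
      have h22 := congrArg Prod.snd this
      exact Prod.ext hxy h22.symm
    intro x hx y hy he
    rcases le_total y.1 x.1 with hle | hle
    · exact key x hx y hy hle he
    · exact (key y hy x hx hle he.symm).symm
  have hnn : ∀ x ∈ Ioo (0:ℝ) 1 ×ˢ Ioc (-π) π, 0 ≤ (conj (a x) * c x).im := by
    intro x hx
    have e : conj (a x) * c x = (x.1 : ℂ) *
        (I * (conj (F (R * exp (x.2 * I))) * ((R * exp (x.2 * I)) *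
          deriv F (R * exp (x.2 * I))))) := by
      simp only [ha, hc, hΓ, hΓ']; ring
    rw [e, im_ofReal_mul]
    have := g.jac _ (hnorm x.2)
    have e2 : ∀ w : ℂ, (I * w).im = w.re := by intro w; simp
    rw [e2]
    exact mul_nonneg hx.1.1.le this.le
  have hfc : Continuous fun x : ℝ × ℝ => (x.1 : ℂ) * Γ x.2 :=
    (continuous_ofReal.comp continuous_fst).mul (hΓc.comp continuous_snd)
  have hac : Continuous a := hΓc.comp continuous_snd
  have hcc : Continuous c :=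
    (continuous_ofReal.comp continuous_fst).mul (hΓ'c.comp continuous_snd)
  have hΓ2 : Continuous fun x : ℝ × ℝ => Γ' x.2 := hΓ'c.comp continuous_snd
  have hPc : Continuous fun w : ℂ => Ps (‖w‖ ^ 2) := by
    rw [continuous_iff_continuousAt]
    intro w
    exact ContinuousAt.comp (f := fun w : ℂ => ‖w‖ ^ 2) (hP _ (by positivity)).continuousAt
      (continuous_norm.pow 2).continuousAt
  have hP'c : Continuous fun w : ℂ => Ps' (‖w‖ ^ 2) :=
    cP'.comp_continuous (continuous_norm.pow 2) (fun w => by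
      simp only [mem_Ici]; positivity)
  set D : ℂ → ℝ := fun w => Ps (‖w‖ ^ 2) + ‖w‖ ^ 2 * Ps' (‖w‖ ^ 2) with hD
  have hDcont : Continuous D := by
    simp only [hD]
    exact hPc.add ((continuous_norm.pow 2).mul hP'c)
  have hH : ContinuousOn (fun x : ℝ × ℝ =>
      D ((x.1 : ℂ) * Γ x.2) * (conj (a x) * c x).im) (Icc 0 1 ×ˢ univ) :=
    ((hDcont.comp hfc).mul
      (continuous_im.comp ((continuous_conj.comp hac).mul hcc))).continuousOn
  have hrect := rect_integral (s0 := 0) (s1 := 1) (by norm_num) hH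
  refine ⟨wcov_integrable hf hinj hnn D hrect.1, ?_⟩
  have e0 := wcov hf hinj hnn D
  refine e0.trans ?_
  rw [hrect.2]
  have hds : ∀ s t : ℝ, HasDerivAt (fun x : ℝ => (x : ℂ) * Γ t) (Γ t) s := by
    intro s t
    have : HasDerivAt (fun x : ℝ => (x : ℂ) * Γ t) (1 * Γ t) s :=
      ofRealCLM.hasDerivAt.mul_const _
    rwa [one_mul] at this
  have hdt : ∀ s t : ℝ, HasDerivAt (fun y : ℝ => (s : ℂ) * Γ y) (s * Γ' t) t := by
    intro s t
    exact (hΓd t).const_mul _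
  have eπ : (R : ℂ) * exp ((π : ℝ) * I) = R * exp ((-π : ℝ) * I) := by
    congr 1
    push_cast
    rw [exp_pi_mul_I, neg_mul, exp_neg, exp_pi_mul_I]; norm_num
  have st := wstokes hP cP' (s0 := 0) (s1 := 1) (by norm_num)
    (fun x : ℝ × ℝ => (x.1 : ℂ) * Γ x.2) a c (fun x : ℝ × ℝ => Γ' x.2)
    (fun s _ t => hds s t)
    (fun s _ t => hdt s t)
    (fun s _ t => by
      have : HasDerivAt (fun x : ℝ => (x : ℂ) * Γ' t) (1 * Γ' t) s :=
        ofRealCLM.hasDerivAt.mul_const _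
      rwa [one_mul] at this)
    (fun s _ t => hΓd t)
    hfc.continuousOn hac.continuousOn hcc.continuousOn hΓ2.continuousOn
    (fun s _ => by simp only [hΓ, eπ])
    (fun s _ => by simp only [ha, hΓ, eπ])
  refine st.trans ?_
  have z0 : (∫ t in (-π)..π, Ps
      (‖(fun x : ℝ × ℝ => (x.1 : ℂ) * Γ x.2) ((0:ℝ), t)‖ ^ 2) *
      (conj ((fun x : ℝ × ℝ => (x.1 : ℂ) * Γ x.2) ((0:ℝ), t)) * c ((0:ℝ), t)).im) = 0 := by
    rw [← intervalIntegral.integral_zero (a := -π) (b := π)]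
    apply intervalIntegral.integral_congr
    intro t _
    simp [hc]
  have z1 : (∫ t in (-π)..π, Ps
      (‖(fun x : ℝ × ℝ => (x.1 : ℂ) * Γ x.2) ((1:ℝ), t)‖ ^ 2) *
      (conj ((fun x : ℝ × ℝ => (x.1 : ℂ) * Γ x.2) ((1:ℝ), t)) * c ((1:ℝ), t)).im) =
      gb F Ps R := by
    unfold gb
    apply intervalIntegral.integral_congr
    intro t _
    simp only [hc, hΓ, hΓ', ofReal_one, one_mul]
    have e3 : ∀ x y : ℂ, (conj x * (y * I)).im = (conj x * y).re := by
      intro x y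
      simp only [mul_im, mul_re, I_re, I_im, conj_re, conj_im]; ring
    rw [e3]
  rw [z0, z1]
  ring


end Pool.Agent.H36.SB
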