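import Pool.Agent.H36.SB.GInner
import Pool.Agent.H36.SB.GOuter
import Pool.Agent.H97.SIM.WArea

/-!
# The weighted area principle, general radial weight

PROOF: copy `wb_nonneg` and `warea` from `H97/SIM/WArea.lean`. `gb_nonneg`: as there, with the weight
`Ps y + y Ps' y >= 0`. `garea`: put `ρ = 1/x` and apply `gb_nonneg` with
`Qs y = Ps (x^2 y)`, `Qs' y = x^2 Ps' (x^2 y)` (so `Qs y + y Qs' y >= 0`). For `z = ρ e^(it)`,
`u = 1/z = x e^(-it)`: `F z = S u / u`, `|F z|^2 = |S u|^2 / x^2`,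
`conj (F z) z F'(z) = (|S|^2 - conj S u S') / x^2`. Multiply by `x^2`, substitute `t -> -t`.
-/

open Complex MeasureTheory Set Filter Topology
open scoped ComplexConjugate Real

namespace Pool.Agent.H36.SB

open Pool.Agent.H97.SIM Pool.Agent.H15.Sig

variable {F : ℂ → ℂ} {b : ℕ → ℂ}

theorem gb_nonneg (h : IsSig F b) {Ps Ps' : ℝ → ℝ} (hP : ∀ y, 0 ≤ y → HasDerivAt Ps (Ps' y) y)
    (cP' : ContinuousOn Ps' (Ici 0)) (hD : ∀ y, 0 ≤ y → 0 ≤ Ps y + y * Ps' y) {ρ : ℝ}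
    (hρ : 1 < ρ) : 0 ≤ gb F Ps ρ := by
  obtain ⟨R0, hR0⟩ := h.good
  set R := max R0 (ρ + 1) with hRdef
  have g : Good F R := hR0 R (le_max_left _ _)
  have hρR : ρ < R := by have := le_max_right R0 (ρ + 1); linarith
  have hRpos : 0 < R := by linarith
  have hnorm : ∀ t : ℝ, ‖(R : ℂ) * exp (t * I)‖ = R := by
    intro t
    rw [norm_mul, norm_exp_ofReal_mul_I, mul_one, norm_real, Real.norm_eq_abs, abs_of_pos hRpos]
  have hin := ginner h hP cP' hρ hρR.le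
  obtain ⟨hint, hout⟩ := gouter h hP cP' g
  set S1 := (fun x : ℝ × ℝ => toR (F (exp (x.1 + x.2 * I)))) ''
      (Ioo (Real.log ρ) (Real.log R) ×ˢ Ioc (-π) π) with hS1
  set S2 := (fun x : ℝ × ℝ => toR ((x.1 : ℂ) * F (R * exp (x.2 * I)))) ''
      (Ioo 0 1 ×ˢ Ioc (-π) π) with hS2
  have hsub : S1 ⊆ S2 ∪ {toR 0} := by
    rintro w ⟨x, hx, rfl⟩
    simp only
    have hxn : ‖exp ((x.1 : ℂ) + x.2 * I)‖ = Real.exp x.1 := by
      rw [norm_exp]; simp
    have hx1 : 1 < ‖exp ((x.1 : ℂ) + x.2 * I)‖ := by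
      rw [hxn]
      have : 0 < x.1 := by have := hx.1.1; have := Real.log_pos hρ; linarith
      exact Real.one_lt_exp_iff.2 this
    have hxR : ‖exp ((x.1 : ℂ) + x.2 * I)‖ < R := by
      rw [hxn]
      have := Real.exp_lt_exp.2 hx.1.2
      rwa [Real.exp_log hRpos] at this
    by_cases hw : F (exp ((x.1 : ℂ) + x.2 * I)) = 0
    · right
      rw [hw]; rfl
    · left
      obtain ⟨s, hs, t, ht, he⟩ := g.dir h _ hw
      refine ⟨(s, t), ⟨⟨hs, ?_⟩, ht⟩, by simp only; rw [← he]⟩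
      by_contra hs1
      have hs1' : 1 ≤ s := not_lt.1 hs1
      obtain ⟨ζ, hζ2, hζ⟩ := g.surj _ s (hnorm t) hs1'
      have r := g.ray _ ζ s (hnorm t) hζ2 hs1' hζ
      have hζz : F ζ = F (exp ((x.1 : ℂ) + x.2 * I)) := by rw [hζ, he]
      have hζ1 : 1 < ‖ζ‖ := by linarith
      have := h.inj hζ1 hx1 hζz
      rw [← this] at hxR
      linarith [r.1]
  have hle : (∫ w in S1, (Ps (‖toC w‖ ^ 2) + ‖toC w‖ ^ 2 * Ps' (‖toC w‖ ^ 2))) ≤
      ∫ w in S2, (Ps (‖toC w‖ ^ 2) + ‖toC w‖ ^ 2 * Ps' (‖toC w‖ ^ 2)) := by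
    apply setIntegral_mono_set hint
    · exact Eventually.of_forall fun w => hD _ (by positivity)
    · have h0 : (S2 ∪ {toR 0} : Set (ℝ × ℝ)) =ᵐ[volume] S2 := by
        exact union_ae_eq_left_of_ae_eq_empty (by
          rw [ae_eq_empty]; exact measure_singleton _)
      exact (LE.le.eventuallyLE hsub).trans h0.le
  rw [hin, hout] at hle
  linarith

private theorem F_inv (h : IsSig F b) {u : ℂ} (hu : ‖u‖ < 1) (h0 : u ≠ 0) :
    F u⁻¹ = S b u / u := by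
  rw [h.eq_inv hu h0, S]
  field_simp

private theorem dF_inv (h : IsSig F b) {u : ℂ} (hu : ‖u‖ < 1) (h0 : u ≠ 0) :
    deriv F u⁻¹ * u⁻¹ = (S b u - u * deriv (S b) u) / u := by
  have hz : 1 < ‖u⁻¹‖ := by
    rw [norm_inv]
    exact (one_lt_inv₀ (norm_pos_iff.2 h0)).2 hu
  have hSd : HasDerivAt (S b) (deriv (S b) u) u :=
    ((S_diffOn h).differentiableAt (Metric.isOpen_ball.mem_nhds (by simpa using hu))).hasDerivAt
  have h1 : HasDerivAt (fun z : ℂ => z * S b z⁻¹)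
      (1 * S b (u⁻¹)⁻¹ + u⁻¹ * (deriv (S b) u * (-(u⁻¹ ^ 2)⁻¹))) u⁻¹ := by
    have h2 : HasDerivAt (fun z : ℂ => z⁻¹) (-(u⁻¹ ^ 2)⁻¹) u⁻¹ :=
      hasDerivAt_inv (inv_ne_zero h0)
    have h3 : HasDerivAt (S b) (deriv (S b) u) (u⁻¹)⁻¹ := by rwa [inv_inv]
    exact (hasDerivAt_id u⁻¹).mul (h3.comp u⁻¹ h2)
  have h4 : (fun z : ℂ => z * S b z⁻¹) =ᶠ[𝓝 u⁻¹] F := by
    have : {z : ℂ | 1 < ‖z‖} ∈ 𝓝 u⁻¹ := (isOpen_lt continuous_const continuous_norm).mem_nhds hz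
    filter_upwards [this] with z hz
    have hz1 : (1 : ℝ) < ‖z‖ := hz
    have hz0 : z ≠ 0 := by
      rintro rfl
      rw [norm_zero] at hz1
      linarith
    have h5 := F_inv h (norm_inv_lt hz1) (inv_ne_zero hz0)
    rw [inv_inv] at h5
    rw [h5, div_inv_eq_mul, mul_comm]
  have h6 := (h4.hasDerivAt_iff.1 h1).deriv
  rw [h6, inv_inv]
  field_simp
  ring

theorem garea (h : IsSig F b) {Ps Ps' : ℝ → ℝ} (hP : ∀ y, 0 ≤ y → HasDerivAt Ps (Ps' y) y)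
    (cP' : ContinuousOn Ps' (Ici 0)) (hD : ∀ y, 0 ≤ y → 0 ≤ Ps y + y * Ps' y) {x : ℝ}
    (hx0 : 0 < x) (hx : x < 1) :
    0 ≤ av (fun t => Ps (‖sx b x t‖ ^ 2) *
      (‖sx b x t‖ ^ 2 - (conj (sx b x t) * sd b x t).re)) := by
  have hρ : 1 < x⁻¹ := (one_lt_inv₀ hx0).2 hx
  have hx2 : 0 < x ^ 2 := by positivity
  have hQ : ∀ y, 0 ≤ y → HasDerivAt (fun y => Ps (x ^ 2 * y)) (x ^ 2 * Ps' (x ^ 2 * y)) y := by
    intro y hy
    have h1 : HasDerivAt (fun y : ℝ => x ^ 2 * y) (x ^ 2) y := by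
      simpa using (hasDerivAt_id y).const_mul (x ^ 2)
    have h2 := (hP (x ^ 2 * y) (by positivity)).comp y h1
    rw [mul_comm]
    exact h2
  have cQ : ContinuousOn (fun y => x ^ 2 * Ps' (x ^ 2 * y)) (Ici 0) := by
    refine continuousOn_const.mul (cP'.comp (by fun_prop) ?_)
    intro y hy
    have hy' : (0 : ℝ) ≤ y := hy
    show (0 : ℝ) ≤ x ^ 2 * y
    positivity
  have hDQ : ∀ y, 0 ≤ y → 0 ≤ (fun y => Ps (x ^ 2 * y)) y + y * (fun y => x ^ 2 * Ps' (x ^ 2 * y)) y := by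
    intro y hy
    have h1 := hD (x ^ 2 * y) (by positivity)
    have h2 : (fun y => Ps (x ^ 2 * y)) y + y * (fun y => x ^ 2 * Ps' (x ^ 2 * y)) y =
        Ps (x ^ 2 * y) + x ^ 2 * y * Ps' (x ^ 2 * y) := by
      simp only
      ring
    rw [h2]
    exact h1
  have hw := gb_nonneg h hQ cQ hDQ hρ
  rw [← av_neg]
  unfold av
  refine mul_nonneg (by positivity) ?_
  have h2 : gb F (fun y => Ps (x ^ 2 * y)) x⁻¹ = (x ^ 2)⁻¹ * ∫ t in (-π)..π,
      Ps (‖sx b x (-t)‖ ^ 2) *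
      (‖sx b x (-t)‖ ^ 2 - (conj (sx b x (-t)) * sd b x (-t)).re) := by
    rw [← intervalIntegral.integral_const_mul]
    unfold gb
    apply intervalIntegral.integral_congr
    intro t _
    simp only
    set u : ℂ := x * e (-t) with hu
    have hun : ‖u‖ = x := norm_xe hx0 (-t)
    have hu0 : u ≠ 0 := by
      rw [← norm_pos_iff, hun]; exact hx0
    have hu1 : ‖u‖ < 1 := by rw [hun]; exact hx
    have hz : ((x⁻¹ : ℝ) : ℂ) * exp (t * I) = u⁻¹ := by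
      rw [hu, mul_inv, e, ← Complex.exp_neg]
      push_cast
      congr 2
      ring
    rw [hz, dF_inv h hu1 hu0, F_inv h hu1 hu0]
    have e1 : sx b x (-t) = S b u := rfl
    have e2 : sd b x (-t) = u * deriv (S b) u := rfl
    rw [e1, e2]
    have e3 : x ^ 2 * ‖S b u / u‖ ^ 2 = ‖S b u‖ ^ 2 := by
      rw [norm_div, hun]
      field_simp
    have e4 : (conj (S b u / u) * ((S b u - u * deriv (S b) u) / u)).re =
        (x ^ 2)⁻¹ * (‖S b u‖ ^ 2 - (conj (S b u) * (u * deriv (S b) u)).re) := by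
      have e5 : conj (S b u / u) * ((S b u - u * deriv (S b) u) / u) =
          (((x ^ 2)⁻¹ : ℝ) : ℂ) * (conj (S b u) * S b u - conj (S b u) * (u * deriv (S b) u)) := by
        have e6 : conj u * u = ((x ^ 2 : ℝ) : ℂ) := by
          rw [Complex.conj_mul', hun]; push_cast; rfl
        have e7 : (((x ^ 2)⁻¹ : ℝ) : ℂ) = (conj u * u)⁻¹ := by
          rw [e6]; push_cast; rfl
        rw [e7, map_div₀]
        have hcu : conj u ≠ 0 := by simpa using hu0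
        field_simp
      rw [e5, Complex.re_ofReal_mul, Complex.sub_re, Complex.conj_mul']
      norm_cast
    rw [e3, e4]
    ring
  rw [h2] at hw
  exact nonneg_of_mul_nonneg_right hw (by positivity)

end Pool.Agent.H36.SB
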