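import Pool.Agent.H36.SB.Defs
import Pool.Agent.H97.SIM.PairA
import Pool.Agent.H97.SIM.PairB

/-!
# The first two Schur steps: coefficients

`(f,h) -> (f1,g1) -> (f2,g2)`, `f_0 = 1`, `f_1 = 0`.

PROOF of `gamA`. First step, `c = cosh T1`, `σ = sinh T1`, `c^2 - σ^2 = 1`: coefficient `0` of
`ef`: `c = σ w1 h_0` (`f_0 = 1`), coefficient `1` of `ef`: `f1_0 = - σ w1 h_1`; `eh`:
`g1_0 = c w1 h_0 - σ`, `g1_1 = c w1 h_1`. So `σ <> 0`, `|h_0| = c / |σ|`,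
`g1_0 = c^2/σ - σ = 1/σ`, and `|f1_0| = |σ| |h_1|`, `|g1_1| = c |h_1|`, `|g1_0| = 1/|σ|`:
`|f1_0| |h_0| = c |h_1| = |g1_1|`. (1)
Second step, `c' = cosh T2`, `σ' = sinh T2`: `c' g2 + σ' X f2 = w2 g1` (combine `ef`, `eh`,
`c'^2 - σ'^2 = 1`). Coefficients: `w2 g1_0 = c' g2_0`, `w2 g1_1 = c' g2_1 + σ' f2_0`, and from
coefficient `0` of `ef`: `c' f1_0 = σ' w2 g1_0`, so `|σ'| / c' = |f1_0| / |g1_0| =: γ1`.
Hence `|g1_1| / |g1_0| <= |g2_1| / |g2_0| + (|σ'|/c') |f2_0| / |g2_0|`. With (1):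
`|f1_0| |h_0| / |g1_0| <= |g2_1| / |g2_0| + γ1 |f2_0| / |g2_0|`. (`g1_0, g2_0 <> 0` by `nz`.)

PROOF of `gamB`. Let `M > natDegree f` be large (`M >= N`); all sums over `range M`. By
`Pair.parseval` for `(f2, g2)`: `|g2_0|^2 - |f2_0|^2 - s = sum_(j>=1) (|f2_j|^2 - |g2_j|^2)`.
Insert `S2.cf` (`|f2_j|^2 = |g2_(j+1)|^2 + |f1_(j+1)|^2 - |g1_(j+1)|^2`): the sum is
`- |g2_1|^2 + sum_(j>=2) (|f1_j|^2 - |g1_j|^2) <= sum_(j>=2) (|f1_j|^2 - |g1_j|^2)`, and with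
`S1.cf` similarly `<= sum_(j>=3) (|f_j|^2 - |h_j|^2) <= sum_(j>=3) |f_j|^2 = tt f N 3`.
-/

open Complex MeasureTheory Set Filter Topology Polynomial
open scoped ComplexConjugate Real

namespace Pool.Agent.H36.SB

open Pool.Agent.H97.SIM

variable {s : ℝ} {f h f1 g1 f2 g2 : ℂ[X]} {w1 w2 : ℂ} {T1 T2 : ℝ}

private lemma nz0 {s : ℝ} {p q : ℂ[X]} (P : Pair s p q) : q.coeff 0 ≠ 0 := by
  rw [coeff_zero_eq_eval_zero]
  exact P.nz 0 (by simp)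

private lemma sub_left' {a b : ℂ} (h : 0 = a - b) : a = b := (sub_eq_zero.1 h.symm)

theorem gamA (P : Pair s f h) (h0 : f.coeff 0 = 1) (h1 : f.coeff 1 = 0)
    (S1 : Stp s f h w1 T1 f1 g1) (S2 : Stp s f1 g1 w2 T2 f2 g2) :
    ‖f1.coeff 0‖ / ‖g1.coeff 0‖ * ‖h.coeff 0‖ ≤ ‖g2.coeff 1‖ / ‖g2.coeff 0‖ +
      ‖f1.coeff 0‖ / ‖g1.coeff 0‖ * (‖f2.coeff 0‖ / ‖g2.coeff 0‖) := by
  have hg1 : 0 < ‖g1.coeff 0‖ := norm_pos_iff.2 (nz0 S1.pair)
  have hg2 : 0 < ‖g2.coeff 0‖ := norm_pos_iff.2 (nz0 S2.pair)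
  have hc1 : 0 < Real.cosh T1 := Real.cosh_pos T1
  have hc2 : 0 < Real.cosh T2 := Real.cosh_pos T2
  have n1 : ‖(Real.cosh T1 : ℂ)‖ = Real.cosh T1 := by
    rw [Complex.norm_real, Real.norm_eq_abs, abs_of_pos hc1]
  have n2 : ‖(Real.cosh T2 : ℂ)‖ = Real.cosh T2 := by
    rw [Complex.norm_real, Real.norm_eq_abs, abs_of_pos hc2]
  have m1 : ‖(Real.sinh T1 : ℂ)‖ = |Real.sinh T1| := by
    rw [Complex.norm_real, Real.norm_eq_abs]
  have m2 : ‖(Real.sinh T2 : ℂ)‖ = |Real.sinh T2| := by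
    rw [Complex.norm_real, Real.norm_eq_abs]
  -- first step
  have e0 : (Real.cosh T1 : ℂ) = (Real.sinh T1 : ℂ) * w1 * h.coeff 0 := by
    have e := congrArg (fun p : ℂ[X] => p.coeff 0) S1.ef
    simp only [coeff_sub, mul_coeff_zero, coeff_X_zero, coeff_C_zero, zero_mul, h0, mul_one] at e
    exact sub_left' e
  have e1 : f1.coeff 0 = -((Real.sinh T1 : ℂ) * w1 * h.coeff 1) := by
    have e := congrArg (fun p : ℂ[X] => p.coeff 1) S1.ef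
    have e' : (X * f1).coeff 1 = f1.coeff 0 := coeff_X_mul f1 0
    simp only [coeff_sub, coeff_C_mul, h1, mul_zero, zero_sub] at e
    rw [e'] at e
    exact e
  have e2 : g1.coeff 1 = (Real.cosh T1 : ℂ) * w1 * h.coeff 1 := by
    have e := congrArg (fun p : ℂ[X] => p.coeff 1) S1.eh
    simp only [coeff_sub, coeff_C_mul, h1, mul_zero, sub_zero] at e
    exact e
  have k0 : Real.cosh T1 = |Real.sinh T1| * ‖h.coeff 0‖ := by
    have e := congrArg norm e0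
    rwa [norm_mul, norm_mul, n1, m1, S1.nw, mul_one] at e
  have k1 : ‖f1.coeff 0‖ = |Real.sinh T1| * ‖h.coeff 1‖ := by
    rw [e1, norm_neg, norm_mul, norm_mul, m1, S1.nw, mul_one]
  have k2 : ‖g1.coeff 1‖ = Real.cosh T1 * ‖h.coeff 1‖ := by
    rw [e2, norm_mul, norm_mul, n1, S1.nw, mul_one]
  have k3 : ‖f1.coeff 0‖ * ‖h.coeff 0‖ = ‖g1.coeff 1‖ := by
    rw [k1, k2]
    conv_rhs => rw [k0]
    ring
  -- second step
  have cs : (Real.cosh T2 : ℂ) ^ 2 - (Real.sinh T2 : ℂ) ^ 2 = 1 := by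
    exact_mod_cast Real.cosh_sq_sub_sinh_sq T2
  have q0 : (Real.cosh T2 : ℂ) * f1.coeff 0 = (Real.sinh T2 : ℂ) * w2 * g1.coeff 0 := by
    have e := congrArg (fun p : ℂ[X] => p.coeff 0) S2.ef
    simp only [coeff_sub, mul_coeff_zero, coeff_X_zero, coeff_C_zero, zero_mul] at e
    exact sub_left' e
  have q1 : f2.coeff 0 = (Real.cosh T2 : ℂ) * f1.coeff 1 -
      (Real.sinh T2 : ℂ) * w2 * g1.coeff 1 := by
    have e := congrArg (fun p : ℂ[X] => p.coeff 1) S2.ef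
    have e' : (X * f2).coeff 1 = f2.coeff 0 := coeff_X_mul f2 0
    simp only [coeff_sub, coeff_C_mul] at e
    rw [e'] at e
    exact e
  have q2 : ∀ j, g2.coeff j = (Real.cosh T2 : ℂ) * w2 * g1.coeff j -
      (Real.sinh T2 : ℂ) * f1.coeff j := by
    intro j
    have e := congrArg (fun p : ℂ[X] => p.coeff j) S2.eh
    simp only [coeff_sub, coeff_C_mul] at e
    exact e
  have r0 : (Real.cosh T2 : ℂ) * g2.coeff 0 = w2 * g1.coeff 0 := by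
    rw [q2 0]
    linear_combination (-(Real.sinh T2 : ℂ)) * q0 + w2 * g1.coeff 0 * cs
  have r1 : w2 * g1.coeff 1 = (Real.cosh T2 : ℂ) * g2.coeff 1 +
      (Real.sinh T2 : ℂ) * f2.coeff 0 := by
    rw [q2 1, q1]
    linear_combination (-(w2 * g1.coeff 1)) * cs
  have t0 : Real.cosh T2 * ‖f1.coeff 0‖ = |Real.sinh T2| * ‖g1.coeff 0‖ := by
    have e := congrArg norm q0
    rwa [norm_mul, norm_mul, norm_mul, n2, m2, S2.nw, mul_one] at e
  have t1 : Real.cosh T2 * ‖g2.coeff 0‖ = ‖g1.coeff 0‖ := by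
    have e := congrArg norm r0
    rwa [norm_mul, norm_mul, n2, S2.nw, one_mul] at e
  have t2 : ‖g1.coeff 1‖ ≤ Real.cosh T2 * ‖g2.coeff 1‖ + |Real.sinh T2| * ‖f2.coeff 0‖ := by
    have e := congrArg norm r1
    rw [norm_mul, S2.nw, one_mul] at e
    rw [e]
    refine (norm_add_le _ _).trans ?_
    rw [norm_mul, norm_mul, n2, m2]
  have u1 : ‖f1.coeff 0‖ / ‖g1.coeff 0‖ = |Real.sinh T2| / Real.cosh T2 := by
    rw [div_eq_div_iff hg1.ne' hc2.ne']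
    linarith
  rw [u1]
  have u2 : |Real.sinh T2| / Real.cosh T2 * ‖h.coeff 0‖ = ‖g1.coeff 1‖ / ‖g1.coeff 0‖ := by
    rw [← u1, ← k3]
    ring
  rw [u2, ← t1]
  have u3 : ‖g2.coeff 1‖ / ‖g2.coeff 0‖ +
      |Real.sinh T2| / Real.cosh T2 * (‖f2.coeff 0‖ / ‖g2.coeff 0‖) =
      (Real.cosh T2 * ‖g2.coeff 1‖ + |Real.sinh T2| * ‖f2.coeff 0‖) /
        (Real.cosh T2 * ‖g2.coeff 0‖) := by
    field_simp
  rw [u3]
  exact div_le_div_of_nonneg_right t2 (by positivity)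

private lemma tele (a b c d : ℕ → ℝ) (hh : ∀ j, a j - b (j + 1) = c (j + 1) - d (j + 1))
    (i n : ℕ) : ∑ j ∈ Finset.range n, (a (j + i) - b (j + i)) =
      b (n + i) - b i + ∑ j ∈ Finset.range n, (c (j + (i + 1)) - d (j + (i + 1))) := by
  induction n with
  | zero => simp
  | succ n ih =>
    rw [Finset.sum_range_succ, Finset.sum_range_succ, ih]
    have e := hh (n + i)
    have e1 : n + 1 + i = n + i + 1 := by ring
    have e2 : n + (i + 1) = n + i + 1 := by ring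
    rw [e1, e2]
    linarith

theorem gamB (S1 : Stp s f h w1 T1 f1 g1) (S2 : Stp s f1 g1 w2 T2 f2 g2) {N : ℕ}
    (hN : f.natDegree < N) :
    ‖g2.coeff 0‖ ^ 2 - ‖f2.coeff 0‖ ^ 2 - s ≤ tt f N 3 := by
  obtain ⟨n, rfl⟩ : ∃ n, N = n + 1 := ⟨N - 1, by omega⟩
  have d1 : f1.natDegree < n + 1 := lt_of_le_of_lt (S1.deg.trans (Nat.sub_le _ _)) hN
  have d2 : f2.natDegree < n + 1 := lt_of_le_of_lt (S2.deg.trans (Nat.sub_le _ _)) d1
  have d3 : g2.coeff (n + 1) = 0 :=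
    coeff_eq_zero_of_natDegree_lt (lt_of_le_of_lt S2.pair.deg d2)
  have d4 : g1.coeff (n + 2) = 0 :=
    coeff_eq_zero_of_natDegree_lt (lt_of_le_of_lt S1.pair.deg (by omega))
  have hp := S2.pair.parseval d2
  rw [Finset.sum_range_succ', Finset.sum_range_succ'] at hp
  have hA := tele (fun j => ‖f2.coeff j‖ ^ 2) (fun j => ‖g2.coeff j‖ ^ 2)
    (fun j => ‖f1.coeff j‖ ^ 2) (fun j => ‖g1.coeff j‖ ^ 2) S2.cf 1 n
  have hB := tele (fun j => ‖f1.coeff j‖ ^ 2) (fun j => ‖g1.coeff j‖ ^ 2)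
    (fun j => ‖f.coeff j‖ ^ 2) (fun j => ‖h.coeff j‖ ^ 2) S1.cf 2 n
  simp only [show (1 : ℕ) + 1 = 2 from rfl, show (2 : ℕ) + 1 = 3 from rfl] at hA hB
  rw [d3] at hA
  rw [d4] at hB
  rw [Finset.sum_sub_distrib] at hA
  have hC : ∑ j ∈ Finset.range n, (‖f.coeff (j + 3)‖ ^ 2 - ‖h.coeff (j + 3)‖ ^ 2) ≤
      ∑ j ∈ Finset.range n, ‖f.coeff (j + 3)‖ ^ 2 :=
    Finset.sum_le_sum fun j _ => by
      have := sq_nonneg ‖h.coeff (j + 3)‖
      linarith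
  have hD : ∑ j ∈ Finset.range n, ‖f.coeff (j + 3)‖ ^ 2 = tt f (n + 1) 3 := by
    have e1 : ∑ j ∈ Finset.range (n + 3), (if 3 ≤ j then ‖f.coeff j‖ ^ 2 else 0) =
        ∑ j ∈ Finset.range n, ‖f.coeff (j + 3)‖ ^ 2 := by
      rw [Finset.sum_range_succ', Finset.sum_range_succ', Finset.sum_range_succ']
      rw [if_neg (by norm_num), if_neg (by norm_num), if_neg (by norm_num), add_zero, add_zero,
        add_zero]
      refine Finset.sum_congr rfl fun j _ => ?_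
      rw [if_pos (by omega)]
    have z1 : f.coeff (n + 1) = 0 := coeff_eq_zero_of_natDegree_lt hN
    have z2 : f.coeff (n + 2) = 0 := coeff_eq_zero_of_natDegree_lt (by omega)
    rw [← e1, tt, Finset.sum_range_succ, Finset.sum_range_succ, z1, z2]
    simp
  have p1 := sq_nonneg ‖g2.coeff 1‖
  have p2 := sq_nonneg ‖g1.coeff 2‖
  have z : ‖(0:ℂ)‖ ^ 2 = 0 := by simp
  rw [z] at hA hB
  linarith

end Pool.Agent.H36.SB
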