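import Pool.Agent.H36.SB.Core3
import Pool.Agent.H36.SB.AreaL

/-!
# The core inequality for the class Sigma

PROOF. Apply `core3` to `f_N = pN b x N` (`H97/SIM/Lim.lean`; `f_0 = 1`, `f_1 = b_0 x = 0`,
`f_2 = b_1 x^2` for `N >= 2`) with `δ_N = max 0 (Ig f_N - (Lg f_N - log s))` and let `N -> oo`:
`pe f_N -> sx b x`, `pd f_N -> sd b x` uniformly (`pe_pN_tendsto`, `pd_pN_tendsto`), so
`Lg, Ig, M2, M4, A1, A2` converge (`Lg_tendsto`, `Ig_tendsto` in `LimB`; `M2`, `M4`, `A1`, `A2` in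
the same way: copy the private lemmas `av_tendsto`, `bound_of_unif` from there). By `W1` the limit
of `Ig f_N - (Lg f_N - log s)` is `<= 0`, so `δ_N -> 0`. `E_N = exp (Lg f_N) -> E`, `E >= 1 + s`
as a limit, `E > 1`. `KB s E_N δ_N om_N -> KB s E 0 om` (composition of continuous functions;
`1 - sqrt (R R') <> 0` in the limit because `R R' = R^2`, `R = 1/E < 1`), `om_N ->
M2 (sx b x) - 1 - |b_1|^2 x^4 = ox b x` (`av_sx_sq`: `M2 (sx b x) = 1 + mx b x`), and
`KB s E 0 om = 2 ((E-1)/s) R^2 om / (s (1-R)^2) = 2 om / ((E-1) s^2)`.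
-/

open Complex MeasureTheory Set Filter Topology Polynomial
open scoped ComplexConjugate Real

namespace Pool.Agent.H36.SB

open Pool.Agent.H97.SIM Pool.Agent.H15.Sig

variable {F : ℂ → ℂ} {b : ℕ → ℂ}

theorem M2_sx (h : IsSig F b) {x : ℝ} (hx0 : 0 < x) (hx : x < 1) :
    M2 (sx b x) = 1 + mx b x := av_sx_sq h hx0 hx

private theorem lim3_av {Φ : ℕ → ℝ → ℝ} {Ψ : ℝ → ℝ} {C : ℝ} (hΦ : ∀ N, Continuous (Φ N))
    (hb : ∀ᶠ N in atTop, ∀ t ∈ Icc (-π) π, |Φ N t| ≤ C)
    (hl : ∀ t, Tendsto (fun N => Φ N t) atTop (𝓝 (Ψ t))) :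
    Tendsto (fun N => av (Φ N)) atTop (𝓝 (av Ψ)) := by
  have hpi : -π ≤ π := by linarith [Real.pi_pos]
  unfold av
  refine Tendsto.const_mul _ ?_
  refine intervalIntegral.tendsto_integral_filter_of_dominated_convergence (fun _ => C) ?_ ?_
    intervalIntegrable_const ?_
  · exact Eventually.of_forall fun N => (hΦ N).aestronglyMeasurable
  · filter_upwards [hb] with N hN
    refine Eventually.of_forall fun t ht => ?_
    rw [uIoc_of_le hpi] at ht
    rw [Real.norm_eq_abs]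
    exact hN t ⟨ht.1.le, ht.2⟩
  · exact Eventually.of_forall fun t _ => hl t

private theorem lim3_bd {g : ℕ → ℝ → ℂ} {G : ℝ → ℂ} (hG : Continuous G)
    (h : TendstoUniformly g G atTop) :
    ∃ M : ℝ, 0 ≤ M ∧ ∀ᶠ N in atTop, ∀ t ∈ Icc (-π) π, ‖g N t‖ ≤ M := by
  obtain ⟨M, hM⟩ := (isCompact_Icc (a := -π) (b := π)).exists_bound_of_continuousOn
    hG.continuousOn
  refine ⟨|M| + 1, by positivity, ?_⟩
  have h1 := Metric.tendstoUniformly_iff.1 h 1 one_pos
  filter_upwards [h1] with N hN t ht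
  have h2 := hM t ht
  have h3 := hN t
  rw [dist_eq_norm] at h3
  have h4 : ‖g N t‖ ≤ ‖G t‖ + ‖G t - g N t‖ := by
    have := norm_sub_le (G t) (G t - g N t)
    rwa [sub_sub_cancel] at this
  have h5 := le_abs_self M
  linarith

private theorem lim3_pow {g : ℕ → ℝ → ℂ} {G : ℝ → ℂ} (k : ℕ)
    (hg : ∀ N, Continuous (g N)) (hG : Continuous G) (h : TendstoUniformly g G atTop) :
    Tendsto (fun N => av fun t => ‖g N t‖ ^ k) atTop (𝓝 (av fun t => ‖G t‖ ^ k)) := by
  obtain ⟨M, hM0, hM⟩ := lim3_bd hG h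
  refine lim3_av (C := M ^ k) (fun N => (hg N).norm.pow k) ?_ ?_
  · filter_upwards [hM] with N hN t ht
    rw [abs_of_nonneg (by positivity)]
    exact pow_le_pow_left₀ (norm_nonneg _) (hN t ht) k
  · intro t
    have h1 : Tendsto (fun N => g N t) atTop (𝓝 (G t)) := h.tendsto_at t
    exact h1.norm.pow k

private theorem lim3_re {g k : ℕ → ℝ → ℂ} {G K : ℝ → ℂ} (j : ℕ)
    (hg : ∀ N, Continuous (g N)) (hG : Continuous G) (h : TendstoUniformly g G atTop)
    (hk : ∀ N, Continuous (k N)) (hK : Continuous K) (h' : TendstoUniformly k K atTop) :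
    Tendsto (fun N => av fun t => ‖g N t‖ ^ j * (conj (g N t) * k N t).re) atTop
      (𝓝 (av fun t => ‖G t‖ ^ j * (conj (G t) * K t).re)) := by
  obtain ⟨M, hM0, hM⟩ := lim3_bd hG h
  obtain ⟨M', hM'0, hM'⟩ := lim3_bd hK h'
  refine lim3_av (C := M ^ j * (M * M')) ?_ ?_ ?_
  · intro N
    have c2 : Continuous fun t => (conj (g N t) * k N t).re :=
      continuous_re.comp ((continuous_conj.comp (hg N)).mul (hk N))
    exact ((hg N).norm.pow j).mul c2
  · filter_upwards [hM, hM'] with N hN hN' t ht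
    rw [abs_mul]
    refine mul_le_mul ?_ ?_ (abs_nonneg _) (by positivity)
    · rw [abs_of_nonneg (by positivity)]
      exact pow_le_pow_left₀ (norm_nonneg _) (hN t ht) j
    · refine (Complex.abs_re_le_norm _).trans ?_
      rw [norm_mul, Complex.norm_conj]
      exact mul_le_mul (hN t ht) (hN' t ht) (norm_nonneg _) hM0
  · intro t
    have h1 : Tendsto (fun N => g N t) atTop (𝓝 (G t)) := h.tendsto_at t
    have h2 : Tendsto (fun N => k N t) atTop (𝓝 (K t)) := h'.tendsto_at t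
    have h4 : Tendsto (fun N => (conj (g N t) * k N t).re) atTop (𝓝 (conj (G t) * K t).re) :=
      (continuous_re.tendsto _).comp (((continuous_conj.tendsto _).comp h1).mul h2)
    exact (h1.norm.pow j).mul h4

private theorem lim3_KB {s E om : ℝ} (hs : 0 < s) (hE : 1 < E) :
    KB s E 0 om = 2 * om / ((E - 1) * s ^ 2) := by
  unfold KB
  have hE0 : 0 < E := by linarith
  have hE1 : E - 1 ≠ 0 := by linarith
  have hR : 0 ≤ 1 / E := by positivity
  have e1 : (1 / E) * (1 - Real.exp (-0) * (1 - 1 / E)) = (1 / E) ^ 2 := by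
    rw [neg_zero, Real.exp_zero]
    ring
  rw [e1, Real.sqrt_sq hR]
  have e2 : (1 - 1 / E) = (E - 1) / E := by field_simp
  rw [e2]
  field_simp

private theorem lim3_KB_tendsto {s E om : ℝ} (hs : 0 < s) (hE : 1 < E) {EN dN oN : ℕ → ℝ}
    (h1 : Tendsto EN atTop (𝓝 E)) (h2 : Tendsto dN atTop (𝓝 0)) (h3 : Tendsto oN atTop (𝓝 om)) :
    Tendsto (fun N => KB s (EN N) (dN N) (oN N)) atTop (𝓝 (KB s E 0 om)) := by
  unfold KB
  have hE0 : 0 < E := by linarith
  have hR : 0 ≤ 1 / E := by positivity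
  have hi : Tendsto (fun N => 1 / EN N) atTop (𝓝 (1 / E)) :=
    tendsto_const_nhds.div h1 hE0.ne'
  have hr : Tendsto (fun N => (1 / EN N) * (1 - Real.exp (-(dN N)) * (1 - 1 / EN N))) atTop
      (𝓝 ((1 / E) * (1 - Real.exp (-0) * (1 - 1 / E)))) :=
    hi.mul (tendsto_const_nhds.sub (((Real.continuous_exp.tendsto _).comp h2.neg).mul
      (tendsto_const_nhds.sub hi)))
  have hq := (Real.continuous_sqrt.tendsto _).comp hr
  have hne : s * (1 - Real.sqrt ((1 / E) * (1 - Real.exp (-0) * (1 - 1 / E)))) ^ 2 ≠ 0 := by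
    have e1 : (1 / E) * (1 - Real.exp (-0) * (1 - 1 / E)) = (1 / E) ^ 2 := by
      rw [neg_zero, Real.exp_zero]
      ring
    rw [e1, Real.sqrt_sq hR]
    have e2 : (1 - 1 / E) = (E - 1) / E := by field_simp
    rw [e2]
    have : 0 < (E - 1) / E := div_pos (by linarith) hE0
    positivity
  exact (((h1.sub_const 1).div_const s).const_mul 2).mul
    ((hr.mul h3).div (((tendsto_const_nhds.sub hq).pow 2).const_mul s) hne)

theorem core3S (h : IsSig F b) {x s : ℝ} (hx0 : 0 < x) (hx : x < 1) (hs : 0 < s) :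
    1 + s ≤ Real.exp (Lg s (sx b x)) ∧
    2 * Real.log ((Real.exp (Lg s (sx b x)) - 1) / s) -
      2 * ox b x / ((Real.exp (Lg s (sx b x)) - 1) * s ^ 2) +
      (A1 (sx b x) (sd b x) - 2 * mx b x) / s -
      (A2 (sx b x) (sd b x) - 2 * (M4 (sx b x) - 1 - 2 * mx b x)) / (2 * s ^ 2) ≤
      Ig s (sx b x) (sd b x) := by
  have cpe : ∀ N, Continuous (fun t => pe (pN b x N) t) := fun N => by
    unfold pe
    exact (pN b x N).continuous.comp continuous_e
  have cpd : ∀ N, Continuous (fun t => pd (pN b x N) t) := fun N => by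
    unfold pd
    exact continuous_e.mul ((pN b x N).derivative.continuous.comp continuous_e)
  have hG := sx_continuous h hx0 hx
  have hK := sd_continuous h hx0 hx
  have up := pe_pN_tendsto h hx0 hx
  have ud := pd_pN_tendsto h hx0 hx
  have t1 : Tendsto (fun N => Lg s (pe (pN b x N))) atTop (𝓝 (Lg s (sx b x))) :=
    Lg_tendsto hs cpe hG up
  have t2 : Tendsto (fun N => Ig s (pe (pN b x N)) (pd (pN b x N))) atTop
      (𝓝 (Ig s (sx b x) (sd b x))) := Ig_tendsto hs cpe hG up cpd hK ud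
  have t3 : Tendsto (fun N => M2 (pe (pN b x N))) atTop (𝓝 (1 + mx b x)) := by
    rw [← M2_sx h hx0 hx]
    exact lim3_pow 2 cpe hG up
  have t4 : Tendsto (fun N => M4 (pe (pN b x N))) atTop (𝓝 (M4 (sx b x))) :=
    lim3_pow 4 cpe hG up
  have t5 : Tendsto (fun N => A1 (pe (pN b x N)) (pd (pN b x N))) atTop
      (𝓝 (A1 (sx b x) (sd b x))) := by
    have h1 := lim3_re 0 cpe hG up cpd hK ud
    simp only [pow_zero, one_mul] at h1
    exact h1
  have t6 : Tendsto (fun N => A2 (pe (pN b x N)) (pd (pN b x N))) atTop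
      (𝓝 (A2 (sx b x) (sd b x))) := lim3_re 2 cpe hG up cpd hK ud
  have tE : Tendsto (fun N => Real.exp (Lg s (pe (pN b x N)))) atTop
      (𝓝 (Real.exp (Lg s (sx b x)))) := (Real.continuous_exp.tendsto _).comp t1
  have hd : ∀ N, Ig s (pe (pN b x N)) (pd (pN b x N)) ≤ Lg s (pe (pN b x N)) - Real.log s +
      max 0 (Ig s (pe (pN b x N)) (pd (pN b x N)) - (Lg s (pe (pN b x N)) - Real.log s)) := by
    intro N
    have := le_max_right 0
      (Ig s (pe (pN b x N)) (pd (pN b x N)) - (Lg s (pe (pN b x N)) - Real.log s))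
    linarith
  have td : Tendsto (fun N => max 0 (Ig s (pe (pN b x N)) (pd (pN b x N)) -
      (Lg s (pe (pN b x N)) - Real.log s))) atTop (𝓝 0) := by
    have h1 := (t2.sub (t1.sub_const (Real.log s)))
    have h2 := (tendsto_const_nhds (x := (0:ℝ))).max h1
    have h3 : max 0 (Ig s (sx b x) (sd b x) - (Lg s (sx b x) - Real.log s)) = 0 :=
      max_eq_left (by linarith [W1 h hx0 hx hs])
    rw [h3] at h2
    exact h2
  have hc1 : ∀ᶠ N in atTop, (pN b x N).coeff 1 = 0 := by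
    filter_upwards [eventually_gt_atTop 0] with N hN
    rw [pN_coeff_succ b x N 0 hN, h.b0, zero_mul]
  have hc2 : ∀ᶠ N in atTop, ‖(pN b x N).coeff 2‖ ^ 2 = ‖b 1‖ ^ 2 * x ^ 4 := by
    filter_upwards [eventually_gt_atTop 1] with N hN
    rw [pN_coeff_succ b x N 1 hN, norm_mul, norm_pow, Complex.norm_real, Real.norm_eq_abs,
      abs_of_pos hx0]
    ring
  have tom : Tendsto (fun N => M2 (pe (pN b x N)) - 1 - ‖(pN b x N).coeff 2‖ ^ 2) atTop
      (𝓝 (ox b x)) := by
    have h1 : Tendsto (fun N => M2 (pe (pN b x N)) - 1 - ‖b 1‖ ^ 2 * x ^ 4) atTop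
        (𝓝 (1 + mx b x - 1 - ‖b 1‖ ^ 2 * x ^ 4)) := (t3.sub_const 1).sub_const _
    have e1 : 1 + mx b x - 1 - ‖b 1‖ ^ 2 * x ^ 4 = ox b x := by unfold ox; ring
    rw [e1] at h1
    refine h1.congr' ?_
    filter_upwards [hc2] with N hN
    rw [hN]
  have hcore : ∀ᶠ N in atTop, 1 + s ≤ Real.exp (Lg s (pe (pN b x N))) ∧
      2 * Real.log ((Real.exp (Lg s (pe (pN b x N))) - 1) / s) -
        KB s (Real.exp (Lg s (pe (pN b x N)))) (max 0 (Ig s (pe (pN b x N)) (pd (pN b x N)) -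
          (Lg s (pe (pN b x N)) - Real.log s)))
          (M2 (pe (pN b x N)) - 1 - ‖(pN b x N).coeff 2‖ ^ 2) +
        (A1 (pe (pN b x N)) (pd (pN b x N)) - 2 * (M2 (pe (pN b x N)) - 1)) / s -
        (A2 (pe (pN b x N)) (pd (pN b x N)) - 2 * (M4 (pe (pN b x N)) - 1 -
          2 * (M2 (pe (pN b x N)) - 1))) / (2 * s ^ 2) ≤
        Ig s (pe (pN b x N)) (pd (pN b x N)) := by
    filter_upwards [hc1] with N hN
    exact core3 hs (pN_coeff_zero b x N) hN (le_max_left _ _) (hd N)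
  have hE : 1 + s ≤ Real.exp (Lg s (sx b x)) :=
    ge_of_tendsto tE (hcore.mono fun N hN => hN.1)
  refine ⟨hE, ?_⟩
  have hE1 : 1 < Real.exp (Lg s (sx b x)) := by linarith
  have tK := lim3_KB_tendsto hs hE1 tE td tom
  rw [lim3_KB hs hE1] at tK
  have hlog : (Real.exp (Lg s (sx b x)) - 1) / s ≠ 0 :=
    (div_pos (by linarith) hs).ne'
  have tl : Tendsto (fun N => 2 * Real.log ((Real.exp (Lg s (pe (pN b x N))) - 1) / s)) atTop
      (𝓝 (2 * Real.log ((Real.exp (Lg s (sx b x)) - 1) / s))) :=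
    (((tE.sub_const 1).div_const s).log hlog).const_mul 2
  have tL := ((tl.sub tK).add ((t5.sub ((t3.sub_const 1).const_mul 2)).div_const s)).sub
    ((t6.sub (((t4.sub_const 1).sub ((t3.sub_const 1).const_mul 2)).const_mul 2)).div_const
      (2 * s ^ 2))
  have hfin := le_of_tendsto_of_tendsto tL t2 (hcore.mono fun N hN => hN.2)
  have e1 : 1 + mx b x - 1 = mx b x := by ring
  rw [e1] at hfin
  exact hfin

end Pool.Agent.H36.SB
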