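import Mathlib

/-!
# A maximum principle

PROOF. Let `ε > 0` and `V (x, s) = W x s + ε (x - x1)`. `V` is continuous on the compact rectangle
and attains its maximum at some `(x', s')`. If `x' = x1` or `s' = sa` or `s' = sb`, then
`V (x', s') <= B`. Otherwise `x0 <= x' < x1`, `sa < s' < sb`: `s'` is a local maximum of `V (x', .)`,
so `Ws x' s' = 0` (`IsLocalMax.hasDerivAt_eq_zero`), and `V (x, s') <= V (x', s')` for `x` in
`[x', x1]`, so the derivative `Wx x' s' + ε <= 0` (one-sided difference quotients). With the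
`c` from `ineq`: `0 <= Wx x' s' + c * 0 <= -ε < 0`, a contradiction. So `V <= B` on the rectangle,
`W x s <= B + ε (x1 - x)` for all `ε > 0`; let `ε -> 0`.
-/

open Set Filter Topology

namespace Pool.Agent.H36.SB

private theorem mp_right {f : ℝ → ℝ} {a x1 d : ℝ} (hd : HasDerivAt f d a) (ha : a < x1)
    (hmax : ∀ y ∈ Icc a x1, f y ≤ f a) : d ≤ 0 := by
  have h2 : Tendsto (slope f a) (𝓝[>] a) (𝓝 d) :=
    (hasDerivWithinAt_iff_tendsto_slope' (s := Ioi a) (by simp)).1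
      (hd.hasDerivWithinAt (s := Ioi a))
  refine le_of_tendsto h2 ?_
  filter_upwards [Ioo_mem_nhdsGT ha] with y hy
  rw [slope_def_field]
  have hy1 : f y ≤ f a := hmax y ⟨hy.1.le, hy.2.le⟩
  exact div_nonpos_of_nonpos_of_nonneg (by linarith) (by linarith [hy.1])

theorem maxp {x0 x1 sa sb B : ℝ} (hx : x0 < x1) (hs : sa < sb) {W Wx Ws : ℝ → ℝ → ℝ}
    (hc : ContinuousOn (fun p : ℝ × ℝ => W p.1 p.2) (Icc x0 x1 ×ˢ Icc sa sb))
    (dx : ∀ x ∈ Ico x0 x1, ∀ s ∈ Ioo sa sb, HasDerivAt (fun y => W y s) (Wx x s) x)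
    (ds : ∀ x ∈ Ico x0 x1, ∀ s ∈ Ioo sa sb, HasDerivAt (fun r => W x r) (Ws x s) s)
    (ineq : ∀ x ∈ Ico x0 x1, ∀ s ∈ Ioo sa sb, ∃ c : ℝ, 0 ≤ Wx x s + c * Ws x s)
    (right : ∀ s ∈ Icc sa sb, W x1 s ≤ B) (top : ∀ x ∈ Icc x0 x1, W x sb ≤ B)
    (bot : ∀ x ∈ Icc x0 x1, W x sa ≤ B) :
    ∀ x ∈ Icc x0 x1, ∀ s ∈ Icc sa sb, W x s ≤ B := by
  have key : ∀ ε : ℝ, 0 < ε → ∀ x ∈ Icc x0 x1, ∀ s ∈ Icc sa sb,
      W x s + ε * (x - x1) ≤ B := by
    intro ε hε
    have hV : ContinuousOn (fun p : ℝ × ℝ => W p.1 p.2 + ε * (p.1 - x1))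
        (Icc x0 x1 ×ˢ Icc sa sb) :=
      hc.add (by fun_prop)
    have hcp : IsCompact (Icc x0 x1 ×ˢ Icc sa sb) := isCompact_Icc.prod isCompact_Icc
    have hne : (Icc x0 x1 ×ˢ Icc sa sb).Nonempty :=
      ⟨(x0, sa), ⟨⟨le_rfl, hx.le⟩, ⟨le_rfl, hs.le⟩⟩⟩
    obtain ⟨p, hp, hmax⟩ := hcp.exists_isMaxOn hne hV
    obtain ⟨x', s'⟩ := p
    have hx' : x' ∈ Icc x0 x1 := hp.1
    have hs' : s' ∈ Icc sa sb := hp.2
    have hm : ∀ x ∈ Icc x0 x1, ∀ s ∈ Icc sa sb,
        W x s + ε * (x - x1) ≤ W x' s' + ε * (x' - x1) := by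
      intro x hxx s hss
      exact hmax (show (x, s) ∈ Icc x0 x1 ×ˢ Icc sa sb from ⟨hxx, hss⟩)
    have hneg : ε * (x' - x1) ≤ 0 := mul_nonpos_of_nonneg_of_nonpos hε.le (by linarith [hx'.2])
    have hB : W x' s' + ε * (x' - x1) ≤ B := by
      by_cases h1 : x' = x1
      · have := right s' hs'
        rw [h1] at hneg ⊢
        linarith
      by_cases h2 : s' = sa
      · have := bot x' hx'
        rw [h2]
        linarith
      by_cases h3 : s' = sb
      · have := top x' hx'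
        rw [h3]
        linarith
      exfalso
      have hx2 : x' < x1 := lt_of_le_of_ne hx'.2 h1
      have hxm : x' ∈ Ico x0 x1 := ⟨hx'.1, hx2⟩
      have hsm : s' ∈ Ioo sa sb := ⟨lt_of_le_of_ne hs'.1 (Ne.symm h2), lt_of_le_of_ne hs'.2 h3⟩
      have e1 : Ws x' s' = 0 := by
        have hl : IsLocalMax (fun r => W x' r) s' := by
          filter_upwards [Ioo_mem_nhds hsm.1 hsm.2] with r hr
          have := hm x' hx' r ⟨hr.1.le, hr.2.le⟩
          linarith
        exact hl.hasDerivAt_eq_zero (ds x' hxm s' hsm)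
      have e2 : Wx x' s' + ε ≤ 0 := by
        have hd : HasDerivAt (fun y => W y s' + ε * (y - x1)) (Wx x' s' + ε) x' := by
          have h4 : HasDerivAt (fun y : ℝ => ε * (y - x1)) ε x' := by
            simpa using ((hasDerivAt_id x').sub_const x1).const_mul ε
          exact (dx x' hxm s' hsm).add h4
        refine mp_right hd hx2 ?_
        intro y hy
        exact hm y ⟨hx'.1.trans hy.1, hy.2⟩ s' hs'
      obtain ⟨c, hc'⟩ := ineq x' hxm s' hsm
      rw [e1, mul_zero, add_zero] at hc'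
      linarith
    intro x hxx s hss
    exact (hm x hxx s hss).trans hB
  intro x hxx s hss
  have hxn : 0 ≤ x1 - x := by linarith [hxx.2]
  refine le_of_forall_pos_le_add ?_
  intro δ hδ
  have h1 := key (δ / (x1 - x + 1)) (by positivity) x hxx s hss
  have h2 : δ / (x1 - x + 1) * (x1 - x) ≤ δ := by
    rw [div_mul_eq_mul_div, div_le_iff₀ (by linarith)]
    nlinarith
  nlinarith

end Pool.Agent.H36.SB
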