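import Pool.Agent.H36.SB.Phi3

/-!
# Powers as mixtures of `phi3 (y / s)`, `2 < p < 3`

PROOF: copy `H97/SIM/Mix.lean`. The integrand `w^(p-1) phi3 (1/w)` is continuous on `w > 0`,
nonnegative, `<= w^(p-3)/4` on `(0, 1]` (`phi3_le_sq`; integrable since `p - 3 > -1`) and
`<= w^(p-4)/9` on `[1, oo)` (`phi3_le_cube`; integrable since `p - 4 < -1`). POSITIVE: `phi3 y > 0`
for `y > 4` by `phi3_ge`, so the integrand is positive for `0 < w < 1/4`. `mix3`: substitute
`s = y w` (`integral_comp_mul_left_Ioi`); for `y = 0` both sides are `0`.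
-/

open Complex MeasureTheory Set Filter Topology
open scoped ComplexConjugate Real

namespace Pool.Agent.H36.SB

open Pool.Agent.H97.SIM

noncomputable def kap3 (p : ℝ) : ℝ := ∫ w in Ioi (0:ℝ), w ^ (p - 1) * phi3 (1 / w)

private theorem kap3_contOn (p : ℝ) :
    ContinuousOn (fun w : ℝ => w ^ (p - 1) * phi3 (1 / w)) (Ioi 0) := by
  apply ContinuousOn.mul
  · intro w hw
    exact (Real.continuousAt_rpow_const w (p - 1) (Or.inl (ne_of_gt hw))).continuousWithinAt
  · refine phi3_contOn.comp (s := Ioi 0) ?_ ?_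
    · intro w hw
      exact (continuousAt_const.div continuousAt_id (ne_of_gt hw)).continuousWithinAt
    · intro w hw
      have hw0 : (0:ℝ) < w := hw
      exact (one_div_pos.2 hw0).le

private theorem kap3_integrable {p : ℝ} (h1 : 2 < p) (h2 : p < 3) :
    IntegrableOn (fun w : ℝ => w ^ (p - 1) * phi3 (1 / w)) (Ioi 0) := by
  have hc := kap3_contOn p
  rw [← Ioc_union_Ioi_eq_Ioi (zero_le_one' ℝ)]
  apply IntegrableOn.union
  · have hb : IntegrableOn (fun w : ℝ => w ^ (p - 3)) (Ioc 0 1) :=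
      (intervalIntegral.intervalIntegrable_rpow' (a := 0) (b := 1) (r := p - 3) (by linarith)).1
    refine Integrable.mono' (hb.const_mul (1 / 4)) ?_ ?_
    · exact (hc.mono Ioc_subset_Ioi_self).aestronglyMeasurable measurableSet_Ioc
    · refine (ae_restrict_mem measurableSet_Ioc).mono fun w hw => ?_
      have hw0 : 0 < w := hw.1
      have hi : 0 < 1 / w := one_div_pos.2 hw0
      rw [Real.norm_of_nonneg (mul_nonneg (Real.rpow_nonneg hw0.le _) (phi3_nonneg hi.le))]
      calc w ^ (p - 1) * phi3 (1 / w) ≤ w ^ (p - 1) * ((1 / w) ^ 2 / 4) :=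
            mul_le_mul_of_nonneg_left (phi3_le_sq hi.le) (Real.rpow_nonneg hw0.le _)
        _ = 1 / 4 * w ^ (p - 3) := by
            rw [show p - 1 = (p - 3) + 1 + 1 by ring, Real.rpow_add_one hw0.ne',
              Real.rpow_add_one hw0.ne']
            field_simp
  · have hb : IntegrableOn (fun w : ℝ => w ^ (p - 4)) (Ioi 1) :=
      integrableOn_Ioi_rpow_of_lt (by linarith) one_pos
    refine Integrable.mono' (hb.const_mul (1 / 9)) ?_ ?_
    · exact (hc.mono (Ioi_subset_Ioi zero_le_one)).aestronglyMeasurable measurableSet_Ioi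
    · refine (ae_restrict_mem measurableSet_Ioi).mono fun w hw => ?_
      have hw0 : 0 < w := lt_trans one_pos hw
      have hi : 0 < 1 / w := one_div_pos.2 hw0
      rw [Real.norm_of_nonneg (mul_nonneg (Real.rpow_nonneg hw0.le _) (phi3_nonneg hi.le))]
      calc w ^ (p - 1) * phi3 (1 / w) ≤ w ^ (p - 1) * ((1 / w) ^ 3 / 9) :=
            mul_le_mul_of_nonneg_left (phi3_le_cube hi.le) (Real.rpow_nonneg hw0.le _)
        _ = 1 / 9 * w ^ (p - 4) := by
            rw [show p - 1 = (p - 4) + 1 + 1 + 1 by ring, Real.rpow_add_one hw0.ne',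
              Real.rpow_add_one hw0.ne', Real.rpow_add_one hw0.ne']
            field_simp

theorem kap3_pos {p : ℝ} (h1 : 2 < p) (h2 : p < 3) : 0 < kap3 p := by
  have hnn : ∀ w ∈ Ioi (0:ℝ), 0 ≤ w ^ (p - 1) * phi3 (1 / w) := by
    intro w hw
    exact mul_nonneg (Real.rpow_nonneg (le_of_lt hw) _) (phi3_nonneg (one_div_pos.2 hw).le)
  rw [kap3, setIntegral_pos_iff_support_of_nonneg_ae
    ((ae_restrict_mem measurableSet_Ioi).mono fun w hw => hnn w hw)
    (kap3_integrable h1 h2)]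
  have hsub : Ioo (0:ℝ) (1 / 4) ⊆
      Function.support (fun w : ℝ => w ^ (p - 1) * phi3 (1 / w)) ∩ Ioi 0 := by
    intro w hw
    have hw0 : 0 < w := hw.1
    have hw4 : 4 < 1 / w := by
      rw [lt_div_iff₀ hw0]
      linarith [hw.2]
    refine ⟨?_, hw0⟩
    have h3 : 0 < phi3 (1 / w) := by
      have := phi3_ge (y := 1 / w) (by linarith)
      nlinarith
    exact (mul_pos (Real.rpow_pos_of_pos hw0 _) h3).ne'
  refine lt_of_lt_of_le ?_ (measure_mono hsub)
  rw [Real.volume_Ioo]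
  simp

private theorem mix3_scale {p y : ℝ} (hy : 0 < y) {w : ℝ} (hw : w ∈ Ioi (0:ℝ)) :
    (y * w) ^ (p - 1) * phi3 (y / (y * w)) = y ^ (p - 1) * (w ^ (p - 1) * phi3 (1 / w)) := by
  rw [Real.mul_rpow hy.le (le_of_lt hw), mul_assoc]
  have : y / (y * w) = 1 / w := by
    have hw' : w ≠ 0 := ne_of_gt hw
    field_simp
  rw [this]

theorem mix3_integrable {p : ℝ} (h1 : 2 < p) (h2 : p < 3) {y : ℝ} (hy : 0 ≤ y) :
    IntegrableOn (fun s : ℝ => s ^ (p - 1) * phi3 (y / s)) (Ioi 0) := by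
  rcases hy.eq_or_lt with h | h
  · subst h
    simp [phi3_zero]
  · have hk := integrableOn_Ioi_comp_mul_left_iff
      (fun s : ℝ => s ^ (p - 1) * phi3 (y / s)) 0 h
    rw [mul_zero] at hk
    rw [← hk]
    refine ((kap3_integrable h1 h2).const_mul (y ^ (p - 1))).congr ?_
    refine (ae_restrict_mem measurableSet_Ioi).mono fun w hw => ?_
    exact (mix3_scale h hw).symm

theorem mix3 {p : ℝ} (h1 : 2 < p) (h2 : p < 3) {y : ℝ} (hy : 0 ≤ y) :
    ∫ s in Ioi (0:ℝ), s ^ (p - 1) * phi3 (y / s) = kap3 p * y ^ p := by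
  rcases hy.eq_or_lt with h | h
  · subst h
    have : (0:ℝ) ^ p = 0 := Real.zero_rpow (by linarith)
    simp [phi3_zero, this]
  · have hk := integral_comp_mul_left_Ioi
      (fun s : ℝ => s ^ (p - 1) * phi3 (y / s)) 0 h
    rw [mul_zero, smul_eq_mul] at hk
    have he : ∫ w in Ioi (0:ℝ), (y * w) ^ (p - 1) * phi3 (y / (y * w))
        = y ^ (p - 1) * kap3 p := by
      rw [kap3, ← integral_const_mul]
      exact setIntegral_congr_fun measurableSet_Ioi fun w hw => mix3_scale h hw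
    have hk2 : y ^ (p - 1) * kap3 p
        = y⁻¹ * ∫ s in Ioi (0:ℝ), s ^ (p - 1) * phi3 (y / s) := by
      rw [← he]; exact hk
    have hyp : y ^ p = y ^ (p - 1) * y := by
      rw [← Real.rpow_add_one h.ne']; congr 1; ring
    have hyi : y * y⁻¹ = 1 := mul_inv_cancel₀ h.ne'
    calc ∫ s in Ioi (0:ℝ), s ^ (p - 1) * phi3 (y / s)
        = y * (y⁻¹ * ∫ s in Ioi (0:ℝ), s ^ (p - 1) * phi3 (y / s)) := by
          rw [← mul_assoc, hyi, one_mul]
      _ = kap3 p * y ^ p := by rw [← hk2, hyp]; ring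

end Pool.Agent.H36.SB
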