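import Pool.Agent.H36.SB.Defs
import Pool.Agent.H97.SIM.MomA

/-!
# Regularity in the radius

PROOF: these are private lemmas in `H97/SIM/Evo.lean` (copy them): `d_x S(x e) = e S'(x e) = sd / x`,
`d_x gJ = 2 x e^2 = kJ / x`; joint continuity of `S b (x e t)` and of its derivative from
`S_diffOn` (`(x, t) -> x e t` is continuous with values in the open unit disc).
-/

open Complex MeasureTheory Set Filter Topology
open scoped ComplexConjugate Real

namespace Pool.Agent.H36.SB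

open Pool.Agent.H97.SIM Pool.Agent.H15.Sig

variable {F : ℂ → ℂ} {b : ℕ → ℂ}

private theorem mem_ball_xe' {x : ℝ} (hx0 : 0 < x) (hx : x < 1) (t : ℝ) :
    (x : ℂ) * e t ∈ Metric.ball (0 : ℂ) 1 := by
  rw [mem_ball_zero_iff, norm_xe hx0]; exact hx

private theorem xe_hasDerivAt' (x t : ℝ) :
    HasDerivAt (fun y : ℝ => (y : ℂ) * e t) (e t) x := by
  have h := (Complex.ofRealCLM.hasDerivAt (x := x)).mul_const (e t)
  simpa using h

private theorem xe_cont' : Continuous (fun p : ℝ × ℝ => (p.1 : ℂ) * e p.2) :=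
  (Complex.continuous_ofReal.comp continuous_fst).mul (continuous_e.comp continuous_snd)

private theorem xe_maps : MapsTo (fun p : ℝ × ℝ => (p.1 : ℂ) * e p.2) (Ioo 0 1 ×ˢ univ)
    (Metric.ball (0 : ℂ) 1) := by
  rintro ⟨a, t⟩ ⟨ha, -⟩
  exact mem_ball_xe' ha.1 ha.2 t

theorem sx_der (h : IsSig F b) {x : ℝ} (hx0 : 0 < x) (hx : x < 1) (t : ℝ) :
    HasDerivAt (fun y => sx b y t) (sd b x t / x) x := by
  have h1 : HasDerivAt (S b) (deriv (S b) (x * e t)) (x * e t) :=
    ((S_diffOn h).differentiableAt (Metric.isOpen_ball.mem_nhds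
      (mem_ball_xe' hx0 hx t))).hasDerivAt
  have h2 := h1.comp x (xe_hasDerivAt' x t)
  have hx' : (x : ℂ) ≠ 0 := by exact_mod_cast hx0.ne'
  have e1 : sd b x t / x = deriv (S b) (x * e t) * e t := by
    rw [sd]; field_simp
  rw [e1]
  exact h2

theorem sx_cont2 (h : IsSig F b) :
    ContinuousOn (fun p : ℝ × ℝ => sx b p.1 p.2) (Ioo 0 1 ×ˢ univ) :=
  (S_diffOn h).continuousOn.comp xe_cont'.continuousOn xe_maps

theorem sd_cont2 (h : IsSig F b) :
    ContinuousOn (fun p : ℝ × ℝ => sd b p.1 p.2) (Ioo 0 1 ×ˢ univ) :=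
  xe_cont'.continuousOn.mul
    (((S_diffOn h).deriv Metric.isOpen_ball).continuousOn.comp xe_cont'.continuousOn xe_maps)

theorem gJ_der {x : ℝ} (hx0 : 0 < x) (t : ℝ) :
    HasDerivAt (fun y => gJ y t) (kJ x t / x) x := by
  have h2 := ((xe_hasDerivAt' x t).pow 2).const_add 1
  have hx' : (x : ℂ) ≠ 0 := by exact_mod_cast hx0.ne'
  have e1 : kJ x t / x = (2 : ℕ) * ((x : ℂ) * e t) ^ (2 - 1) * e t := by
    rw [kJ]; field_simp; push_cast; ring
  rw [e1]
  exact h2

theorem gJ_cont2 : Continuous (fun p : ℝ × ℝ => gJ p.1 p.2) :=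
  continuous_const.add (xe_cont'.pow 2)

theorem kJ_cont2 : Continuous (fun p : ℝ × ℝ => kJ p.1 p.2) :=
  continuous_const.mul (xe_cont'.pow 2)

end Pool.Agent.H36.SB
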