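import Pool.Agent.H36.SB.AlgE
import Pool.Agent.H36.SB.Der
import Pool.Agent.H36.SB.MaxP
import Pool.Agent.H36.SB.Bd
import Pool.Agent.H36.SB.Reg

/-!
# The inequality for `phi3` at every radius

PROOF of `phi3_ineq`. Let `ε > 0`. Let `W x s` be the difference of the two means (as in `Bd`),
`Wx x s = (1/x) (dX s (sx b x) (sd b x) - dX s (gJ x) (kJ x))`,
`Ws x s = dS s (sx b x) - dS s (gJ x)`. Choose `sa` with `0 < sa < s` and
`sa < 3 X^4 (1 - |b_1|^2) / 8` (so `W_bot` gives `W x sa <= 0` for `x` in `[X, 1)`), `sb > s` with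
`2 / sb^2 <= ε` (`W_top`), and `X < x1 < 1` with `8 (1 - x1^2) / sa^2 <= ε` (`W_right`). The
hypotheses of `maxp` on `[X, x1] x [sa, sb]` with `B = ε` are given by `G_der_x`, `G_der_s`,
`G_cont` (with `x0 = 0`, `x1 = 1` there), `evo3`. So `W X s <= ε` for all `ε > 0`.
`phi3_ineq_strict`: `W_bot` for `s < 3 X^4 (1 - |b_1|^2) / 8`.
-/

open Complex MeasureTheory Set Filter Topology
open scoped ComplexConjugate Real

namespace Pool.Agent.H36.SB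

open Pool.Agent.H97.SIM Pool.Agent.H15.Sig

variable {F : ℂ → ℂ} {b : ℕ → ℂ}

private theorem W_cont (h : IsSig F b) :
    ContinuousOn (fun p : ℝ × ℝ => av (fun t => phi3 (‖sx b p.1 t‖ ^ 2 / p.2)) -
      av (fun t => phi3 (‖gJ p.1 t‖ ^ 2 / p.2))) (Ioo 0 1 ×ˢ Ioi 0) :=
  (G_cont (sx_cont2 h)).sub (G_cont (x0 := 0) (x1 := 1) gJ_cont2.continuousOn)

private theorem W_dx (h : IsSig F b) {x s : ℝ} (hx0 : 0 < x) (hx : x < 1) (hs : 0 < s) :
    HasDerivAt (fun y => av (fun t => phi3 (‖sx b y t‖ ^ 2 / s)) -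
      av (fun t => phi3 (‖gJ y t‖ ^ 2 / s)))
      ((1 / x) * (dX s (sx b x) (sd b x) - dX s (gJ x) (kJ x))) x := by
  have h1 := G_der_x (g := sx b) (k := sd b) le_rfl
    (fun y hy t => sx_der h hy.1 hy.2 t) (sx_cont2 h) (sd_cont2 h) (x := x) ⟨hx0, hx⟩ hs
  have h2 := G_der_x (g := gJ) (k := kJ) (x0 := 0) (x1 := 1) le_rfl
    (fun y hy t => gJ_der hy.1 t) gJ_cont2.continuousOn kJ_cont2.continuousOn
    (x := x) ⟨hx0, hx⟩ hs
  rw [mul_sub]
  exact h1.sub h2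

private theorem gJ_cont1 (x : ℝ) : Continuous (gJ x) := by
  have h : Continuous (fun t : ℝ => gJ x t) := by
    unfold gJ
    exact continuous_const.add ((continuous_const.mul continuous_e).pow 2)
  exact h

private theorem W_ds (h : IsSig F b) {x s : ℝ} (hx0 : 0 < x) (hx : x < 1) (hs : 0 < s) :
    HasDerivAt (fun r => av (fun t => phi3 (‖sx b x t‖ ^ 2 / r)) -
      av (fun t => phi3 (‖gJ x t‖ ^ 2 / r)))
      (dS s (sx b x) - dS s (gJ x)) s :=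
  (G_der_s (sx_continuous h hx0 hx) hs).sub (G_der_s (gJ_cont1 x) hs)

private theorem bot_le {x s β : ℝ} (hs : 0 < s) (hx : 8 * s ≤ 3 * x ^ 4 * β) :
    -(3 * x ^ 4 * β) / (4 * s ^ 2) + 2 / s ≤ 0 := by
  have h1 : -(3 * x ^ 4 * β) / (4 * s ^ 2) + 2 / s = (8 * s - 3 * x ^ 4 * β) / (4 * s ^ 2) := by
    field_simp
    ring
  rw [h1]
  exact div_nonpos_of_nonpos_of_nonneg (by linarith) (by positivity)

theorem phi3_ineq (h : IsSig F b) (hb : ‖b 1‖ < 1) {X s : ℝ} (hX0 : 0 < X) (hX : X < 1)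
    (hs : 0 < s) :
    av (fun t => phi3 (‖sx b X t‖ ^ 2 / s)) ≤ av (fun t => phi3 (‖gJ X t‖ ^ 2 / s)) := by
  rw [← sub_nonpos]
  refine le_of_forall_pos_le_add fun ε hε => ?_
  rw [zero_add]
  have hβ : 0 < 1 - ‖b 1‖ ^ 2 := by nlinarith [norm_nonneg (b 1)]
  have hX4 : 0 < X ^ 4 := by positivity
  have hc : 0 < 3 * X ^ 4 * (1 - ‖b 1‖ ^ 2) / 8 := by positivity
  set sa : ℝ := min (s / 2) (3 * X ^ 4 * (1 - ‖b 1‖ ^ 2) / 8) with hsa
  have hsa0 : 0 < sa := lt_min (by linarith) hc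
  have hsa1 : sa < s := lt_of_le_of_lt (min_le_left _ _) (by linarith)
  have hsa2 : sa ≤ 3 * X ^ 4 * (1 - ‖b 1‖ ^ 2) / 8 := min_le_right _ _
  set sb : ℝ := s + 1 + 2 / ε with hsb
  have h2ε : 0 < 2 / ε := by positivity
  have hsb1 : s < sb := by linarith
  have hsb0 : 0 < sb := by linarith
  have hsb2 : 2 / sb ^ 2 ≤ ε := by
    rw [div_le_iff₀ (by positivity)]
    have h1 : 1 ≤ sb := by linarith
    have h2 : 2 / ε ≤ sb := by linarith
    have h3 : 2 ≤ ε * sb := by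
      rw [div_le_iff₀ hε] at h2
      linarith
    nlinarith [mul_le_mul_of_nonneg_left h1 (by positivity : (0 : ℝ) ≤ ε * sb)]
  set x1 : ℝ := max ((X + 1) / 2) (1 - ε * sa ^ 2 / 16) with hx1
  have hεs : 0 < ε * sa ^ 2 / 16 := by positivity
  have hx1a : x1 < 1 := max_lt (by linarith) (by linarith)
  have hx1b : X < x1 := lt_of_lt_of_le (by linarith) (le_max_left _ _)
  have hx1c : 1 - ε * sa ^ 2 / 16 ≤ x1 := le_max_right _ _
  have hx1d : 0 < x1 := by linarith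
  have hx1e : 8 * (1 - x1 ^ 2) ≤ ε * sa ^ 2 := by nlinarith
  have hmem : ∀ x, X ≤ x → x ≤ x1 → 0 < x ∧ x < 1 := fun x h1 h2 =>
    ⟨by linarith, by linarith⟩
  have key := maxp (B := ε) hx1b (hsa1.trans hsb1)
    (W := fun x r => av (fun t => phi3 (‖sx b x t‖ ^ 2 / r)) -
      av (fun t => phi3 (‖gJ x t‖ ^ 2 / r)))
    (Wx := fun x r => (1 / x) * (dX r (sx b x) (sd b x) - dX r (gJ x) (kJ x)))
    (Ws := fun x r => dS r (sx b x) - dS r (gJ x))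
    ((W_cont h).mono (by
      rintro ⟨x, r⟩ ⟨h1, h2⟩
      obtain ⟨h3, h4⟩ := hmem x h1.1 h1.2
      exact ⟨⟨h3, h4⟩, lt_of_lt_of_le hsa0 h2.1⟩))
    (fun x h1 r h2 => by
      obtain ⟨h3, h4⟩ := hmem x h1.1 h1.2.le
      exact W_dx h h3 h4 (hsa0.trans h2.1))
    (fun x h1 r h2 => by
      obtain ⟨h3, h4⟩ := hmem x h1.1 h1.2.le
      exact W_ds h h3 h4 (hsa0.trans h2.1))
    (fun x h1 r h2 => by
      obtain ⟨h3, h4⟩ := hmem x h1.1 h1.2.le
      exact evo3 h h3 h4 (hsa0.trans h2.1))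
    (fun r h2 => by
      have hr : 0 < r := lt_of_lt_of_le hsa0 h2.1
      refine (W_right h hx1d hx1a hr).trans ?_
      rw [div_le_iff₀ (by positivity)]
      refine hx1e.trans ?_
      have : sa ^ 2 ≤ r ^ 2 := pow_le_pow_left₀ hsa0.le h2.1 2
      exact mul_le_mul_of_nonneg_left this hε.le)
    (fun x h1 => by
      obtain ⟨h3, h4⟩ := hmem x h1.1 h1.2
      exact (W_top h h3 h4 hsb0).trans hsb2)
    (fun x h1 => by
      obtain ⟨h3, h4⟩ := hmem x h1.1 h1.2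
      refine (W_bot h h3 h4 hsa0).trans ?_
      refine (bot_le hsa0 ?_).trans hε.le
      have h5 : X ^ 4 ≤ x ^ 4 := pow_le_pow_left₀ hX0.le h1.1 4
      have h6 : X ^ 4 * (1 - ‖b 1‖ ^ 2) ≤ x ^ 4 * (1 - ‖b 1‖ ^ 2) :=
        mul_le_mul_of_nonneg_right h5 hβ.le
      linarith)
  exact key X ⟨le_rfl, hx1b.le⟩ s ⟨hsa1.le, hsb1.le⟩

theorem phi3_ineq_strict (h : IsSig F b) {X s : ℝ} (hX0 : 0 < X)
    (hX : X < 1) (hs : 0 < s) (hs1 : s < 3 * X ^ 4 * (1 - ‖b 1‖ ^ 2) / 8) :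
    av (fun t => phi3 (‖sx b X t‖ ^ 2 / s)) < av (fun t => phi3 (‖gJ X t‖ ^ 2 / s)) := by
  rw [← sub_neg]
  refine (W_bot h hX0 hX hs).trans_lt ?_
  have h1 : -(3 * X ^ 4 * (1 - ‖b 1‖ ^ 2)) / (4 * s ^ 2) + 2 / s =
      (8 * s - 3 * X ^ 4 * (1 - ‖b 1‖ ^ 2)) / (4 * s ^ 2) := by
    field_simp
    ring
  rw [h1]
  exact div_neg_of_neg_of_pos (by linarith) (by positivity)

end Pool.Agent.H36.SB
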