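import Pool.Agent.H36.SB.PowA3
import Pool.Agent.H36.SB.Wle

/-!
# The inequality for powers, `2 < p < 3`

PROOF: as `H97/SIM/Pow.lean`: compare the two sides of `av_mix3` with `phi3_ineq`. STRICT: the
integrand difference is `>= 0` for every `s > 0` (`phi3_ineq`) and `> 0` for
`0 < s < 3 X^4 (1 - |b_1|^2) / 8` (`phi3_ineq_strict`), a set of positive measure
(`setIntegral_pos_iff_support_of_nonneg_ae`, the support contains `Ioo 0 c`).
-/

open Complex MeasureTheory Set Filter Topology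
open scoped ComplexConjugate Real

namespace Pool.Agent.H36.SB

open Pool.Agent.H97.SIM Pool.Agent.H15.Sig

variable {F : ℂ → ℂ} {b : ℕ → ℂ}

private theorem gJ_cont (X : ℝ) : Continuous (gJ X) := by
  unfold gJ
  have := continuous_e
  fun_prop

theorem pow3_strict (h : IsSig F b) (hb : ‖b 1‖ < 1) {p : ℝ} (h1 : 2 < p) (h2 : p < 3) {X : ℝ}
    (hX0 : 0 < X) (hX : X < 1) :
    av (fun t => (‖sx b X t‖ ^ 2) ^ p) < av (fun t => (‖gJ X t‖ ^ 2) ^ p) := by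
  have hs := av_mix3 h1 h2 (sx_continuous h hX0 hX)
  have hj := av_mix3 h1 h2 (gJ_cont X)
  have hk := kap3_pos h1 h2
  have hc : 0 < 3 * X ^ 4 * (1 - ‖b 1‖ ^ 2) / 8 := by
    have h4 : ‖b 1‖ ^ 2 < 1 := by nlinarith [norm_nonneg (b 1)]
    have h5 : 0 < 1 - ‖b 1‖ ^ 2 := by linarith
    positivity
  have hnn : ∀ s ∈ Ioi (0:ℝ), 0 ≤ s ^ (p - 1) * av (fun t => phi3 (‖gJ X t‖ ^ 2 / s)) -
      s ^ (p - 1) * av (fun t => phi3 (‖sx b X t‖ ^ 2 / s)) := by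
    intro s hs0
    have hs0' : 0 < s := hs0
    have h3 := phi3_ineq h hb hX0 hX hs0'
    have h4 : 0 ≤ s ^ (p - 1) := Real.rpow_nonneg hs0'.le _
    have h5 := mul_le_mul_of_nonneg_left h3 h4
    linarith
  have hpos : ∀ s ∈ Ioo (0:ℝ) (3 * X ^ 4 * (1 - ‖b 1‖ ^ 2) / 8),
      0 < s ^ (p - 1) * av (fun t => phi3 (‖gJ X t‖ ^ 2 / s)) -
      s ^ (p - 1) * av (fun t => phi3 (‖sx b X t‖ ^ 2 / s)) := by
    intro s hs0
    have hs0' : 0 < s := hs0.1
    have h3 := phi3_ineq_strict h hX0 hX hs0' hs0.2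
    have h4 : 0 < s ^ (p - 1) := Real.rpow_pos_of_pos hs0' _
    have h5 := mul_lt_mul_of_pos_left h3 h4
    linarith
  have hint : IntegrableOn (fun s : ℝ => s ^ (p - 1) * av (fun t => phi3 (‖gJ X t‖ ^ 2 / s)) -
      s ^ (p - 1) * av (fun t => phi3 (‖sx b X t‖ ^ 2 / s))) (Ioi 0) := hj.1.sub hs.1
  have h6 : 0 < ∫ s in Ioi (0:ℝ), (s ^ (p - 1) * av (fun t => phi3 (‖gJ X t‖ ^ 2 / s)) -
      s ^ (p - 1) * av (fun t => phi3 (‖sx b X t‖ ^ 2 / s))) := by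
    rw [setIntegral_pos_iff_support_of_nonneg_ae _ hint]
    · have h7 : Ioo (0:ℝ) (3 * X ^ 4 * (1 - ‖b 1‖ ^ 2) / 8) ⊆
          (Function.support (fun s : ℝ =>
          s ^ (p - 1) * av (fun t => phi3 (‖gJ X t‖ ^ 2 / s)) -
          s ^ (p - 1) * av (fun t => phi3 (‖sx b X t‖ ^ 2 / s)))) ∩ Ioi 0 := by
        intro s hs0
        exact ⟨(hpos s hs0).ne', hs0.1⟩
      refine lt_of_lt_of_le ?_ (measure_mono h7)
      rw [Real.volume_Ioo]
      exact ENNReal.ofReal_pos.2 (by linarith)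
    · rw [Filter.EventuallyLE, ae_restrict_iff' measurableSet_Ioi]
      exact Filter.Eventually.of_forall (fun s hs0 => hnn s hs0)
  have h8 : ∫ s in Ioi (0:ℝ), (s ^ (p - 1) * av (fun t => phi3 (‖gJ X t‖ ^ 2 / s)) -
      s ^ (p - 1) * av (fun t => phi3 (‖sx b X t‖ ^ 2 / s))) =
      kap3 p * av (fun t => (‖gJ X t‖ ^ 2) ^ p) -
        kap3 p * av (fun t => (‖sx b X t‖ ^ 2) ^ p) := by
    rw [integral_sub hj.1 hs.1, hj.2, hs.2]
  rw [h8] at h6
  exact lt_of_mul_lt_mul_left (by linarith) hk.le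

end Pool.Agent.H36.SB
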