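import Pool.Agent.H36.SB.Mix3

/-!
# Means of powers as mixtures, `2 < p < 3`

PROOF: copy `H97/SIM/PowA.lean` (Tonelli) with `phi3`, `mix3`, `mix3_integrable`, `phi3_mono`.
-/

open Complex MeasureTheory Set Filter Topology
open scoped ComplexConjugate Real

namespace Pool.Agent.H36.SB

open Pool.Agent.H97.SIM

/-- the integrand on the product -/
private theorem int_prod3 {p : ℝ} (h1 : 2 < p) (h2 : p < 3) {g : ℝ → ℂ} (hg : Continuous g) :
    Integrable (fun z : ℝ × ℝ => z.1 ^ (p - 1) * phi3 (‖g z.2‖ ^ 2 / z.1))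
      ((volume.restrict (Ioi (0:ℝ))).prod (volume.restrict (Ioc (-π) π))) := by
  obtain ⟨M, hM0, hM⟩ : ∃ M : ℝ, 0 ≤ M ∧ ∀ t ∈ Ioc (-π) π, ‖g t‖ ^ 2 ≤ M := by
    obtain ⟨M, hM⟩ := (isCompact_Icc (a := -π) (b := π)).bddAbove_image
      (f := fun t => ‖g t‖ ^ 2) (by fun_prop)
    refine ⟨max M 0, le_max_right _ _, fun t ht => ?_⟩
    exact (hM (mem_image_of_mem _ (Ioc_subset_Icc_self ht))).trans (le_max_left _ _)
  have hfin : IsFiniteMeasure (volume.restrict (Ioc (-π) π)) := inferInstance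
  have hdom : Integrable (fun z : ℝ × ℝ => (z.1 ^ (p - 1) * phi3 (M / z.1)) * 1)
      ((volume.restrict (Ioi (0:ℝ))).prod (volume.restrict (Ioc (-π) π))) :=
    Integrable.mul_prod (mix3_integrable h1 h2 hM0) (integrable_const (1:ℝ))
  have hae : ∀ᵐ z ∂((volume.restrict (Ioi (0:ℝ))).prod (volume.restrict (Ioc (-π) π))),
      z ∈ Ioi (0:ℝ) ×ˢ Ioc (-π) π := by
    rw [Measure.prod_restrict]
    exact ae_restrict_mem (measurableSet_Ioi.prod measurableSet_Ioc)
  refine hdom.mono' ?_ ?_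
  · rw [Measure.prod_restrict]
    refine ContinuousOn.aestronglyMeasurable ?_ (measurableSet_Ioi.prod measurableSet_Ioc)
    apply ContinuousOn.mul
    · intro z hz
      have hz0 : (0:ℝ) < z.1 := hz.1
      exact ((Real.continuousAt_rpow_const z.1 (p - 1) (Or.inl hz0.ne')).comp
        continuousAt_fst).continuousWithinAt
    · refine phi3_contOn.comp (t := Ici 0) ?_ ?_
      · intro z hz
        have hz0 : (0:ℝ) < z.1 := hz.1
        refine ContinuousAt.continuousWithinAt ?_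
        refine ContinuousAt.div ?_ continuousAt_fst hz0.ne'
        exact ((hg.norm.pow 2).continuousAt).comp continuousAt_snd
      · intro z hz
        have hz0 : (0:ℝ) < z.1 := hz.1
        exact mem_Ici.2 (by positivity)
  · refine hae.mono fun z hz => ?_
    have hz0 : (0:ℝ) < z.1 := hz.1
    have hy : 0 ≤ ‖g z.2‖ ^ 2 / z.1 := by positivity
    rw [Real.norm_of_nonneg (mul_nonneg (Real.rpow_nonneg hz0.le _) (phi3_nonneg hy)), mul_one]
    refine mul_le_mul_of_nonneg_left (phi3_mono hy ?_) (Real.rpow_nonneg hz0.le _)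
    exact div_le_div_of_nonneg_right (hM z.2 hz.2) hz0.le

theorem av_mix3 {p : ℝ} (h1 : 2 < p) (h2 : p < 3) {g : ℝ → ℂ} (hg : Continuous g) :
    IntegrableOn (fun s : ℝ => s ^ (p - 1) * av (fun t => phi3 (‖g t‖ ^ 2 / s))) (Ioi 0) ∧
    ∫ s in Ioi (0:ℝ), s ^ (p - 1) * av (fun t => phi3 (‖g t‖ ^ 2 / s)) =
      kap3 p * av (fun t => (‖g t‖ ^ 2) ^ p) := by
  have hi := int_prod3 h1 h2 hg
  have hle : -π ≤ π := by linarith [Real.pi_pos]
  have e1 : ∀ s : ℝ, s ^ (p - 1) * av (fun t => phi3 (‖g t‖ ^ 2 / s)) =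
      (2 * π)⁻¹ * ∫ t in Ioc (-π) π, s ^ (p - 1) * phi3 (‖g t‖ ^ 2 / s) := by
    intro s
    rw [av, intervalIntegral.integral_of_le hle, integral_const_mul]
    ring
  have hi1 : Integrable (fun s : ℝ => ∫ t in Ioc (-π) π, s ^ (p - 1) * phi3 (‖g t‖ ^ 2 / s))
      (volume.restrict (Ioi (0:ℝ))) := hi.integral_prod_left
  constructor
  · refine (hi1.const_mul (2 * π)⁻¹).congr (Eventually.of_forall fun s => ?_)
    exact (e1 s).symm
  · simp_rw [e1]
    rw [integral_const_mul]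
    have hsw := integral_integral_swap (μ := volume.restrict (Ioi (0:ℝ)))
      (ν := volume.restrict (Ioc (-π) π))
      (f := fun s t => s ^ (p - 1) * phi3 (‖g t‖ ^ 2 / s)) hi
    rw [hsw]
    have e2 : ∀ t : ℝ, ∫ s in Ioi (0:ℝ), s ^ (p - 1) * phi3 (‖g t‖ ^ 2 / s) =
        kap3 p * (‖g t‖ ^ 2) ^ p := fun t => mix3 h1 h2 (by positivity)
    simp_rw [e2]
    rw [integral_const_mul, av, intervalIntegral.integral_of_le hle]
    ring

end Pool.Agent.H36.SB
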