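import Pool.Agent.H36.SB.Defs

/-!
# The quadruple sum identity: left side

CLAIM of the four modules QuadL, QuadS, QuadR: `sum_(1<=n<N) (2 mm f N n + tt f N n ^ 2) = A2 f` for
`natDegree f < N`. Here `f_j = 0` for `j >= N`, and for `p, q, r, u < N` with `p + u = q + r` put
`Z(p,q,r,u) = Re (conj f_p * f_q * f_r * conj f_u)`.

PROOF of `quad_left`.
`|cc f N n k|^2 = sum_(j,l<N) [n<=j+k] [n<=l+k] Re (conj (f_(j+k) conj f_j) * f_(l+k) conj f_l)`:
with `p = j+k, q = j, r = l+k, u = l` this is `Z(p,q,r,u)` with `p - q = r - u = k`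
(so `p + u = q + r`), and the number of `n` in `[1, N)` with `n <= p` and `n <= r` is `min p r`
(`p, r < N`; the terms with `p >= N` or `r >= N` vanish). Summing over `n` in `[1,N)` and `k` in
`[1,N)`: `sum_n mm f N n = sum over quadruples with q < p of (min p r) Z`. By the exchange
`(p,q,r,u) -> (q,p,u,r)` (`Z` is invariant: complex conjugation) this also equals the sum over the
quadruples with `p < q` of `(min q u) Z`. And `sum_n tt^2 = sum_(j,l) (min j l) |f_j|^2 |f_l|^2` is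
the sum over the quadruples with `p = q` (so `r = u`) of `(min p r) Z`. Add the three sums.
-/

open Complex MeasureTheory Set Filter Topology Polynomial
open scoped ComplexConjugate Real

namespace Pool.Agent.H36.SB

open Pool.Agent.H97.SIM

private noncomputable def ZZ (f : ℂ[X]) (p q r u : ℕ) : ℝ :=
  (conj (f.coeff p) * f.coeff q * f.coeff r * conj (f.coeff u)).re

private noncomputable def S4 (N : ℕ) (g : ℕ → ℕ → ℕ → ℕ → ℝ) : ℝ :=
  ∑ p ∈ Finset.range N, ∑ q ∈ Finset.range N, ∑ r ∈ Finset.range N, ∑ u ∈ Finset.range N,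
    g p q r u

private theorem S4_congr {N : ℕ} {g h : ℕ → ℕ → ℕ → ℕ → ℝ}
    (H : ∀ p < N, ∀ q < N, ∀ r < N, ∀ u < N, g p q r u = h p q r u) : S4 N g = S4 N h := by
  unfold S4
  exact Finset.sum_congr rfl fun p hp => Finset.sum_congr rfl fun q hq =>
    Finset.sum_congr rfl fun r hr => Finset.sum_congr rfl fun u hu =>
      H p (Finset.mem_range.1 hp) q (Finset.mem_range.1 hq) r (Finset.mem_range.1 hr) u
        (Finset.mem_range.1 hu)

private theorem S4_add (N : ℕ) (g h : ℕ → ℕ → ℕ → ℕ → ℝ) :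
    S4 N g + S4 N h = S4 N (fun p q r u => g p q r u + h p q r u) := by
  unfold S4
  simp only [Finset.sum_add_distrib]

private theorem S4_sum {s : Finset ℕ} (N : ℕ) (g : ℕ → ℕ → ℕ → ℕ → ℕ → ℝ) :
    ∑ n ∈ s, S4 N (g n) = S4 N (fun p q r u => ∑ n ∈ s, g n p q r u) := by
  unfold S4
  rw [Finset.sum_comm]
  refine Finset.sum_congr rfl fun p _ => ?_
  rw [Finset.sum_comm]
  refine Finset.sum_congr rfl fun q _ => ?_
  rw [Finset.sum_comm]
  refine Finset.sum_congr rfl fun r _ => ?_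
  rw [Finset.sum_comm]

private theorem S4_swap (N : ℕ) (g : ℕ → ℕ → ℕ → ℕ → ℝ) :
    S4 N g = S4 N (fun p q r u => g q p u r) := by
  unfold S4
  rw [Finset.sum_comm]
  refine Finset.sum_congr rfl fun p _ => Finset.sum_congr rfl fun q _ => ?_
  rw [Finset.sum_comm]

private theorem sq_re (z : ℂ) : ‖z‖ ^ 2 = (conj z * z).re := by
  rw [Complex.sq_norm, Complex.normSq_apply]
  simp only [mul_re, conj_re, conj_im]
  ring

private theorem cc_eq (f : ℂ[X]) {N : ℕ} (hN : f.natDegree < N) (n k : ℕ) :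
    cc f N n k = ∑ p ∈ Finset.range N, ∑ q ∈ Finset.range N,
      if p = q + k ∧ n ≤ p then f.coeff p * conj (f.coeff q) else 0 := by
  unfold cc
  rw [Finset.sum_comm]
  refine Finset.sum_congr rfl fun q _ => ?_
  by_cases h : q + k < N
  · rw [Finset.sum_eq_single (q + k)]
    · by_cases h2 : n ≤ q + k
      · rw [if_pos h2, if_pos ⟨rfl, h2⟩]
      · rw [if_neg h2, if_neg (fun h3 => h2 h3.2)]
    · intro p _ hp
      rw [if_neg (fun h3 => hp h3.1)]
    · intro h3
      exact absurd (Finset.mem_range.2 h) h3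
  · have h0 : f.coeff (q + k) = 0 := coeff_eq_zero_of_natDegree_lt (by omega)
    rw [h0, zero_mul, ite_self]
    symm
    refine Finset.sum_eq_zero fun p hp => ?_
    have := Finset.mem_range.1 hp
    rw [if_neg (fun h3 => by omega)]

private theorem cc_sq (f : ℂ[X]) {N : ℕ} (hN : f.natDegree < N) (n k : ℕ) :
    ‖cc f N n k‖ ^ 2 = S4 N (fun p q r u =>
      if (p = q + k ∧ n ≤ p) ∧ (r = u + k ∧ n ≤ r) then ZZ f p q r u else 0) := by
  rw [sq_re, cc_eq f hN]
  unfold S4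
  simp only [map_sum]
  rw [Finset.sum_mul]
  rw [Complex.re_sum]
  refine Finset.sum_congr rfl fun p _ => ?_
  rw [Finset.sum_mul, Complex.re_sum]
  refine Finset.sum_congr rfl fun q _ => ?_
  rw [Finset.mul_sum, Complex.re_sum]
  refine Finset.sum_congr rfl fun r _ => ?_
  rw [Finset.mul_sum, Complex.re_sum]
  refine Finset.sum_congr rfl fun u _ => ?_
  by_cases h1 : p = q + k ∧ n ≤ p
  · by_cases h2 : r = u + k ∧ n ≤ r
    · rw [if_pos h1, if_pos h2, if_pos ⟨h1, h2⟩]
      unfold ZZ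
      congr 1
      rw [map_mul, Complex.conj_conj]
      ring
    · have h3 : ¬ ((p = q + k ∧ n ≤ p) ∧ (r = u + k ∧ n ≤ r)) := fun h3 => h2 h3.2
      rw [if_neg h3, if_neg h2]
      simp
  · have h3 : ¬ ((p = q + k ∧ n ≤ p) ∧ (r = u + k ∧ n ≤ r)) := fun h3 => h1 h3.1
    rw [if_neg h3, if_neg h1]
    simp

private theorem sum_k (f : ℂ[X]) {N n p q r u : ℕ} (hp : p < N) :
    (∑ k ∈ Finset.Ico 1 N, if (p = q + k ∧ n ≤ p) ∧ (r = u + k ∧ n ≤ r) then ZZ f p q r u else 0) =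
      if (q < p ∧ p + u = q + r) ∧ (n ≤ p ∧ n ≤ r) then ZZ f p q r u else 0 := by
  by_cases h : q < p ∧ p + u = q + r
  · rw [Finset.sum_eq_single (p - q)]
    · by_cases h2 : n ≤ p ∧ n ≤ r
      · rw [if_pos ⟨⟨by omega, h2.1⟩, ⟨by omega, h2.2⟩⟩, if_pos ⟨h, h2⟩]
      · rw [if_neg (fun h3 => h2 ⟨h3.1.2, h3.2.2⟩), if_neg (fun h3 => h2 h3.2)]
    · intro k _ hk
      rw [if_neg (fun h3 => hk (by omega))]
    · intro h3
      exact absurd (Finset.mem_Ico.2 ⟨by omega, by omega⟩) h3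
  · rw [if_neg (fun h3 => h h3.1)]
    refine Finset.sum_eq_zero fun k hk => ?_
    have := Finset.mem_Ico.1 hk
    rw [if_neg (fun h3 => h ⟨by omega, by omega⟩)]

private theorem sum_n {N p r : ℕ} (hp : p < N) (x : ℝ) :
    (∑ n ∈ Finset.Ico 1 N, if n ≤ p ∧ n ≤ r then x else 0) = ((min p r : ℕ) : ℝ) * x := by
  rw [← Finset.sum_filter, Finset.sum_const, nsmul_eq_mul]
  congr 2
  have : (Finset.Ico 1 N).filter (fun n => n ≤ p ∧ n ≤ r) = Finset.Ico 1 (min p r + 1) := by
    ext n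
    simp only [Finset.mem_filter, Finset.mem_Ico]
    omega
  rw [this, Nat.card_Ico]
  omega

private theorem mm_sum (f : ℂ[X]) {N : ℕ} (hN : f.natDegree < N) :
    ∑ n ∈ Finset.Ico 1 N, mm f N n = S4 N (fun p q r u =>
      if q < p ∧ p + u = q + r then ((min p r : ℕ) : ℝ) * ZZ f p q r u else 0) := by
  have h1 : ∀ n, mm f N n = S4 N (fun p q r u =>
      if (q < p ∧ p + u = q + r) ∧ (n ≤ p ∧ n ≤ r) then ZZ f p q r u else 0) := by
    intro n
    unfold mm
    simp only [cc_sq f hN]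
    rw [S4_sum]
    exact S4_congr fun p hp q _ r _ u _ => sum_k f hp
  simp only [h1]
  rw [S4_sum]
  refine S4_congr fun p hp q _ r _ u _ => ?_
  by_cases h : q < p ∧ p + u = q + r
  · rw [if_pos h, ← sum_n hp]
    refine Finset.sum_congr rfl fun n _ => ?_
    by_cases h2 : n ≤ p ∧ n ≤ r
    · rw [if_pos h2, if_pos ⟨h, h2⟩]
    · rw [if_neg h2, if_neg (fun h3 => h2 h3.2)]
  · rw [if_neg h]
    exact Finset.sum_eq_zero fun n _ => if_neg (fun h3 => h h3.1)

private theorem ZZ_conj (f : ℂ[X]) (p q r u : ℕ) : ZZ f q p u r = ZZ f p q r u := by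
  unfold ZZ
  have : conj (f.coeff q) * f.coeff p * f.coeff u * conj (f.coeff r) =
      conj (conj (f.coeff p) * f.coeff q * f.coeff r * conj (f.coeff u)) := by
    simp only [map_mul, Complex.conj_conj]
    ring
  rw [this, Complex.conj_re]

private theorem mm_sum' (f : ℂ[X]) {N : ℕ} (hN : f.natDegree < N) :
    ∑ n ∈ Finset.Ico 1 N, mm f N n = S4 N (fun p q r u =>
      if p < q ∧ p + u = q + r then ((min q u : ℕ) : ℝ) * ZZ f p q r u else 0) := by
  rw [mm_sum f hN, S4_swap]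
  refine S4_congr fun p _ q _ r _ u _ => ?_
  rw [ZZ_conj]
  by_cases h : p < q ∧ p + u = q + r
  · rw [if_pos h, if_pos ⟨h.1, h.2.symm⟩]
  · rw [if_neg h, if_neg (fun h3 => h ⟨h3.1, h3.2.symm⟩)]

private theorem ZZ_diag (f : ℂ[X]) (p r : ℕ) :
    ZZ f p p r r = ‖f.coeff p‖ ^ 2 * ‖f.coeff r‖ ^ 2 := by
  unfold ZZ
  have h1 : conj (f.coeff p) * f.coeff p = ((‖f.coeff p‖ ^ 2 : ℝ) : ℂ) := by
    rw [Complex.conj_mul']
    push_cast
    rfl
  have h2 : f.coeff r * conj (f.coeff r) = ((‖f.coeff r‖ ^ 2 : ℝ) : ℂ) := by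
    rw [Complex.mul_conj']
    push_cast
    rfl
  rw [mul_assoc, h1, h2, ← Complex.ofReal_mul, Complex.ofReal_re]

private theorem tt_sum (f : ℂ[X]) (N : ℕ) :
    ∑ n ∈ Finset.Ico 1 N, tt f N n ^ 2 = S4 N (fun p q r u =>
      if p = q ∧ p + u = q + r then ((min p r : ℕ) : ℝ) * ZZ f p q r u else 0) := by
  have h1 : ∀ n, tt f N n ^ 2 = ∑ p ∈ Finset.range N, ∑ r ∈ Finset.range N,
      if n ≤ p ∧ n ≤ r then ‖f.coeff p‖ ^ 2 * ‖f.coeff r‖ ^ 2 else 0 := by
    intro n
    unfold tt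
    rw [sq, Finset.sum_mul_sum]
    refine Finset.sum_congr rfl fun p _ => Finset.sum_congr rfl fun r _ => ?_
    by_cases h1 : n ≤ p
    · by_cases h2 : n ≤ r
      · simp [h1, h2]
      · simp [h1, h2]
    · simp [h1]
  simp only [h1]
  rw [Finset.sum_comm]
  unfold S4
  refine Finset.sum_congr rfl fun p hp => ?_
  rw [Finset.sum_comm]
  refine Eq.trans ?_ (Finset.sum_eq_single p ?_ ?_).symm
  · refine Finset.sum_congr rfl fun r hr => ?_
    rw [sum_n (Finset.mem_range.1 hp)]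
    refine Eq.trans ?_ (Finset.sum_eq_single r ?_ ?_).symm
    · beta_reduce
      rw [if_pos ⟨rfl, rfl⟩, ZZ_diag]
    · intro u _ hu
      beta_reduce
      rw [if_neg (fun h3 => hu (by omega))]
    · intro h3
      exact absurd hr h3
  · intro q _ hq
    refine Finset.sum_eq_zero fun r _ => Finset.sum_eq_zero fun u _ => ?_
    beta_reduce
    rw [if_neg (fun h3 => hq h3.1.symm)]
  · intro h3
    exact absurd hp h3

theorem quad_left (f : ℂ[X]) (N : ℕ) (hN : f.natDegree < N) :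
    ∑ n ∈ Finset.Ico 1 N, (2 * mm f N n + tt f N n ^ 2) =
      QS f N (fun p q r u => ((if q ≤ p then min p r else min q u : ℕ) : ℝ)) := by
  have h0 : ∑ n ∈ Finset.Ico 1 N, (2 * mm f N n + tt f N n ^ 2) =
      (∑ n ∈ Finset.Ico 1 N, mm f N n + ∑ n ∈ Finset.Ico 1 N, mm f N n) +
        ∑ n ∈ Finset.Ico 1 N, tt f N n ^ 2 := by
    rw [Finset.sum_add_distrib, ← Finset.mul_sum, two_mul]
  have h1 : QS f N (fun p q r u => ((if q ≤ p then min p r else min q u : ℕ) : ℝ)) =
      S4 N (fun p q r u => if p + u = q + r then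
        ((if q ≤ p then min p r else min q u : ℕ) : ℝ) * ZZ f p q r u else 0) := rfl
  rw [h0, h1]
  nth_rewrite 2 [mm_sum' f hN]
  rw [mm_sum f hN, tt_sum, S4_add, S4_add]
  refine S4_congr fun p _ q _ r _ u _ => ?_
  by_cases h : p + u = q + r
  · rcases lt_trichotomy p q with hpq | hpq | hpq
    · rw [if_neg (fun h3 => by omega), if_pos ⟨hpq, h⟩, if_neg (fun h3 => by omega), if_pos h,
        if_neg (by omega : ¬ q ≤ p)]
      ring
    · rw [if_neg (fun h3 => by omega), if_neg (fun h3 => by omega), if_pos ⟨hpq, h⟩, if_pos h,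
        if_pos (by omega : q ≤ p)]
      ring
    · rw [if_pos ⟨hpq, h⟩, if_neg (fun h3 => by omega), if_neg (fun h3 => by omega), if_pos h,
        if_pos (by omega : q ≤ p)]
      ring
  · rw [if_neg (fun h3 => h h3.2), if_neg (fun h3 => h h3.2), if_neg (fun h3 => h h3.2), if_neg h]
    ring

end Pool.Agent.H36.SB
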