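import Pool.Agent.H36.SB.Defs

/-!
# The quadruple sum identity: symmetrisation

PROOF. `Z(p,q,r,u) = Re (conj f_p * f_q * f_r * conj f_u)` is symmetric under `q <-> r`, and so is the
condition `p + u = q + r`. With `w1 = if q <= p then min p r else min q u` the sum with weight `w1`
equals (exchange the summation variables `q` and `r`, `Finset.sum_comm`) the sum with weight
`w2 = if r <= p then min p q else min r u`. By `quad_w` `w1 + w2 = p + u` on the quadruples, so
twice the left side is the sum with weight `p + u`.
-/

open Complex MeasureTheory Set Filter Topology Polynomial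
open scoped ComplexConjugate Real

namespace Pool.Agent.H36.SB

open Pool.Agent.H97.SIM

theorem quad_w {p q r u : ℕ} (h : p + u = q + r) :
    (if q ≤ p then min p r else min q u) + (if r ≤ p then min p q else min r u) = p + u := by
  split_ifs <;> omega

theorem quad_sym (f : ℂ[X]) (N : ℕ) :
    QS f N (fun p q r u => ((if q ≤ p then min p r else min q u : ℕ) : ℝ)) =
      QS f N (fun p _ _ u => ((p + u : ℕ) : ℝ) / 2) := by
  have hswap : QS f N (fun p q r u => ((if q ≤ p then min p r else min q u : ℕ) : ℝ)) =
      QS f N (fun p q r u => ((if r ≤ p then min p q else min r u : ℕ) : ℝ)) := by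
    unfold QS
    refine Finset.sum_congr rfl fun p _ => ?_
    rw [Finset.sum_comm]
    refine Finset.sum_congr rfl fun r _ => Finset.sum_congr rfl fun q _ =>
      Finset.sum_congr rfl fun u _ => ?_
    have hz : (conj (f.coeff p) * f.coeff q * f.coeff r * conj (f.coeff u)).re =
        (conj (f.coeff p) * f.coeff r * f.coeff q * conj (f.coeff u)).re := by
      congr 2
      ring
    by_cases h : p + u = q + r
    · have h' : p + u = r + q := by omega
      rw [if_pos h, if_pos h', hz]
    · have h' : ¬ p + u = r + q := by omega
      rw [if_neg h, if_neg h']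
  have hadd : QS f N (fun p q r u => ((if q ≤ p then min p r else min q u : ℕ) : ℝ)) +
      QS f N (fun p q r u => ((if r ≤ p then min p q else min r u : ℕ) : ℝ)) =
      2 * QS f N (fun p _ _ u => ((p + u : ℕ) : ℝ) / 2) := by
    unfold QS
    simp only [Finset.mul_sum, ← Finset.sum_add_distrib]
    refine Finset.sum_congr rfl fun p _ => Finset.sum_congr rfl fun q _ =>
      Finset.sum_congr rfl fun r _ => Finset.sum_congr rfl fun u _ => ?_
    by_cases h : p + u = q + r
    · rw [if_pos h, if_pos h, if_pos h]
      have h1 := quad_w h
      have h2 : ((if q ≤ p then min p r else min q u : ℕ) : ℝ) +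
          ((if r ≤ p then min p q else min r u : ℕ) : ℝ) = ((p + u : ℕ) : ℝ) := by
        rw [← h1]
        push_cast
        rfl
      rw [← h2]
      ring
    · rw [if_neg h, if_neg h, if_neg h]
      ring
  linarith

end Pool.Agent.H36.SB
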