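import Pool.Agent.H36.SB.QuadL
import Pool.Agent.H36.SB.QuadS
import Pool.Agent.H97.SIM.PairB

/-!
# The quadruple sum identity: right side

PROOF. `parseval_d`: polarise `poly_parseval`: `4 Re (conj p q) = |p+q|^2 - |p-q|^2` gives
`av Re (conj p q) = sum_m Re (conj p_m q_m)`, use `q = X * g'` (`q_m = m g_m`).
`quad_right`: on the circle `|f|^2 Re (conj f z f') = (1/2) Re (conj (f^2) * z (f^2)')`, since
`(f^2)' = 2 f f'` and `conj (f^2) f z f' = |f|^2 conj f z f'`. By `parseval_d` for `g = f^2`
(`natDegree < 2 N`): `A2 f = (1/2) sum_(m<2N) m |g_m|^2`, `g_m = sum_(p+u=m) f_p f_u`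
(`coeff_mul`, antidiagonal), so `|g_m|^2 = Re sum_(p+u=m) sum_(q+r=m) conj (f_p f_u) f_q f_r`;
all indices `>= N` contribute `0`.
-/

open Complex MeasureTheory Set Filter Topology Polynomial
open scoped ComplexConjugate Real

namespace Pool.Agent.H36.SB

open Pool.Agent.H97.SIM

private theorem qr_alg (a b : ℂ) : (conj a * b).re = 1 / 4 * (‖a + b‖ ^ 2 - ‖a - b‖ ^ 2) := by
  rw [Complex.sq_norm, Complex.sq_norm, Complex.normSq_apply, Complex.normSq_apply]
  simp only [mul_re, conj_re, conj_im, add_re, add_im, sub_re, sub_im]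
  ring

private theorem qr_polar (p q : ℂ[X]) {N : ℕ} (hp : p.natDegree < N) (hq : q.natDegree < N) :
    av (fun t => (conj (pe p t) * pe q t).re) =
      ∑ j ∈ Finset.range N, (conj (p.coeff j) * q.coeff j).re := by
  have h1 : av (fun t => (conj (pe p t) * pe q t).re) =
      av (fun t => 1 / 4 * (‖pe (p + q) t‖ ^ 2 - ‖pe (p - q) t‖ ^ 2)) := by
    refine av_congr fun t => ?_
    rw [qr_alg]
    simp only [pe, eval_add, eval_sub]
  rw [h1, av_mul_const, av_sub (f := fun t => ‖pe (p + q) t‖ ^ 2) (g := fun t => ‖pe (p - q) t‖ ^ 2)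
    ((continuous_pe _).norm.pow 2) ((continuous_pe _).norm.pow 2),
    poly_parseval (p + q) (lt_of_le_of_lt (natDegree_add_le p q) (max_lt hp hq)),
    poly_parseval (p - q) (lt_of_le_of_lt (natDegree_sub_le p q) (max_lt hp hq)),
    ← Finset.sum_sub_distrib, Finset.mul_sum]
  refine Finset.sum_congr rfl fun j _ => ?_
  rw [qr_alg, coeff_add, coeff_sub]

private theorem qr_coeff_d (g : ℂ[X]) (m : ℕ) :
    (X * derivative g).coeff m = (m : ℂ) * g.coeff m := by
  cases m with
  | zero => simp
  | succ k =>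
    rw [coeff_X_mul, coeff_derivative]
    push_cast
    ring

/-- Parseval with the derivative -/
theorem parseval_d (g : ℂ[X]) {N : ℕ} (hN : g.natDegree < N) :
    av (fun t => (conj (pe g t) * pd g t).re) =
      ∑ m ∈ Finset.range N, (m : ℝ) * ‖g.coeff m‖ ^ 2 := by
  have hdeg : (X * derivative g).natDegree ≤ g.natDegree := by
    rw [natDegree_le_iff_coeff_eq_zero]
    intro m hm
    rw [qr_coeff_d, coeff_eq_zero_of_natDegree_lt hm, mul_zero]
  have h1 : av (fun t => (conj (pe g t) * pd g t).re) =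
      av (fun t => (conj (pe g t) * pe (X * derivative g) t).re) := by
    refine av_congr fun t => ?_
    simp only [pe, pd, eval_mul, eval_X]
  rw [h1, qr_polar g _ hN (lt_of_le_of_lt hdeg hN)]
  refine Finset.sum_congr rfl fun m _ => ?_
  rw [qr_coeff_d]
  have h2 : conj (g.coeff m) * ((m : ℂ) * g.coeff m) = (((m : ℝ) * ‖g.coeff m‖ ^ 2 : ℝ) : ℂ) := by
    have h3 := Complex.conj_mul' (g.coeff m)
    push_cast
    rw [← h3]
    ring
  rw [h2, ofReal_re]

private theorem qr_coeff (f : ℂ[X]) {N : ℕ} (hN : f.natDegree < N) (m : ℕ) :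
    (f * f).coeff m = ∑ p ∈ Finset.range N, ∑ u ∈ Finset.range N,
      if p + u = m then f.coeff p * f.coeff u else 0 := by
  have h0 := f.as_sum_range' N hN
  have h1 : f * f = ∑ p ∈ Finset.range N, ∑ u ∈ Finset.range N,
      monomial (p + u) (f.coeff p * f.coeff u) := by
    calc f * f = (∑ p ∈ Finset.range N, monomial p (f.coeff p)) *
          (∑ p ∈ Finset.range N, monomial p (f.coeff p)) := by rw [← h0]
      _ = _ := by
        rw [Finset.sum_mul_sum]
        refine Finset.sum_congr rfl fun p _ => Finset.sum_congr rfl fun u _ => ?_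
        rw [monomial_mul_monomial]
  rw [h1, finsetSum_coeff]
  refine Finset.sum_congr rfl fun p _ => ?_
  rw [finsetSum_coeff]
  refine Finset.sum_congr rfl fun u _ => ?_
  rw [coeff_monomial]

theorem quad_right (f : ℂ[X]) (N : ℕ) (hN : f.natDegree < N) :
    A2 (pe f) (pd f) = QS f N (fun p _ _ u => ((p + u : ℕ) : ℝ) / 2) := by
  have h1 : A2 (pe f) (pd f) = 1 / 2 * av (fun t => (conj (pe (f * f) t) * pd (f * f) t).re) := by
    unfold A2
    rw [← av_mul_const]
    refine av_congr fun t => ?_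
    have e1 : conj (pe (f * f) t) * pd (f * f) t =
        ((2 * ‖pe f t‖ ^ 2 : ℝ) : ℂ) * (conj (pe f t) * pd f t) := by
      have e2 := Complex.conj_mul' (pe f t)
      push_cast
      rw [← e2]
      simp only [pe, pd, eval_mul, derivative_mul, eval_add, map_mul]
      ring
    rw [e1, Complex.re_ofReal_mul]
    ring
  have hdeg : (f * f).natDegree < 2 * N := by
    refine lt_of_le_of_lt natDegree_mul_le ?_
    omega
  rw [h1, parseval_d _ hdeg, Finset.mul_sum]
  have h2 : ∀ m : ℕ, ‖(f * f).coeff m‖ ^ 2 = ∑ p ∈ Finset.range N, ∑ q ∈ Finset.range N,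
      ∑ r ∈ Finset.range N, ∑ u ∈ Finset.range N, if p + u = m ∧ q + r = m then
        (conj (f.coeff p) * f.coeff q * f.coeff r * conj (f.coeff u)).re else 0 := by
    intro m
    have e0 : ((‖(f * f).coeff m‖ ^ 2 : ℝ) : ℂ) = ∑ p ∈ Finset.range N, ∑ q ∈ Finset.range N,
        ∑ r ∈ Finset.range N, ∑ u ∈ Finset.range N, if p + u = m ∧ q + r = m then
        (conj (f.coeff p) * f.coeff q * f.coeff r * conj (f.coeff u)) else 0 := by
      push_cast
      rw [← Complex.conj_mul', qr_coeff f hN, map_sum, Finset.sum_mul]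
      refine Finset.sum_congr rfl fun p _ => ?_
      rw [map_sum, Finset.mul_sum]
      refine Finset.sum_congr rfl fun q _ => ?_
      rw [Finset.mul_sum]
      refine Finset.sum_congr rfl fun r _ => ?_
      rw [Finset.sum_mul]
      refine Finset.sum_congr rfl fun u _ => ?_
      by_cases h3 : p + u = m
      · by_cases h4 : q + r = m
        · rw [if_pos h3, if_pos h4, if_pos ⟨h3, h4⟩, map_mul]
          ring
        · rw [if_neg h4, mul_zero, if_neg (fun h => h4 h.2)]
      · rw [if_neg h3, map_zero, zero_mul, if_neg (fun h => h3 h.1)]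
    have e1 := congrArg Complex.re e0
    rw [ofReal_re] at e1
    rw [e1]
    simp only [Complex.re_sum]
    refine Finset.sum_congr rfl fun p _ => Finset.sum_congr rfl fun q _ =>
      Finset.sum_congr rfl fun r _ => Finset.sum_congr rfl fun u _ => ?_
    split_ifs
    · rfl
    · rfl
  unfold QS
  have h3 : ∀ m ∈ Finset.range (2 * N), 1 / 2 * ((m : ℝ) * ‖(f * f).coeff m‖ ^ 2) =
      ∑ p ∈ Finset.range N, ∑ q ∈ Finset.range N,
      ∑ r ∈ Finset.range N, ∑ u ∈ Finset.range N, if p + u = m ∧ q + r = m then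
        (m : ℝ) / 2 * (conj (f.coeff p) * f.coeff q * f.coeff r * conj (f.coeff u)).re else 0 := by
    intro m _
    rw [h2, ← mul_assoc, Finset.mul_sum]
    refine Finset.sum_congr rfl fun p _ => ?_
    rw [Finset.mul_sum]
    refine Finset.sum_congr rfl fun q _ => ?_
    rw [Finset.mul_sum]
    refine Finset.sum_congr rfl fun r _ => ?_
    rw [Finset.mul_sum]
    refine Finset.sum_congr rfl fun u _ => ?_
    split_ifs
    · ring
    · ring
  rw [Finset.sum_congr rfl h3, Finset.sum_comm]
  refine Finset.sum_congr rfl fun p hp => ?_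
  rw [Finset.sum_comm]
  refine Finset.sum_congr rfl fun q _ => ?_
  rw [Finset.sum_comm]
  refine Finset.sum_congr rfl fun r _ => ?_
  rw [Finset.sum_comm]
  refine Finset.sum_congr rfl fun u hu => ?_
  rw [Finset.mem_range] at hp hu
  by_cases h4 : p + u = q + r
  · rw [if_pos h4, Finset.sum_eq_single (p + u)]
    · rw [if_pos ⟨rfl, h4.symm⟩]
    · intro m _ hm
      rw [if_neg (fun h => hm h.1.symm)]
    · intro hm
      exfalso
      apply hm
      rw [Finset.mem_range]
      omega
  · rw [if_neg h4]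
    refine Finset.sum_eq_zero fun m _ => ?_
    rw [if_neg (fun h => h4 (h.1.trans h.2.symm))]

theorem quad_sum (f : ℂ[X]) (N : ℕ) (hN : f.natDegree < N) :
    ∑ n ∈ Finset.Ico 1 N, (2 * mm f N n + tt f N n ^ 2) = A2 (pe f) (pd f) := by
  rw [quad_left f N hN, quad_sym, quad_right f N hN]

end Pool.Agent.H36.SB
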