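import Pool.Agent.H36.SB.Defs
import Pool.Agent.H97.SIM.PairA
import Pool.Agent.H97.SIM.RotB
import Pool.Agent.H97.SIM.Step

/-!
# The Schur step

PROOF (as in the header of `H97/SIM/Step.lean`). By `Pair.lt0` `|f_0| < |h_0|`. Choose `w`, `|w| = 1`,
such that `g = f_0 / (w h_0)` is real and `>= 0` (`w = 1` if `f_0 = 0`, otherwise
`w = (f_0 / h_0) / |f_0 / h_0|`), so `0 <= g < 1`. Replace `h` by `w h` (`Pair.phase`). Let
`T = arsinh (g / sqrt (1 - g^2))`, so `sinh T = g / sqrt (1 - g^2)`, `cosh T = 1 / sqrt (1 - g^2)`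
and `cosh T f_0 - sinh T w h_0 = 0`. `G = rp f (w h) T = cosh T f - sinh T w h` has `G.coeff 0 = 0`,
so `G = X * f1` with `f1 = G.divX` (`Polynomial.divX_mul_X_add`); `h1 = rp (w h) f T`. On the circle
`|G| = |f1|`, so `(f1, h1)` is a pair (`Pair.rot`). `Ig G = Ig f` (`Pair.inv`, RotB) and for
`G = X f1`: `conj G * z G' = |f1|^2 + conj f1 * z f1'` on the circle, so
`Ig G = av [l1 (|f1|^2/s)/s * |f1|^2] + Ig f1 = av log (1 + |f1|^2 / s) + Ig f1` (`l1_mul`), and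
`av log (1 + |f1|^2/s) = log (|h1_0|^2 / s)` (`Pair.tau`). DEGREE: `natDegree G <= natDegree f` by
`Pair.deg`, `natDegree_divX_eq_natDegree_tsub_one`. COEFFICIENTS: for all `j`,
`|G_j|^2 - |h1_j|^2 = |c f_j - σ w h_j|^2 - |c w h_j - σ f_j|^2 = |f_j|^2 - |h_j|^2` (real `c, σ`,
`c^2 - σ^2 = 1`, `|w| = 1`), and `G_(j+1) = f1_j`, `G_0 = 0`.
-/

open Complex MeasureTheory Set Filter Topology Polynomial
open scoped ComplexConjugate Real

namespace Pool.Agent.H36.SB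

open Pool.Agent.H97.SIM

variable {s : ℝ} {f h : ℂ[X]}

theorem exists_stp (P : Pair s f h) : ∃ (w : ℂ) (T : ℝ) (f1 h1 : ℂ[X]), Stp s f h w T f1 h1 := by
  have hlt := P.lt0
  have hh0 : 0 < ‖h.coeff 0‖ := lt_of_le_of_lt (norm_nonneg _) hlt
  -- the phase
  obtain ⟨w, hw, g, hg0, hg1, hg⟩ : ∃ w : ℂ, ‖w‖ = 1 ∧ ∃ g : ℝ, 0 ≤ g ∧ g < 1 ∧
      f.coeff 0 = (g : ℂ) * (w * h.coeff 0) := by
    have hh : h.coeff 0 ≠ 0 := norm_pos_iff.1 hh0
    by_cases hf : f.coeff 0 = 0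
    · exact ⟨1, norm_one, 0, le_rfl, one_pos, by rw [hf]; simp⟩
    · have hf0 : 0 < ‖f.coeff 0‖ := norm_pos_iff.2 hf
      refine ⟨(f.coeff 0 / ‖f.coeff 0‖) / (h.coeff 0 / ‖h.coeff 0‖), ?_,
        ‖f.coeff 0‖ / ‖h.coeff 0‖, by positivity, by rwa [div_lt_one hh0], ?_⟩
      · rw [norm_div, norm_div, norm_div, Complex.norm_real, Complex.norm_real, norm_norm,
          norm_norm, div_self hf0.ne', div_self hh0.ne', div_one]
      · have h1 : ((‖f.coeff 0‖ : ℝ) : ℂ) ≠ 0 := by exact_mod_cast hf0.ne'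
        have h2 : ((‖h.coeff 0‖ : ℝ) : ℂ) ≠ 0 := by exact_mod_cast hh0.ne'
        push_cast
        field_simp
  have P2 : Pair s f (C w * h) := P.phase hw
  obtain ⟨k, hk⟩ : ∃ k : ℂ[X], k = C w * h := ⟨_, rfl⟩
  rw [← hk] at P2
  have hk0 : ∀ j, ‖k.coeff j‖ = ‖h.coeff j‖ := by
    intro j
    rw [hk, coeff_C_mul, norm_mul, hw, one_mul]
  have hgk : f.coeff 0 = (g : ℂ) * k.coeff 0 := by
    rw [hk, coeff_C_mul]
    exact hg
  -- the angle
  have hg2 : 0 < 1 - g ^ 2 := by nlinarith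
  obtain ⟨T, hT⟩ : ∃ T : ℝ, T = Real.arsinh (g / Real.sqrt (1 - g ^ 2)) := ⟨_, rfl⟩
  have hsq : 0 < Real.sqrt (1 - g ^ 2) := Real.sqrt_pos.2 hg2
  have hsinh : Real.sinh T = g / Real.sqrt (1 - g ^ 2) := by rw [hT]; exact Real.sinh_arsinh _
  have hcosh : Real.cosh T = 1 / Real.sqrt (1 - g ^ 2) := by
    have h1 := Real.cosh_sq T
    rw [hsinh, div_pow, Real.sq_sqrt hg2.le] at h1
    have h2 : Real.cosh T ^ 2 = (1 / Real.sqrt (1 - g ^ 2)) ^ 2 := by
      rw [h1, div_pow, Real.sq_sqrt hg2.le]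
      field_simp
      ring
    exact (pow_left_inj₀ (Real.cosh_pos T).le (by positivity) two_ne_zero).1 h2
  have hgT : Real.sinh T = g * Real.cosh T := by
    rw [hsinh, hcosh]
    ring
  have hcs : Real.cosh T ^ 2 - Real.sinh T ^ 2 = 1 := by
    have h1 := Real.cosh_sq T
    linarith
  -- the rotated pair
  obtain ⟨F, hF⟩ : ∃ F : ℂ[X], F = rp f k T := ⟨_, rfl⟩
  obtain ⟨h1, hh1⟩ : ∃ h1 : ℂ[X], h1 = rp k f T := ⟨_, rfl⟩
  have hFc : ∀ j, F.coeff j = (Real.cosh T : ℂ) * f.coeff j - (Real.sinh T : ℂ) * k.coeff j := by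
    intro j
    rw [hF, rp, coeff_sub, coeff_C_mul, coeff_C_mul]
  have hhc : ∀ j, h1.coeff j = (Real.cosh T : ℂ) * k.coeff j - (Real.sinh T : ℂ) * f.coeff j := by
    intro j
    rw [hh1, rp, coeff_sub, coeff_C_mul, coeff_C_mul]
  have hF0 : F.coeff 0 = 0 := by
    rw [hFc, hgk, hgT]
    push_cast
    ring
  have hFX : F = X * F.divX := by
    have h2 := divX_mul_X_add F
    rw [hF0, C_0, add_zero] at h2
    rw [mul_comm]
    exact h2.symm
  have P3 : Pair s F h1 := by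
    rw [hF, hh1]
    exact P2.rot T
  have hn : ∀ z : ℂ, ‖z‖ = 1 → ‖F.eval z‖ = ‖F.divX.eval z‖ := by
    intro z hz
    conv_lhs => rw [hFX]
    rw [eval_mul, eval_X, norm_mul, hz, one_mul]
  have hdiff : ∀ j, ‖F.coeff j‖ ^ 2 - ‖h1.coeff j‖ ^ 2 = ‖f.coeff j‖ ^ 2 - ‖h.coeff j‖ ^ 2 := by
    intro j
    rw [← hk0 j, hFc, hhc]
    rw [← Complex.normSq_eq_norm_sq, ← Complex.normSq_eq_norm_sq, ← Complex.normSq_eq_norm_sq,
      ← Complex.normSq_eq_norm_sq, Complex.normSq_apply, Complex.normSq_apply,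
      Complex.normSq_apply, Complex.normSq_apply]
    simp only [sub_re, sub_im, mul_re, mul_im, ofReal_re, ofReal_im, zero_mul, sub_zero, add_zero]
    linear_combination ((f.coeff j).re * (f.coeff j).re + (f.coeff j).im * (f.coeff j).im -
      ((k.coeff j).re * (k.coeff j).re + (k.coeff j).im * (k.coeff j).im)) * hcs
  have P4 : Pair s F.divX h1 := ⟨P.pos, fun t => by
    rw [← hn (e t) (norm_e t)]
    exact P3.circ t, P3.nz⟩
  refine ⟨w, T, F.divX, h1, ?_⟩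
  refine ⟨hw, P4, ?_, ?_, ?_, ?_, ?_, ?_⟩
  · rw [← hFX, hF, rp, hk, C_mul]
    ring
  · rw [hh1, rp, hk, C_mul]
    ring
  · rw [natDegree_divX_eq_natDegree_tsub_one]
    have h2 : F.natDegree ≤ f.natDegree := by
      rw [hF, rp]
      refine (natDegree_sub_le _ _).trans (max_le ?_ ?_)
      · exact natDegree_C_mul_le _ _
      · exact (natDegree_C_mul_le _ _).trans P2.deg
    omega
  · intro j
    rw [coeff_divX]
    exact hdiff (j + 1)
  · have h2 := hdiff 0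
    rw [hF0, norm_zero] at h2
    linarith
  · have h2 := P2.inv T
    rw [← h2, ← P4.tau, ← Ig_X_mul P.pos, ← hFX, hF]

end Pool.Agent.H36.SB
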