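import Pool.Agent.H36.SB.An

/-!
# The trace inequality

PROOF. Let `Y = X^n * Y0`. `h` has no zeros in the closed disc, so `U = {z | h z <> 0}` is open and
contains it; `a 0 <> 0` (`S.lead`, `h 0 <> 0`). Put `η = h(0) / a(0)`, `|η| = |hn(0)|` (`S.lead`),
`W = z^n fn / h`, `w1 = 1 - η a / h`: analytic on `U`, `w1 0 = 0`. From `S.eq1`:
`f a / h = b + W`, so `f = f w1 + η b + η W`. Multiply by `conj Y` and take means:
`av Re (conj Y f) = av Re (conj (conj f Y) w1) + av Re (conj Y η b) + av Re (conj Y η W)`.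
* `av Re (conj Y η b) = 0`: it is the mean of `Re (conj η * conj b * z^n Y0)` (take the complex
  conjugate), so `av_orth` with `p = b`, `g = conj η * Y0`.
* `av Re (conj (conj f Y) w1) = av Re (conj P' w1) + av Re (Q w1)` by `hPQ`, and
  `av Re (Q w1) = Re (Q 0 * w1 0) = 0` (`av_re`).
With `2 Re (conj u v) <= s |u|^2 + |v|^2 / s` and `2 Re (conj u v) <= |u|^2 + |v|^2`:
`2 av Re (conj Y f) <= s av |Y|^2 + (|η|^2 / s) av |W|^2 + av |P'|^2 + av |w1|^2`.
It remains to see `(|η|^2 / s) av |W|^2 + av |w1|^2 = |η|^2 / s - 1`. First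
`av |w1|^2 = 1 - 2 av Re (η a / h) + |η|^2 av |a/h|^2 = -1 + |η|^2 av |a/h|^2` (`av_re`, the value
of `η a / h` at `0` is `1`). Pointwise on the circle `s |a|^2 = |a|^2 |h|^2 - |a f|^2`,
`|a f|^2 = |b h + z^n fn|^2 = |b|^2 |h|^2 + |fn|^2 + 2 Re (conj (b h) z^n fn)` and `S.det` give
`s |a|^2 + |fn|^2 = |h|^2 (1 - 2 Re (conj b W))` because `conj h / |h|^2 = 1 / h`. So
`av (|W|^2 + s |a/h|^2) = 1 - 2 av Re (conj b W) = 1` (`av_orth` with `p = b`, `g = fn / h`).
-/

open Complex MeasureTheory Set Filter Topology Polynomial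
open scoped ComplexConjugate Real

namespace Pool.Agent.H36.SB

open Pool.Agent.H97.SIM

private theorem tr_add_sq (x y : ℂ) : ‖x + y‖ ^ 2 = ‖x‖ ^ 2 + ‖y‖ ^ 2 + 2 * (conj x * y).re := by
  rw [Complex.sq_norm, Complex.sq_norm, Complex.sq_norm, Complex.normSq_apply,
    Complex.normSq_apply, Complex.normSq_apply]
  simp only [add_re, add_im, mul_re, conj_re, conj_im]
  ring

private theorem tr_amgm {c : ℝ} (hc : 0 < c) (x y : ℂ) :
    2 * (conj x * y).re ≤ c * ‖x‖ ^ 2 + ‖y‖ ^ 2 / c := by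
  have h1 : (conj x * y).re ≤ ‖x‖ * ‖y‖ := by
    refine (Complex.re_le_norm _).trans (le_of_eq ?_)
    rw [norm_mul, Complex.norm_conj]
  have h2 : 0 ≤ (c * ‖x‖ - ‖y‖) ^ 2 / c := by positivity
  have h3 : (c * ‖x‖ - ‖y‖) ^ 2 / c = c * ‖x‖ ^ 2 + ‖y‖ ^ 2 / c - 2 * (‖x‖ * ‖y‖) := by
    field_simp
    ring
  rw [h3] at h2
  linarith

private theorem tr_pw {s : ℝ} (hs : 0 < s) {F H A B N Y y0 z P Q η : ℂ} {n : ℕ} (hH : H ≠ 0)
    (h1 : A * F - B * H = z ^ n * N) (h2 : ‖H‖ ^ 2 = ‖F‖ ^ 2 + s) (h3 : ‖A‖ ^ 2 - ‖B‖ ^ 2 = 1)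
    (hY : Y = z ^ n * y0) (h4 : conj F * Y = P + conj Q) :
    2 * (conj Y * F).re - s * ‖Y‖ ^ 2 - ‖P‖ ^ 2 ≤
      (‖η‖ ^ 2 / s * (1 - 2 * (conj B * (z ^ n * (N / H))).re) + 1 - 2 * (η * (A / H)).re) +
      2 * (Q * (1 - η * (A / H))).re + 2 * (conj B * (z ^ n * (conj η * y0))).re := by
  obtain ⟨W, hW⟩ : ∃ W, W = z ^ n * (N / H) := ⟨_, rfl⟩
  obtain ⟨w1, hw1⟩ : ∃ w1, w1 = 1 - η * (A / H) := ⟨_, rfl⟩
  have e1 : A / H * F = B + W := by
    rw [hW, ← mul_div_assoc, ← h1]
    field_simp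
    ring
  have e2 : F = F * w1 + η * B + η * W := by
    rw [hw1]
    linear_combination (η) * e1
  have e3 : conj Y * F = conj P + Q := by
    have := congrArg conj h4
    rw [map_mul, Complex.conj_conj, map_add, Complex.conj_conj] at this
    rw [← this]
    ring
  have e4 : conj Y * F = (conj P * w1 + Q * w1) + conj Y * (η * B) + conj Y * (η * W) := by
    have e5 : conj Y * F = (conj Y * F) * w1 + conj Y * (η * B) + conj Y * (η * W) := by
      linear_combination (conj Y) * e2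
    rw [e3] at e5 ⊢
    linear_combination e5
  have e6 : (conj Y * (η * B)).re = (conj B * (z ^ n * (conj η * y0))).re := by
    have e7 : conj (conj Y * (η * B)) = conj B * (z ^ n * (conj η * y0)) := by
      rw [map_mul, map_mul, Complex.conj_conj, hY]
      ring
    rw [← e7, Complex.conj_re]
  have e8 : 2 * (conj P * w1).re ≤ ‖P‖ ^ 2 + ‖w1‖ ^ 2 := by
    have := tr_amgm one_pos P w1
    rwa [one_mul, div_one] at this
  have e9 : 2 * (conj Y * (η * W)).re ≤ s * ‖Y‖ ^ 2 + ‖η‖ ^ 2 / s * ‖W‖ ^ 2 := by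
    have := tr_amgm hs Y (η * W)
    rw [norm_mul, mul_pow] at this
    refine this.trans (le_of_eq ?_)
    ring
  have e10 : (conj Y * F).re = (conj P * w1).re + (Q * w1).re + (conj Y * (η * B)).re +
      (conj Y * (η * W)).re := by
    have := congrArg Complex.re e4
    simpa only [add_re] using this
  -- the second identity
  have e11 : ‖w1‖ ^ 2 = 1 - 2 * (η * (A / H)).re + ‖η‖ ^ 2 * ‖A / H‖ ^ 2 := by
    have e12 := tr_add_sq 1 (-(η * (A / H)))
    rw [← sub_eq_add_neg, ← hw1, norm_neg, norm_mul, mul_pow, norm_one, map_one, one_mul,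
      neg_re] at e12
    rw [e12]
    ring
  have e13 : s * ‖A / H‖ ^ 2 + ‖W‖ ^ 2 = 1 - 2 * (conj B * W).re := by
    have e14 : ‖A / H‖ ^ 2 * ‖F‖ ^ 2 = ‖B‖ ^ 2 + ‖W‖ ^ 2 + 2 * (conj B * W).re := by
      rw [← mul_pow, ← norm_mul, e1, tr_add_sq]
    have e15 : ‖A / H‖ ^ 2 * ‖H‖ ^ 2 = ‖A‖ ^ 2 := by
      rw [← mul_pow, ← norm_mul, div_mul_cancel₀ _ hH]
    rw [h2] at e15
    linear_combination e15 - e14 + h3
  have e16 : ‖η‖ ^ 2 / s * ‖W‖ ^ 2 + ‖w1‖ ^ 2 =
      ‖η‖ ^ 2 / s * (1 - 2 * (conj B * W).re) + 1 - 2 * (η * (A / H)).re := by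
    rw [e11, ← e13]
    field_simp
    ring
  rw [← hW, ← hw1, ← e6]
  linarith

variable {s : ℝ} {f h : ℂ[X]}

theorem trace (P : Pair s f h) {n : ℕ} {a b fn hn : ℂ[X]} (S : Sch s f h n a b fn hn)
    {Y0 P' Q : ℂ[X]} (hPQ : ∀ t : ℝ, conj (f.eval (e t)) * (X ^ n * Y0).eval (e t) =
      P'.eval (e t) + conj (Q.eval (e t))) :
    2 * av (fun t => (conj ((X ^ n * Y0).eval (e t)) * f.eval (e t)).re) -
      s * av (fun t => ‖(X ^ n * Y0).eval (e t)‖ ^ 2) - av (fun t => ‖P'.eval (e t)‖ ^ 2) ≤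
      ‖hn.coeff 0‖ ^ 2 / s - 1 := by
  have hs : 0 < s := P.pos
  have hone : ∀ t, ‖e t‖ ≤ 1 := fun t => (norm_e t).le
  have hnz : ∀ t, h.eval (e t) ≠ 0 := fun t => P.nz _ (hone t)
  obtain ⟨U, hUdef⟩ : ∃ U : Set ℂ, U = {z : ℂ | h.eval z ≠ 0} := ⟨_, rfl⟩
  have hU : IsOpen U := by
    rw [hUdef]
    exact isOpen_ne_fun h.continuous continuous_const
  have hUs : Metric.closedBall (0:ℂ) 1 ⊆ U := by
    intro z hz
    rw [hUdef]
    exact P.nz z (mem_closedBall_zero_iff.1 hz)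
  have hUnz : ∀ z ∈ U, h.eval z ≠ 0 := by
    intro z hz
    rw [hUdef] at hz
    exact hz
  have h00 : h.eval 0 ≠ 0 := P.nz 0 (by rw [norm_zero]; exact zero_le_one)
  have ha0 : a.eval 0 ≠ 0 := by
    intro h1
    have h2 := S.lead
    rw [coeff_zero_eq_eval_zero a, h1, norm_zero, zero_mul, coeff_zero_eq_eval_zero h] at h2
    exact h00 (norm_eq_zero.1 h2.symm)
  obtain ⟨η, hη⟩ : ∃ η : ℂ, η = h.eval 0 / a.eval 0 := ⟨_, rfl⟩
  have hηn : ‖η‖ = ‖hn.coeff 0‖ := by
    have h2 := S.lead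
    rw [coeff_zero_eq_eval_zero a, coeff_zero_eq_eval_zero h] at h2
    have h3 : ‖a.eval 0‖ ≠ 0 := norm_ne_zero_iff.2 ha0
    rw [hη, norm_div, ← h2, mul_div_assoc, mul_comm, div_mul_cancel₀ _ h3]
  -- differentiability
  have dN : DifferentiableOn ℂ (fun z => fn.eval z / h.eval z) U :=
    (fn.differentiable.differentiableOn).div h.differentiable.differentiableOn hUnz
  have dA : DifferentiableOn ℂ (fun z => a.eval z / h.eval z) U :=
    (a.differentiable.differentiableOn).div h.differentiable.differentiableOn hUnz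
  have dηA : DifferentiableOn ℂ (fun z => η * (a.eval z / h.eval z)) U := dA.const_mul η
  have dQ : DifferentiableOn ℂ (fun z => Q.eval z * (1 - η * (a.eval z / h.eval z))) U :=
    (Q.differentiable.differentiableOn).mul ((differentiableOn_const 1).sub dηA)
  have dY : DifferentiableOn ℂ (fun z => conj η * Y0.eval z) U :=
    (Y0.differentiable.differentiableOn).const_mul _
  -- the four mean values
  have E1 : av (fun t => (conj (b.eval (e t)) * (e t ^ n * (fn.eval (e t) / h.eval (e t)))).re) = 0 :=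
    av_orth hU hUs dN S.degb
  have E2 : av (fun t => (η * (a.eval (e t) / h.eval (e t))).re) = 1 := by
    have h1 := av_re hU hUs dηA
    rw [h1, hη]
    have h2 : h.eval 0 / a.eval 0 * (a.eval 0 / h.eval 0) = 1 := by
      field_simp
    rw [h2, one_re]
  have E3 : av (fun t => (Q.eval (e t) * (1 - η * (a.eval (e t) / h.eval (e t)))).re) = 0 := by
    have h1 := av_re hU hUs dQ
    rw [h1, hη]
    have h2 : h.eval 0 / a.eval 0 * (a.eval 0 / h.eval 0) = 1 := by
      field_simp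
    rw [h2, sub_self, mul_zero, zero_re]
  have E4 : av (fun t => (conj (b.eval (e t)) * (e t ^ n * (conj η * Y0.eval (e t)))).re) = 0 :=
    av_orth hU hUs dY S.degb
  -- continuity
  have cp : ∀ p : ℂ[X], Continuous (fun t => p.eval (e t)) := fun p =>
    p.continuous.comp continuous_e
  have cdiv : ∀ p : ℂ[X], Continuous (fun t => p.eval (e t) / h.eval (e t)) := fun p =>
    (cp p).div (cp h) hnz
  have cc : Continuous (fun z : ℂ => conj z) := Complex.continuous_conj
  have c1 : Continuous (fun t =>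
      (conj (b.eval (e t)) * (e t ^ n * (fn.eval (e t) / h.eval (e t)))).re) :=
    Complex.continuous_re.comp ((cc.comp (cp b)).mul ((continuous_e.pow n).mul (cdiv fn)))
  have c2 : Continuous (fun t => (η * (a.eval (e t) / h.eval (e t))).re) :=
    Complex.continuous_re.comp (continuous_const.mul (cdiv a))
  have c3 : Continuous (fun t =>
      (Q.eval (e t) * (1 - η * (a.eval (e t) / h.eval (e t)))).re) :=
    Complex.continuous_re.comp ((cp Q).mul (continuous_const.sub (continuous_const.mul (cdiv a))))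
  have c4 : Continuous (fun t =>
      (conj (b.eval (e t)) * (e t ^ n * (conj η * Y0.eval (e t)))).re) :=
    Complex.continuous_re.comp ((cc.comp (cp b)).mul
      ((continuous_e.pow n).mul (continuous_const.mul (cp Y0))))
  have c5 : Continuous (fun t => (conj ((X ^ n * Y0).eval (e t)) * f.eval (e t)).re) :=
    Complex.continuous_re.comp ((cc.comp (cp _)).mul (cp f))
  have c6 : Continuous (fun t => ‖(X ^ n * Y0).eval (e t)‖ ^ 2) := (cp _).norm.pow 2
  have c7 : Continuous (fun t => ‖P'.eval (e t)‖ ^ 2) := (cp _).norm.pow 2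
  -- the pointwise inequality
  have hpw : ∀ t, (2 * (conj ((X ^ n * Y0).eval (e t)) * f.eval (e t)).re -
      s * ‖(X ^ n * Y0).eval (e t)‖ ^ 2) - ‖P'.eval (e t)‖ ^ 2 ≤
      (((‖η‖ ^ 2 / s + 1) - (2 * (‖η‖ ^ 2 / s)) *
        (conj (b.eval (e t)) * (e t ^ n * (fn.eval (e t) / h.eval (e t)))).re -
      2 * (η * (a.eval (e t) / h.eval (e t))).re) +
      2 * (Q.eval (e t) * (1 - η * (a.eval (e t) / h.eval (e t)))).re) +
      2 * (conj (b.eval (e t)) * (e t ^ n * (conj η * Y0.eval (e t)))).re := by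
    intro t
    have h1 : a.eval (e t) * f.eval (e t) - b.eval (e t) * h.eval (e t) =
        e t ^ n * fn.eval (e t) := by
      have := congrArg (Polynomial.eval (e t)) S.eq1
      simpa only [eval_sub, eval_mul, eval_pow, eval_X] using this
    have h2 : (X ^ n * Y0).eval (e t) = e t ^ n * Y0.eval (e t) := by
      rw [eval_mul, eval_pow, eval_X]
    have h3 := tr_pw hs (η := η) (hnz t) h1 (P.circ t) (S.det t) h2 (hPQ t)
    refine h3.trans (le_of_eq ?_)
    ring
  have m1 : Continuous (fun t => 2 * (conj ((X ^ n * Y0).eval (e t)) * f.eval (e t)).re) :=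
    continuous_const.mul c5
  have m2 : Continuous (fun t => s * ‖(X ^ n * Y0).eval (e t)‖ ^ 2) := continuous_const.mul c6
  have m3 : Continuous (fun t => 2 * (conj ((X ^ n * Y0).eval (e t)) * f.eval (e t)).re -
      s * ‖(X ^ n * Y0).eval (e t)‖ ^ 2) := m1.sub m2
  have m4 : Continuous (fun t => (2 * (conj ((X ^ n * Y0).eval (e t)) * f.eval (e t)).re -
      s * ‖(X ^ n * Y0).eval (e t)‖ ^ 2) - ‖P'.eval (e t)‖ ^ 2) := m3.sub c7
  have r1 : Continuous (fun t => (2 * (‖η‖ ^ 2 / s)) *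
        (conj (b.eval (e t)) * (e t ^ n * (fn.eval (e t) / h.eval (e t)))).re) :=
    continuous_const.mul c1
  have r2 : Continuous (fun t => (‖η‖ ^ 2 / s + 1) - (2 * (‖η‖ ^ 2 / s)) *
        (conj (b.eval (e t)) * (e t ^ n * (fn.eval (e t) / h.eval (e t)))).re) :=
    continuous_const.sub r1
  have r3 : Continuous (fun t => 2 * (η * (a.eval (e t) / h.eval (e t))).re) :=
    continuous_const.mul c2
  have r4 : Continuous (fun t => (‖η‖ ^ 2 / s + 1) - (2 * (‖η‖ ^ 2 / s)) *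
        (conj (b.eval (e t)) * (e t ^ n * (fn.eval (e t) / h.eval (e t)))).re -
      2 * (η * (a.eval (e t) / h.eval (e t))).re) := r2.sub r3
  have r5 : Continuous (fun t =>
      2 * (Q.eval (e t) * (1 - η * (a.eval (e t) / h.eval (e t)))).re) := continuous_const.mul c3
  have r6 : Continuous (fun t => ((‖η‖ ^ 2 / s + 1) - (2 * (‖η‖ ^ 2 / s)) *
        (conj (b.eval (e t)) * (e t ^ n * (fn.eval (e t) / h.eval (e t)))).re -
      2 * (η * (a.eval (e t) / h.eval (e t))).re) +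
      2 * (Q.eval (e t) * (1 - η * (a.eval (e t) / h.eval (e t)))).re) := r4.add r5
  have r7 : Continuous (fun t =>
      2 * (conj (b.eval (e t)) * (e t ^ n * (conj η * Y0.eval (e t)))).re) :=
    continuous_const.mul c4
  have r8 : Continuous (fun t => (((‖η‖ ^ 2 / s + 1) - (2 * (‖η‖ ^ 2 / s)) *
        (conj (b.eval (e t)) * (e t ^ n * (fn.eval (e t) / h.eval (e t)))).re -
      2 * (η * (a.eval (e t) / h.eval (e t))).re) +
      2 * (Q.eval (e t) * (1 - η * (a.eval (e t) / h.eval (e t)))).re) +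
      2 * (conj (b.eval (e t)) * (e t ^ n * (conj η * Y0.eval (e t)))).re) := r6.add r7
  have hmono := av_mono m4 r8 hpw
  rw [av_sub m3 c7, av_sub m1 m2, av_mul_const, av_mul_const] at hmono
  refine hmono.trans (le_of_eq ?_)
  rw [av_add r6 r7, av_add r4 r5, av_sub r2 r3, av_sub continuous_const r1, av_const,
    av_mul_const, av_mul_const, av_mul_const, av_mul_const, E1, E2, E3, E4, hηn]
  ring

end Pool.Agent.H36.SB
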