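import Pool.Agent.H36.SB.TrA
import Pool.Agent.H36.SB.Pos
import Pool.Agent.H97.SIM.PairB

/-!
# The lower bound for the logarithms

PROOF. Apply `trace` with `Y = X^n * Y0 = (1/s) sum_(n<=j<N) f_j X^j`, that is
`Y0 = sum_(i<N) C (f_(n+i) / s) X^i` (coefficients `f_j` with `j >= N` vanish),
`P' = (1/s) sum_(k in Ico 1 N) C (cc f N n k) X^k` and
`Q = (1/s) sum_(k<N) C (sum_(l<N, n<=l) f_(l+k) conj f_l) X^k`.
CHECK of `hPQ`: `conj f * (s Y) = sum_(j<N) sum_(l<N, n<=l) conj f_j f_l z^(l-j)` on the circle;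
the terms with `l = j + k`, `k >= 1`, give `s P'`; the terms with `j = l + k`, `k >= 0`, give
`sum_k sum_l [n<=l] conj f_(l+k) f_l conj z^k = conj (s Q)`.
VALUES (`poly_parseval` and its polarised form `av Re (conj p q) = sum_j Re (conj p_j q_j)`, from
`4 Re (conj p q) = |p+q|^2 - |p-q|^2`): `av Re (conj Y f) = tt f N n / s`,
`s av |Y|^2 = tt f N n / s`, `av |P'|^2 = mm f N n / s^2`. So, with `t = tt f N n / s`,
`μ = mm f N n / s^2`: `1 + t - μ <= |hn_0|^2 / s = exp τ`. `t, μ >= 0`, and `τ >= 0`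
(`tau_nonneg`). Let `v = t - μ <= t`. If `v <= 0`: `τ >= 0 >= v - t^2/2`. If `v > 0`:
`τ >= log (1 + v) >= v - v^2/2 >= v - t^2/2` (`one_sub_l1_le`, `l1_mul`). That is the claim.
-/

open Complex MeasureTheory Set Filter Topology Polynomial
open scoped ComplexConjugate Real

namespace Pool.Agent.H36.SB

open Pool.Agent.H97.SIM

variable {s : ℝ} {f h : ℂ[X]}

private theorem tb_alg (a b : ℂ) : (conj a * b).re = 1 / 4 * (‖a + b‖ ^ 2 - ‖a - b‖ ^ 2) := by
  rw [Complex.sq_norm, Complex.sq_norm, Complex.normSq_apply, Complex.normSq_apply]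
  simp only [mul_re, conj_re, conj_im, add_re, add_im, sub_re, sub_im]
  ring

private theorem tb_polar (p q : ℂ[X]) {N : ℕ} (hp : p.natDegree < N) (hq : q.natDegree < N) :
    av (fun t => (conj (pe p t) * pe q t).re) =
      ∑ j ∈ Finset.range N, (conj (p.coeff j) * q.coeff j).re := by
  have h1 : av (fun t => (conj (pe p t) * pe q t).re) =
      av (fun t => 1 / 4 * (‖pe (p + q) t‖ ^ 2 - ‖pe (p - q) t‖ ^ 2)) := by
    refine av_congr fun t => ?_
    rw [tb_alg]
    simp only [pe, eval_add, eval_sub]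
  rw [h1, av_mul_const, av_sub (f := fun t => ‖pe (p + q) t‖ ^ 2) (g := fun t => ‖pe (p - q) t‖ ^ 2)
    ((continuous_pe _).norm.pow 2) ((continuous_pe _).norm.pow 2),
    poly_parseval (p + q) (lt_of_le_of_lt (natDegree_add_le p q) (max_lt hp hq)),
    poly_parseval (p - q) (lt_of_le_of_lt (natDegree_sub_le p q) (max_lt hp hq)),
    ← Finset.sum_sub_distrib, Finset.mul_sum]
  refine Finset.sum_congr rfl fun j _ => ?_
  rw [tb_alg, coeff_add, coeff_sub]

private noncomputable def tbPoly (N : ℕ) (c : ℕ → ℂ) : ℂ[X] := ∑ k ∈ Finset.range N, monomial k (c k)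

private theorem tbPoly_coeff (N : ℕ) (c : ℕ → ℂ) (j : ℕ) :
    (tbPoly N c).coeff j = if j < N then c j else 0 := by
  unfold tbPoly
  rw [finsetSum_coeff]
  simp only [coeff_monomial]
  rw [Finset.sum_ite_eq']
  simp only [Finset.mem_range]

private theorem tbPoly_eval (N : ℕ) (c : ℕ → ℂ) (z : ℂ) :
    (tbPoly N c).eval z = ∑ k ∈ Finset.range N, c k * z ^ k := by
  unfold tbPoly
  rw [eval_finsetSum]
  simp only [eval_monomial]

private theorem tb_deg {N : ℕ} (hN : 0 < N) (p : ℂ[X]) (h : ∀ j, N ≤ j → p.coeff j = 0) :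
    p.natDegree < N := by
  have h1 : p.natDegree ≤ N - 1 := by
    rw [natDegree_le_iff_coeff_eq_zero]
    intro m hm
    exact h m (by omega)
  omega

private theorem tb_shift {N : ℕ} (v : ℕ → ℂ) (j : ℕ) (h : ∀ l, N ≤ l → v l = 0) :
    ∑ l ∈ Finset.range N, (if j < l then v l else 0) =
      ∑ k ∈ Finset.range N, if 1 ≤ k then v (j + k) else 0 := by
  have h1 : ∑ l ∈ Finset.range N, (if j < l then v l else 0) = ∑ l ∈ Finset.Ico (j + 1) N, v l := by
    rw [← Finset.sum_filter]
    refine Finset.sum_congr ?_ fun _ _ => rfl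
    ext l
    simp only [Finset.mem_filter, Finset.mem_range, Finset.mem_Ico]
    omega
  have h2 : ∑ k ∈ Finset.range N, (if 1 ≤ k then v (j + k) else 0) =
      ∑ k ∈ Finset.Ico 1 N, v (j + k) := by
    rw [← Finset.sum_filter]
    refine Finset.sum_congr ?_ fun _ _ => rfl
    ext l
    simp only [Finset.mem_filter, Finset.mem_range, Finset.mem_Ico]
    omega
  rw [h1, h2]
  have h3 : ∑ k ∈ Finset.Ico 1 N, v (j + k) = ∑ l ∈ Finset.Ico (j + 1) (j + N), v l := by
    rw [Finset.sum_Ico_add, add_comm 1 j, add_comm N j]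
  rw [h3]
  refine Finset.sum_subset (Finset.Ico_subset_Ico_right (by omega)) fun l hl hl' => ?_
  apply h
  simp only [Finset.mem_Ico] at hl hl'
  omega

private theorem tb_shift0 {N : ℕ} (v : ℕ → ℂ) (j : ℕ) (h : ∀ l, N ≤ l → v l = 0) :
    ∑ l ∈ Finset.range N, (if j ≤ l then v l else 0) =
      ∑ k ∈ Finset.range N, v (j + k) := by
  have h1 : ∑ l ∈ Finset.range N, (if j ≤ l then v l else 0) = ∑ l ∈ Finset.Ico j N, v l := by
    rw [← Finset.sum_filter]
    refine Finset.sum_congr ?_ fun _ _ => rfl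
    ext l
    simp only [Finset.mem_filter, Finset.mem_range, Finset.mem_Ico]
    omega
  have h3 : ∑ k ∈ Finset.range N, v (j + k) = ∑ l ∈ Finset.Ico j (j + N), v l := by
    rw [Finset.sum_Ico_eq_sum_range]
    simp
  rw [h1, h3]
  refine Finset.sum_subset (Finset.Ico_subset_Ico_right (by omega)) fun l hl hl' => ?_
  apply h
  simp only [Finset.mem_Ico] at hl hl'
  omega

private theorem tb_double {N : ℕ} (u : ℕ → ℕ → ℂ) (h1 : ∀ j l, N ≤ j → u j l = 0)
    (h2 : ∀ j l, N ≤ l → u j l = 0) :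
    ∑ j ∈ Finset.range N, ∑ l ∈ Finset.range N, u j l =
      (∑ k ∈ Finset.range N, if 1 ≤ k then ∑ j ∈ Finset.range N, u j (j + k) else 0) +
      ∑ k ∈ Finset.range N, ∑ l ∈ Finset.range N, u (l + k) l := by
  have e1 : ∑ j ∈ Finset.range N, ∑ l ∈ Finset.range N, u j l =
      (∑ j ∈ Finset.range N, ∑ l ∈ Finset.range N, if j < l then u j l else 0) +
      ∑ l ∈ Finset.range N, ∑ j ∈ Finset.range N, if l ≤ j then u j l else 0 := by
    rw [Finset.sum_comm (s := Finset.range N) (t := Finset.range N)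
      (f := fun l j => if l ≤ j then u j l else 0), ← Finset.sum_add_distrib]
    refine Finset.sum_congr rfl fun j _ => ?_
    rw [← Finset.sum_add_distrib]
    refine Finset.sum_congr rfl fun l _ => ?_
    by_cases h : j < l
    · rw [if_pos h, if_neg (not_le.2 h), add_zero]
    · rw [if_neg h, if_pos (not_lt.1 h), zero_add]
  rw [e1]
  congr 1
  · rw [Finset.sum_congr rfl fun j _ => tb_shift (u j) j (fun l hl => h2 j l hl),
      Finset.sum_comm]
    refine Finset.sum_congr rfl fun k _ => ?_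
    by_cases hk : 1 ≤ k
    · simp only [if_pos hk]
    · simp only [if_neg hk, Finset.sum_const_zero]
  · rw [Finset.sum_congr rfl fun l _ => tb_shift0 (fun j => u j l) l (fun j hj => h1 j l hj),
      Finset.sum_comm]

private theorem tb_num {t m E τ : ℝ} (_ : 0 ≤ t) (hm : 0 ≤ m) (hE : t - m ≤ E - 1)
    (hτ : 0 ≤ τ) (h : τ = Real.log E) : t - m - t ^ 2 / 2 ≤ τ := by
  by_cases hv : t - m ≤ 0
  · have : 0 ≤ t ^ 2 / 2 := by positivity
    linarith
  · push Not at hv
    have h1 : Real.log (1 + (t - m)) ≤ Real.log E := Real.log_le_log (by linarith) (by linarith)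
    rw [← l1_mul (t - m)] at h1
    have h2 := one_sub_l1_le hv.le
    have h3 : (t - m) * (1 - (t - m) / 2) ≤ (t - m) * l1 (t - m) :=
      mul_le_mul_of_nonneg_left (by linarith) hv.le
    have h4 : (t - m) * (1 - (t - m) / 2) = (t - m) - (t - m) ^ 2 / 2 := by ring
    have h5 : (t - m) ^ 2 ≤ t ^ 2 := pow_le_pow_left₀ hv.le (by linarith) 2
    rw [h]
    linarith

theorem tau_ge (P : Pair s f h) {n : ℕ} {a b fn hn : ℂ[X]} (S : Sch s f h n a b fn hn) {N : ℕ}
    (hN : f.natDegree < N) :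
    tt f N n / s - (2 * mm f N n + tt f N n ^ 2) / (2 * s ^ 2) ≤
      Real.log (‖hn.coeff 0‖ ^ 2 / s) := by
  have hs := P.pos
  have hs' : (s : ℂ) ≠ 0 := by exact_mod_cast hs.ne'
  have hN0 : 0 < N := by omega
  have hf0 : ∀ j, N ≤ j → f.coeff j = 0 := fun j hj =>
    coeff_eq_zero_of_natDegree_lt (lt_of_lt_of_le hN hj)
  obtain ⟨Y0, hY0⟩ : ∃ Y0 : ℂ[X], Y0 = tbPoly N (fun i => f.coeff (n + i) / s) := ⟨_, rfl⟩
  have hYc : ∀ j, (X ^ n * Y0).coeff j = if n ≤ j then f.coeff j / s else 0 := by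
    intro j
    rw [coeff_X_pow_mul']
    by_cases h : n ≤ j
    · rw [if_pos h, if_pos h, hY0, tbPoly_coeff]
      have e1 : n + (j - n) = j := by omega
      by_cases h2 : j - n < N
      · rw [if_pos h2, e1]
      · rw [if_neg h2, hf0 j (by omega), zero_div]
    · rw [if_neg h, if_neg h]
  have hYd : (X ^ n * Y0).natDegree < N := tb_deg hN0 _ fun j hj => by
    rw [hYc, hf0 j hj, zero_div, ite_self]
  obtain ⟨P', hP'⟩ : ∃ P' : ℂ[X], P' = tbPoly N (fun k => if 1 ≤ k then cc f N n k / s else 0) :=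
    ⟨_, rfl⟩
  obtain ⟨Q, hQ⟩ : ∃ Q : ℂ[X], Q = tbPoly N (fun k => (∑ l ∈ Finset.range N,
      if n ≤ l then f.coeff (l + k) * conj (f.coeff l) else 0) / s) := ⟨_, rfl⟩
  have hPd : P'.natDegree < N := tb_deg hN0 _ fun j hj => by
    rw [hP', tbPoly_coeff, if_neg (by omega)]
  have hPQ : ∀ t : ℝ, conj (f.eval (e t)) * (X ^ n * Y0).eval (e t) =
      P'.eval (e t) + conj (Q.eval (e t)) := by
    intro t
    obtain ⟨z, hz⟩ : ∃ z : ℂ, z = e t := ⟨_, rfl⟩
    have hzz : z * conj z = 1 := by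
      rw [hz, Complex.mul_conj, Complex.normSq_eq_norm_sq, norm_e]
      norm_num
    rw [← hz, Polynomial.eval_eq_sum_range' hN, Polynomial.eval_eq_sum_range' hYd, map_sum,
      Finset.sum_mul_sum]
    have e1 := tb_double (N := N) (fun j l => conj (f.coeff j * z ^ j) *
      ((X ^ n * Y0).coeff l * z ^ l))
      (fun j l hj => by simp only [hf0 j hj, zero_mul, map_zero])
      (fun j l hl => by simp only [hYc, hf0 l hl, zero_div, ite_self, zero_mul, mul_zero])
    rw [e1, hP', hQ, tbPoly_eval, tbPoly_eval, map_sum]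
    congr 1
    · refine Finset.sum_congr rfl fun k _ => ?_
      by_cases hk : 1 ≤ k
      · rw [if_pos hk, if_pos hk]
        unfold cc
        rw [Finset.sum_div, Finset.sum_mul]
        refine Finset.sum_congr rfl fun j _ => ?_
        rw [hYc]
        by_cases h : n ≤ j + k
        · rw [if_pos h, if_pos h]
          have e2 : z ^ (j + k) * conj z ^ j = z ^ k := by
            rw [pow_add, mul_comm (z ^ j), mul_assoc, ← mul_pow, hzz, one_pow, mul_one]
          rw [map_mul, map_pow]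
          calc _ = f.coeff (j + k) * conj (f.coeff j) / s * (z ^ (j + k) * conj z ^ j) := by ring
            _ = _ := by rw [e2]
        · rw [if_neg h, if_neg h]
          simp
      · rw [if_neg hk, if_neg hk, zero_mul]
    · refine Finset.sum_congr rfl fun k _ => ?_
      rw [map_mul, map_div₀, map_sum, map_pow, conj_ofReal, Finset.sum_div, Finset.sum_mul]
      refine Finset.sum_congr rfl fun l _ => ?_
      rw [hYc]
      by_cases h : n ≤ l
      · rw [if_pos h, if_pos h]
        have e2 : z ^ l * conj z ^ (l + k) = conj z ^ k := by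
          rw [pow_add, ← mul_assoc, ← mul_pow, hzz, one_pow, one_mul]
        rw [map_mul, map_pow, map_mul, conj_conj]
        calc _ = conj (f.coeff (l + k)) * f.coeff l / s * (z ^ l * conj z ^ (l + k)) := by ring
          _ = _ := by rw [e2]
      · rw [if_neg h, if_neg h]
        simp
  have h0 := trace P S hPQ
  have hc : ∀ j, conj (f.coeff j / s) * f.coeff j = ((‖f.coeff j‖ ^ 2 / s : ℝ) : ℂ) := by
    intro j
    have e1 := Complex.conj_mul' (f.coeff j)
    rw [map_div₀, conj_ofReal]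
    push_cast
    rw [← e1]
    ring
  have v1 : av (fun t => (conj ((X ^ n * Y0).eval (e t)) * f.eval (e t)).re) = tt f N n / s := by
    have e1 := tb_polar (X ^ n * Y0) f hYd hN
    have e2 : av (fun t => (conj ((X ^ n * Y0).eval (e t)) * f.eval (e t)).re) =
        av (fun t => (conj (pe (X ^ n * Y0) t) * pe f t).re) := rfl
    rw [e2, e1]
    unfold tt
    rw [Finset.sum_div]
    refine Finset.sum_congr rfl fun j _ => ?_
    rw [hYc]
    by_cases h : n ≤ j
    · rw [if_pos h, if_pos h, hc, ofReal_re]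
    · rw [if_neg h, if_neg h]
      simp
  have v2 : av (fun t => ‖(X ^ n * Y0).eval (e t)‖ ^ 2) = tt f N n / s ^ 2 := by
    have e1 := poly_parseval (X ^ n * Y0) hYd
    have e2 : av (fun t => ‖(X ^ n * Y0).eval (e t)‖ ^ 2) =
        av (fun t => ‖pe (X ^ n * Y0) t‖ ^ 2) := rfl
    rw [e2, e1]
    unfold tt
    rw [Finset.sum_div]
    refine Finset.sum_congr rfl fun j _ => ?_
    rw [hYc]
    by_cases h : n ≤ j
    · rw [if_pos h, if_pos h, norm_div, norm_real, Real.norm_eq_abs, abs_of_pos hs, div_pow]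
    · rw [if_neg h, if_neg h]
      simp
  have v3 : av (fun t => ‖P'.eval (e t)‖ ^ 2) = mm f N n / s ^ 2 := by
    have e1 := poly_parseval P' hPd
    have e2 : av (fun t => ‖P'.eval (e t)‖ ^ 2) = av (fun t => ‖pe P' t‖ ^ 2) := rfl
    rw [e2, e1]
    unfold mm
    rw [Finset.sum_div]
    have e3 : Finset.Ico 1 N = (Finset.range N).filter (fun k => 1 ≤ k) := by
      ext k
      simp only [Finset.mem_filter, Finset.mem_range, Finset.mem_Ico]
      omega
    rw [e3, Finset.sum_filter]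
    refine Finset.sum_congr rfl fun k hk => ?_
    rw [Finset.mem_range] at hk
    rw [hP', tbPoly_coeff, if_pos hk]
    by_cases h : 1 ≤ k
    · rw [if_pos h, if_pos h, norm_div, norm_real, Real.norm_eq_abs, abs_of_pos hs, div_pow]
    · rw [if_neg h, if_neg h]
      simp
  rw [v1, v2, v3] at h0
  have htt : 0 ≤ tt f N n := by
    unfold tt
    refine Finset.sum_nonneg fun j _ => ?_
    split_ifs
    · positivity
    · exact le_rfl
  have hmm : 0 ≤ mm f N n := Finset.sum_nonneg fun k _ => by positivity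
  have h1 : s * (tt f N n / s ^ 2) = tt f N n / s := by
    field_simp
  have h2 : tt f N n / s - mm f N n / s ^ 2 - (tt f N n / s) ^ 2 / 2 ≤
      Real.log (‖hn.coeff 0‖ ^ 2 / s) :=
    tb_num (div_nonneg htt hs.le) (div_nonneg hmm (by positivity)) (by linarith)
      (tau_nonneg S.pair) rfl
  have h3 : tt f N n / s - (2 * mm f N n + tt f N n ^ 2) / (2 * s ^ 2) =
      tt f N n / s - mm f N n / s ^ 2 - (tt f N n / s) ^ 2 / 2 := by
    field_simp
    ring
  rw [h3]
  exact h2

end Pool.Agent.H36.SB
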